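import Pool.Agent.H6.FU.Defs

/-!
# AVG: a long window is an average of short windows

Statement: `b ‖S H n α‖ ≤ ∑_{t<H} ‖S b (n+t) α‖ + b²`.

Proof. For `1 ≤ j ≤ b` the sum `∑_{t<H} λ(n+t+j) e((t+j)α)` runs over `m = t+j ∈ [j, H+j-1]`; compared with
`S H n α = ∑_{m=1}^{H}` it misses at most `j-1` terms and has at most `j-1` extra terms, each of norm `1`:
`‖S H n α - ∑_{t<H} λ(n+t+j)e((t+j)α)‖ ≤ 2(j-1)`. Sum over `j`: `∑_{j=1}^b 2(j-1) = b(b-1) ≤ b²`, and
`∑_{j=1}^b ∑_{t<H} λ(n+t+j)e((t+j)α) = ∑_{t<H} e(tα) S b (n+t) α`.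
-/

namespace Pool.Agent.H6.FU

open Finset

/-- the term `λ(n+m) e(mα)` -/
noncomputable def AVG_F (n : ℕ) (α : ℝ) (m : ℕ) : ℂ :=
  ((-1 : ℂ) ^ (ArithmeticFunction.cardFactors (n + m))) *
    Complex.exp (2 * (Real.pi : ℂ) * Complex.I * (m : ℂ) * (α : ℂ))

theorem AVG_norm (n : ℕ) (α : ℝ) (m : ℕ) : ‖AVG_F n α m‖ = 1 := norm_term 0 n m α

theorem AVG_S (H n : ℕ) (α : ℝ) : S H n α = ∑ t ∈ range H, AVG_F n α (t + 1) := by
  have h1 : (range H).sum (fun t => AVG_F n α (t + 1)) = ∑ h ∈ Ico (0 + 1) (H + 1), AVG_F n α h := by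
    rw [← Finset.sum_Ico_add' (fun h => AVG_F n α h) 0 H 1, Nat.Ico_zero_eq_range]
  rw [h1]
  have h2 : Ico (0 + 1) (H + 1) = Icc 1 H := by
    ext x
    simp only [mem_Ico, mem_Icc]
    omega
  rw [h2]
  rfl

theorem AVG_step (H n : ℕ) (α : ℝ) (i : ℕ) :
    ‖(∑ t ∈ range H, AVG_F n α (t + 1)) - ∑ t ∈ range H, AVG_F n α (t + (i + 1))‖ ≤ 2 * i := by
  induction i with
  | zero => simp
  | succ i ih =>
    have h1 : ∑ t ∈ range H, AVG_F n α (t + (i + 1 + 1)) =
        (∑ t ∈ range H, AVG_F n α (t + (i + 1))) + AVG_F n α (H + (i + 1)) - AVG_F n α (i + 1) := by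
      have h2 := Finset.sum_range_succ (fun t => AVG_F n α (t + (i + 1))) H
      have h3 := Finset.sum_range_succ' (fun t => AVG_F n α (t + (i + 1))) H
      rw [h2] at h3
      rw [h3, zero_add, add_sub_cancel_right]
      refine Finset.sum_congr rfl fun t _ => ?_
      congr 1
      ring
    rw [h1]
    have h4 : (∑ t ∈ range H, AVG_F n α (t + 1)) -
        ((∑ t ∈ range H, AVG_F n α (t + (i + 1))) + AVG_F n α (H + (i + 1)) - AVG_F n α (i + 1)) =
        ((∑ t ∈ range H, AVG_F n α (t + 1)) - ∑ t ∈ range H, AVG_F n α (t + (i + 1))) -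
        (AVG_F n α (H + (i + 1)) - AVG_F n α (i + 1)) := by ring
    rw [h4]
    have h5 : ‖AVG_F n α (H + (i + 1)) - AVG_F n α (i + 1)‖ ≤ 2 := by
      refine (norm_sub_le _ _).trans ?_
      rw [AVG_norm, AVG_norm]
      norm_num
    refine (norm_sub_le _ _).trans ((add_le_add ih h5).trans ?_)
    push_cast
    linarith

theorem AVG_short (b n t : ℕ) (α : ℝ) :
    ‖∑ i ∈ range b, AVG_F n α (t + (i + 1))‖ = ‖S b (n + t) α‖ := by
  have h1 : ∑ i ∈ range b, AVG_F n α (t + (i + 1)) =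
      Complex.exp (2 * (Real.pi : ℂ) * Complex.I * (t : ℂ) * (α : ℂ)) * S b (n + t) α := by
    rw [AVG_S, Finset.mul_sum]
    refine Finset.sum_congr rfl fun i _ => ?_
    unfold AVG_F
    rw [show n + (t + (i + 1)) = n + t + (i + 1) by ring, mul_left_comm, ← Complex.exp_add]
    congr 2
    push_cast
    ring
  rw [h1, norm_mul, Complex.norm_exp]
  simp

theorem AVG_main (b H n : ℕ) (α : ℝ) :
    (b : ℝ) * ‖S H n α‖ ≤ (∑ t ∈ range H, ‖S b (n + t) α‖) + (b : ℝ) ^ 2 := by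
  have h1 : (b : ℂ) * S H n α =
      (∑ i ∈ range b, ∑ t ∈ range H, AVG_F n α (t + (i + 1))) +
      ∑ i ∈ range b, ((∑ t ∈ range H, AVG_F n α (t + 1)) -
        ∑ t ∈ range H, AVG_F n α (t + (i + 1))) := by
    rw [Finset.sum_sub_distrib, add_sub_cancel, AVG_S, Finset.sum_const, card_range, nsmul_eq_mul]
  have h2 : ‖∑ i ∈ range b, ∑ t ∈ range H, AVG_F n α (t + (i + 1))‖ ≤
      ∑ t ∈ range H, ‖S b (n + t) α‖ := by
    rw [Finset.sum_comm]
    refine (norm_sum_le _ _).trans (le_of_eq ?_)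
    exact Finset.sum_congr rfl fun t _ => AVG_short b n t α
  have h3 : ‖∑ i ∈ range b, ((∑ t ∈ range H, AVG_F n α (t + 1)) -
        ∑ t ∈ range H, AVG_F n α (t + (i + 1)))‖ ≤ (b : ℝ) ^ 2 := by
    refine (norm_sum_le _ _).trans ((Finset.sum_le_sum fun i _ => AVG_step H n α i).trans ?_)
    rw [← Finset.mul_sum]
    have h4 : (2 : ℝ) * ∑ i ∈ range b, (i : ℝ) = b * (b - 1) := by
      induction b with
      | zero => simp
      | succ b ih =>
        rw [Finset.sum_range_succ, mul_add, ih]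
        · push_cast
          ring
        · rw [Finset.sum_sub_distrib, add_sub_cancel, AVG_S, Finset.sum_const, card_range,
            nsmul_eq_mul]
        · rw [Finset.sum_comm]
          refine (norm_sum_le _ _).trans (le_of_eq ?_)
          exact Finset.sum_congr rfl fun t _ => AVG_short b n t α
    rw [h4]
    nlinarith [Nat.cast_nonneg (α := ℝ) b]
  have h5 : (b : ℝ) * ‖S H n α‖ = ‖(b : ℂ) * S H n α‖ := by
    rw [norm_mul, Complex.norm_natCast]
  rw [h5, h1]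
  exact (norm_add_le _ _).trans (add_le_add h2 h3)

end Pool.Agent.H6.FU
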