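import Pool.Agent.H6.FU.Defs

/-!
# CHI: a Lipschitz minorant of the indicator function of an interval mod 1

For `a < b ≤ a + 1` and `τ > 0` there are `K ≥ 0` and a `1`-periodic `K`-Lipschitz `χ : ℝ → [0,1]` that vanishes outside
`(a,b) + ℤ` and has `∫₀¹ χ ≥ b - a - τ`.

Proof. `Z = {x | ∀ k : ℤ, x + k ∉ (a,b)}` is closed, invariant under integer translations and contains `a` (`a + k ∈ (a,b)`
would give `0 < k < b - a ≤ 1`). Let `K = 2/τ`, `χ(x) = min 1 (K · infDist x Z)`. Periodic: `infDist (x+1) Z = infDist x Z`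
by the invariance of `Z`. Lipschitz: `infDist` is `1`-Lipschitz and `min 1` is `1`-Lipschitz. Zero on `Z` (so `χ x ≠ 0`
implies `x ∉ Z`, i.e. `x + k ∈ (a,b)` for some `k`). For `x ∈ [a + 1/K, b - 1/K]` and `y ∈ Z`: `y ∉ (a,b)` (take `k = 0`), so
`|x - y| ≥ min (x-a) (b-x) ≥ 1/K` and `χ x = 1`. Hence `∫₀¹ χ = ∫_a^{a+1} χ ≥ (b - a) - 2/K = b - a - τ`
(`Function.Periodic.intervalIntegral_add_eq`; if `a + 1/K > b - 1/K` the right side is `≤ 0` and there is nothing to prove).
-/

namespace Pool.Agent.H6.FU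

open Finset

/-- The complement of `(a,b) + ℤ`. -/
def CHI_Z (a b : ℝ) : Set ℝ := {x | ∀ k : ℤ, x + k ∉ Set.Ioo a b}

theorem CHI_Z_closed (a b : ℝ) : IsClosed (CHI_Z a b) := by
  have h : CHI_Z a b = ⋂ k : ℤ, {x : ℝ | x + k ∈ Set.Ioo a b}ᶜ := by
    ext x
    simp [CHI_Z]
  rw [h]
  refine isClosed_iInter fun k => IsOpen.isClosed_compl ?_
  exact isOpen_Ioo.preimage (continuous_id.add continuous_const)

theorem CHI_Z_mem (a b : ℝ) (hb : b ≤ a + 1) : a ∈ CHI_Z a b := by
  intro k hk
  have h1 : (0 : ℝ) < k := by linarith [hk.1]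
  have h2 : (k : ℝ) < 1 := by linarith [hk.2]
  have h3 : (0 : ℤ) < k := by exact_mod_cast h1
  have h4 : k < (1 : ℤ) := by exact_mod_cast h2
  omega

theorem CHI_Z_add (a b : ℝ) {y : ℝ} (m : ℤ) (hy : y ∈ CHI_Z a b) : y + m ∈ CHI_Z a b := by
  intro k hk
  apply hy (m + k)
  push_cast
  rwa [← add_assoc]

theorem CHI_infDist (a b : ℝ) (hb : b ≤ a + 1) (x : ℝ) :
    Metric.infDist (x + 1) (CHI_Z a b) = Metric.infDist x (CHI_Z a b) := by
  have hne : (CHI_Z a b).Nonempty := ⟨a, CHI_Z_mem a b hb⟩
  apply le_antisymm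
  · rw [Metric.le_infDist hne]
    intro y hy
    have h := Metric.infDist_le_dist_of_mem (x := x + 1) (CHI_Z_add a b 1 hy)
    simpa using h
  · rw [Metric.le_infDist hne]
    intro y hy
    have h := Metric.infDist_le_dist_of_mem (x := x) (CHI_Z_add a b (-1) hy)
    refine h.trans (le_of_eq ?_)
    rw [Real.dist_eq, Real.dist_eq]
    congr 1
    push_cast
    ring

theorem CHI_main (a b τ : ℝ) (hab : a < b) (hb : b ≤ a + 1) (hτ : 0 < τ) :
    ∃ (K : ℝ) (χ : ℝ → ℝ), 0 ≤ K ∧ Function.Periodic χ 1 ∧ (∀ x y, |χ x - χ y| ≤ K * |x - y|) ∧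
      (∀ x, 0 ≤ χ x) ∧ (∀ x, χ x ≤ 1) ∧ (∀ x, χ x ≠ 0 → ∃ k : ℤ, x + k ∈ Set.Ioo a b) ∧
      b - a - τ ≤ ∫ x in (0 : ℝ)..1, χ x := by
  have hne : (CHI_Z a b).Nonempty := ⟨a, CHI_Z_mem a b hb⟩
  set K : ℝ := 2 / τ with hK
  have hKpos : 0 < K := by positivity
  set χ : ℝ → ℝ := fun x => min 1 (K * Metric.infDist x (CHI_Z a b)) with hχ
  have hper : Function.Periodic χ 1 := by
    intro x
    simp only [hχ, CHI_infDist a b hb x]
  have hlip : ∀ x y, |χ x - χ y| ≤ K * |x - y| := by
    intro x y
    have h1 : |χ x - χ y| ≤ |K * Metric.infDist x (CHI_Z a b) - K * Metric.infDist y (CHI_Z a b)| := by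
      have := abs_min_sub_min_le_max 1 (K * Metric.infDist x (CHI_Z a b)) 1
        (K * Metric.infDist y (CHI_Z a b))
      simpa using this
    refine h1.trans ?_
    rw [← mul_sub, abs_mul, abs_of_pos hKpos]
    refine mul_le_mul_of_nonneg_left ?_ hKpos.le
    have h2 := Metric.infDist_le_infDist_add_dist (s := CHI_Z a b) (x := x) (y := y)
    have h3 := Metric.infDist_le_infDist_add_dist (s := CHI_Z a b) (x := y) (y := x)
    rw [dist_comm] at h3
    rw [Real.dist_eq] at h2 h3
    rw [abs_le]
    constructor <;> linarith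
  have h0 : ∀ x, 0 ≤ χ x := fun x =>
    le_min zero_le_one (mul_nonneg hKpos.le Metric.infDist_nonneg)
  have h1 : ∀ x, χ x ≤ 1 := fun x => min_le_left _ _
  have hcont : Continuous χ :=
    continuous_const.min (continuous_const.mul (Metric.continuous_infDist_pt _))
  refine ⟨K, χ, hKpos.le, hper, hlip, h0, h1, ?_, ?_⟩
  · intro x hx
    by_contra hcon
    push Not at hcon
    apply hx
    have h2 : x ∈ CHI_Z a b := hcon
    simp only [hχ, Metric.infDist_zero_of_mem h2, mul_zero]
    exact min_eq_right zero_le_one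
  · have hint : ∫ x in (0 : ℝ)..1, χ x = ∫ x in a..(a + 1), χ x := by
      have := hper.intervalIntegral_add_eq 0 a
      rw [zero_add] at this
      exact this
    rw [hint]
    by_cases hcase : a + 1 / K ≤ b - 1 / K
    · have hK1 : 0 < 1 / K := by positivity
      have h2 : ∀ x ∈ Set.Icc (a + 1 / K) (b - 1 / K), χ x = 1 := by
        intro x hx
        have h3 : 1 / K ≤ Metric.infDist x (CHI_Z a b) := by
          rw [Metric.le_infDist hne]
          intro y hy
          have h4 : y ∉ Set.Ioo a b := by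
            have := hy 0
            simpa using this
          rw [Real.dist_eq]
          by_contra hcon
          push Not at hcon
          rw [abs_lt] at hcon
          apply h4
          constructor <;> linarith [hx.1, hx.2, hcon.1, hcon.2]
        have h5 : 1 ≤ K * Metric.infDist x (CHI_Z a b) := by
          rw [div_le_iff₀ hKpos] at h3
          linarith
        simp only [hχ]
        exact min_eq_left h5
      have h3 : ∫ x in (a + 1 / K)..(b - 1 / K), χ x = b - a - τ := by
        rw [intervalIntegral.integral_congr (g := fun _ => (1 : ℝ)) (by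
          intro x hx
          rw [Set.uIcc_of_le hcase] at hx
          exact h2 x hx)]
        rw [intervalIntegral.integral_const, smul_eq_mul, mul_one, hK]
        field_simp
        ring
      rw [← h3]
      exact intervalIntegral.integral_mono_interval (by linarith) hcase (by linarith)
        (Filter.Eventually.of_forall h0) (hcont.intervalIntegrable _ _)
    · have h2 : b - a - τ ≤ 0 := by
        have : 1 / K = τ / 2 := by rw [hK]; field_simp
        rw [this] at hcase
        linarith
      exact h2.trans (intervalIntegral.integral_nonneg (by linarith) fun x _ => h0 x)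

end Pool.Agent.H6.FU
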