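import Pool.Agent.H6.FU.GRP

/-!
# CORR: Fourier coefficients of `‖S‖²` and two-point correlations

1. (`CORR_main`) `∫₀¹ ‖S H n β‖² e(kβ) dβ = ∑_{h=1}^{H-|k|} λ(n+h)λ(n+h+|k|)` (in particular `H` for `k = 0`).
Proof. `‖S(β)‖² = S(β) conj S(β) = ∑_{h,h'} λ(n+h)λ(n+h') e((h-h')β)`; multiply by `e(kβ)` and integrate: only the pairs with
`h - h' + k = 0` survive. For `k ≥ 0` these are `(h, h+k)`, `1 ≤ h ≤ H-k`; for `k < 0` they are `(h'+|k|, h')`.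

2. (`CORR_avg`) If `TwoPoint` holds, then for every `k ≥ 1`, `ε > 0` and `H` large, `H ≤ ω`, `Hω ≤ X`:
`|∑_{n ∈ [X/ω,X]} (1/n) ∑_{h=1}^{H-k} λ(n+h)λ(n+h+k)| ≤ ε H log ω`.
Proof. Exchange the sums. For each `h ≤ H ≤ X/ω` apply `GRP_corr` to `f(n) = λ(n)λ(n+k)`, `t = h`: the inner sum differs from
`∑ f(n)/n` by at most `4`, and `|∑ f(n)/n| ≤ (ε/2) log ω` by `TwoPoint` (`ω ≥ H` large, `ω ≤ Hω ≤ X`). Total:
`H((ε/2) log ω + 4) ≤ ε H log ω` as soon as `log H₀ ≥ 8/ε`.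
-/

namespace Pool.Agent.H6.FU

open Finset

private theorem CORR_orth (m : ℤ) :
    (∫ β in (0 : ℝ)..1, Complex.exp (2 * (Real.pi : ℂ) * Complex.I * (m : ℂ) * (β : ℂ)))
      = if m = 0 then 1 else 0 := by
  by_cases hm : m = 0
  · rw [if_pos hm, hm]
    simp
  · rw [if_neg hm]
    have hc : 2 * (Real.pi : ℂ) * Complex.I * (m : ℂ) ≠ 0 :=
      mul_ne_zero Complex.two_pi_I_ne_zero (Int.cast_ne_zero.2 hm)
    rw [integral_exp_mul_complex hc]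
    have h1 : Complex.exp (2 * (Real.pi : ℂ) * Complex.I * (m : ℂ) * ((1 : ℝ) : ℂ)) = 1 := by
      rw [Complex.exp_eq_one_iff]
      exact ⟨m, by push_cast; ring⟩
    rw [h1]
    simp

private theorem CORR_sq (H n : ℕ) (k : ℤ) (β : ℝ) :
    ((‖S H n β‖ ^ 2 : ℝ) : ℂ) * Complex.exp (2 * (Real.pi : ℂ) * Complex.I * (k : ℂ) * (β : ℂ)) =
      ∑ h ∈ Icc 1 H, ∑ h' ∈ Icc 1 H, ((-1 : ℂ) ^ (ArithmeticFunction.cardFactors (n + h)) *
        (-1 : ℂ) ^ (ArithmeticFunction.cardFactors (n + h'))) *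
        Complex.exp (2 * (Real.pi : ℂ) * Complex.I * (((h : ℤ) - (h' : ℤ) + k : ℤ) : ℂ) * (β : ℂ)) := by
  have h1 : ((‖S H n β‖ ^ 2 : ℝ) : ℂ) = S H n β * (starRingEnd ℂ) (S H n β) := by
    rw [Complex.mul_conj']
    push_cast
    rfl
  have h2 : (starRingEnd ℂ) (S H n β) = ∑ h' ∈ Icc 1 H,
      ((-1 : ℂ) ^ (ArithmeticFunction.cardFactors (n + h'))) *
        Complex.exp (-(2 * (Real.pi : ℂ) * Complex.I * (h' : ℂ) * (β : ℂ))) := by
    unfold S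
    rw [map_sum]
    refine sum_congr rfl fun h _ => ?_
    rw [map_mul, map_pow, map_neg, map_one, ← Complex.exp_conj]
    congr 2
    simp only [map_mul, Complex.conj_I, Complex.conj_ofReal, map_natCast]
    have : (starRingEnd ℂ) 2 = 2 := Complex.conj_ofNat 2
    rw [this]
    ring
  rw [h1, h2]
  unfold S
  rw [sum_mul_sum, sum_mul]
  refine sum_congr rfl fun h _ => ?_
  rw [sum_mul]
  refine sum_congr rfl fun h' _ => ?_
  have h3 : Complex.exp (2 * (Real.pi : ℂ) * Complex.I * (((h : ℤ) - (h' : ℤ) + k : ℤ) : ℂ) * (β : ℂ)) =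
      Complex.exp (2 * (Real.pi : ℂ) * Complex.I * (h : ℂ) * (β : ℂ)) *
      Complex.exp (-(2 * (Real.pi : ℂ) * Complex.I * (h' : ℂ) * (β : ℂ))) *
      Complex.exp (2 * (Real.pi : ℂ) * Complex.I * (k : ℂ) * (β : ℂ)) := by
    rw [← Complex.exp_add, ← Complex.exp_add]
    congr 1
    push_cast
    ring
  rw [h3]
  ring

private theorem CORR_count (H K : ℕ) (l : ℕ → ℂ) :
    ∑ h ∈ Icc 1 H, ∑ h' ∈ Icc 1 H, (l h * l h') * (if h' = h + K then (1 : ℂ) else 0) =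
      ∑ h ∈ Icc 1 (H - K), l h * l (h + K) := by
  have h1 : ∀ h ∈ Icc 1 H, ∑ h' ∈ Icc 1 H, (l h * l h') * (if h' = h + K then (1 : ℂ) else 0) =
      if h + K ∈ Icc 1 H then l h * l (h + K) else 0 := by
    intro h _
    simp only [mul_ite, mul_one, mul_zero]
    rw [sum_ite_eq']
  rw [sum_congr rfl h1, ← sum_filter]
  refine sum_congr ?_ fun _ _ => rfl
  ext h
  simp only [mem_filter, mem_Icc]
  omega

theorem CORR_main (H n : ℕ) (k : ℤ) :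
    (∫ β in (0 : ℝ)..1, ((‖S H n β‖ ^ 2 : ℝ) : ℂ) *
      Complex.exp (2 * (Real.pi : ℂ) * Complex.I * (k : ℂ) * (β : ℂ)))
      = ((∑ h ∈ Icc 1 (H - k.natAbs), (-1 : ℝ) ^ (ArithmeticFunction.cardFactors (n + h)) *
          (-1 : ℝ) ^ (ArithmeticFunction.cardFactors (n + h + k.natAbs)) : ℝ) : ℂ) := by
  set l : ℕ → ℂ := fun h => (-1 : ℂ) ^ (ArithmeticFunction.cardFactors (n + h)) with hl
  simp only [CORR_sq]
  have hcont : ∀ m : ℤ, ∀ c : ℂ, Continuous fun β : ℝ =>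
      c * Complex.exp (2 * (Real.pi : ℂ) * Complex.I * (m : ℂ) * (β : ℂ)) := by
    intro m c
    fun_prop
  rw [intervalIntegral.integral_finsetSum (fun h _ =>
    (continuous_finsetSum _ fun h' _ => hcont _ _).intervalIntegrable _ _)]
  have h1 : ∀ h ∈ Icc 1 H, ∫ β in (0 : ℝ)..1, ∑ h' ∈ Icc 1 H,
      ((-1 : ℂ) ^ (ArithmeticFunction.cardFactors (n + h)) *
        (-1 : ℂ) ^ (ArithmeticFunction.cardFactors (n + h'))) *
        Complex.exp (2 * (Real.pi : ℂ) * Complex.I * (((h : ℤ) - (h' : ℤ) + k : ℤ) : ℂ) * (β : ℂ)) =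
      ∑ h' ∈ Icc 1 H, (l h * l h') * (if (h : ℤ) - (h' : ℤ) + k = 0 then (1 : ℂ) else 0) := by
    intro h _
    rw [intervalIntegral.integral_finsetSum (fun h' _ => (hcont _ _).intervalIntegrable _ _)]
    refine sum_congr rfl fun h' _ => ?_
    rw [intervalIntegral.integral_const_mul, CORR_orth]
  rw [sum_congr rfl h1]
  have h2 : ((∑ h ∈ Icc 1 (H - k.natAbs), (-1 : ℝ) ^ (ArithmeticFunction.cardFactors (n + h)) *
          (-1 : ℝ) ^ (ArithmeticFunction.cardFactors (n + h + k.natAbs)) : ℝ) : ℂ) =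
      ∑ h ∈ Icc 1 (H - k.natAbs), l h * l (h + k.natAbs) := by
    push_cast
    refine sum_congr rfl fun h _ => ?_
    rw [hl]
    simp only [add_assoc]
  rw [h2, ← CORR_count]
  rcases le_or_gt 0 k with hk | hk
  · refine sum_congr rfl fun h _ => sum_congr rfl fun h' _ => ?_
    congr 1
    have : ((h : ℤ) - (h' : ℤ) + k = 0) ↔ h' = h + k.natAbs := by omega
    simp only [this]
  · rw [sum_comm]
    refine sum_congr rfl fun h _ => sum_congr rfl fun h' _ => ?_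
    have : ((h' : ℤ) - (h : ℤ) + k = 0) ↔ h' = h + k.natAbs := by omega
    simp only [this]
    ring

theorem CORR_avg (hT : TwoPoint) (k : ℕ) (hk : 1 ≤ k) (ε : ℝ) (hε : 0 < ε) :
    ∃ H₀ : ℕ, ∀ H : ℕ, H₀ ≤ H → ∀ ω X : ℝ, (H : ℝ) ≤ ω → (H : ℝ) * ω ≤ X →
      |∑ n ∈ Icc ⌈X / ω⌉₊ ⌊X⌋₊, (∑ h ∈ Icc 1 (H - k), (-1 : ℝ) ^ (ArithmeticFunction.cardFactors (n + h)) *
          (-1 : ℝ) ^ (ArithmeticFunction.cardFactors (n + h + k))) / (n : ℝ)|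
        ≤ ε * (H : ℝ) * Real.log ω := by
  obtain ⟨ω₀, hω₀⟩ := hT k hk (ε / 2) (by positivity)
  refine ⟨max ⌈ω₀⌉₊ ⌈Real.exp (8 / ε)⌉₊ + 1, fun H hH ω X h1 h2 => ?_⟩
  have hH1 : (1 : ℝ) ≤ H := by exact_mod_cast (by omega : 1 ≤ H)
  have hHω : ω₀ ≤ H := by
    refine (Nat.le_ceil ω₀).trans ?_
    exact_mod_cast (by omega : ⌈ω₀⌉₊ ≤ H)
  have hHe : Real.exp (8 / ε) ≤ H := by
    refine (Nat.le_ceil _).trans ?_
    exact_mod_cast (by omega : ⌈Real.exp (8 / ε)⌉₊ ≤ H)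
  have hω1 : 1 ≤ ω := hH1.trans h1
  have hω0 : 0 < ω := by linarith
  have hωX : ω ≤ X := le_trans (by nlinarith) h2
  have hXω : (H : ℝ) ≤ X / ω := by
    rw [le_div_iff₀ hω0]
    exact h2
  have hlog : 8 / ε ≤ Real.log ω := by
    rw [← Real.log_exp (8 / ε)]
    exact Real.log_le_log (Real.exp_pos _) (hHe.trans h1)
  have hlog4 : 4 ≤ ε / 2 * Real.log ω := by
    have := mul_le_mul_of_nonneg_left hlog (by positivity : 0 ≤ ε / 2)
    have h3 : ε / 2 * (8 / ε) = 4 := by field_simp; ring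
    linarith
  set f : ℕ → ℝ := fun n => (-1 : ℝ) ^ (ArithmeticFunction.cardFactors n) *
    (-1 : ℝ) ^ (ArithmeticFunction.cardFactors (n + k)) with hf
  have hf1 : ∀ n, |f n| ≤ 1 := by
    intro n
    rw [hf]
    simp only
    rw [abs_mul, abs_pow, abs_pow, abs_neg, abs_one, one_pow, one_pow, one_mul]
  have hT1 := hω₀ ω X (hHω.trans h1) hωX
  have hsum : ∑ n ∈ Icc ⌈X / ω⌉₊ ⌊X⌋₊, (∑ h ∈ Icc 1 (H - k),
      (-1 : ℝ) ^ (ArithmeticFunction.cardFactors (n + h)) *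
          (-1 : ℝ) ^ (ArithmeticFunction.cardFactors (n + h + k))) / (n : ℝ) =
      ∑ h ∈ Icc 1 (H - k), ∑ n ∈ Icc ⌈X / ω⌉₊ ⌊X⌋₊, f (n + h) / (n : ℝ) := by
    rw [sum_comm]
    refine sum_congr rfl fun n _ => ?_
    rw [sum_div]
  rw [hsum]
  have hterm : ∀ h ∈ Icc 1 (H - k), |∑ n ∈ Icc ⌈X / ω⌉₊ ⌊X⌋₊, f (n + h) / (n : ℝ)| ≤
      ε * Real.log ω := by
    intro h hh
    have hhH : (h : ℝ) ≤ H := by
      have := (mem_Icc.1 hh).2
      exact_mod_cast (by omega : h ≤ H)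
    have h3 := GRP_corr f hf1 h ω X hω1 (hH1.trans hXω) (hhH.trans hXω)
    have h4 : |∑ n ∈ Icc ⌈X / ω⌉₊ ⌊X⌋₊, f n / (n : ℝ)| ≤ ε / 2 * Real.log ω := hT1
    have h5 := abs_add_le ((∑ n ∈ Icc ⌈X / ω⌉₊ ⌊X⌋₊, f (n + h) / (n : ℝ)) -
      ∑ n ∈ Icc ⌈X / ω⌉₊ ⌊X⌋₊, f n / (n : ℝ)) (∑ n ∈ Icc ⌈X / ω⌉₊ ⌊X⌋₊, f n / (n : ℝ))
    rw [sub_add_cancel] at h5
    linarith
  refine (abs_sum_le_sum_abs _ _).trans ((sum_le_sum hterm).trans ?_)
  rw [sum_const, Nat.card_Icc, nsmul_eq_mul]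
  have h6 : ((H - k + 1 - 1 : ℕ) : ℝ) ≤ H := by exact_mod_cast (by omega : H - k + 1 - 1 ≤ H)
  have h7 : 0 ≤ ε * Real.log ω := by
    have := Real.log_nonneg hω1
    positivity
  calc ((H - k + 1 - 1 : ℕ) : ℝ) * (ε * Real.log ω) ≤ H * (ε * Real.log ω) :=
        mul_le_mul_of_nonneg_right h6 h7
    _ = _ := by ring

end Pool.Agent.H6.FU
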