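import Pool.Agent.H6.FU.AVG

/-!
# DAV: Davenport's bound from `Natural`

Statement: if `Natural` then `sup_α |∑_{m ≤ N} λ(m) e(mα)| = o(N)`; note `S N 0 α = ∑_{m=1}^N λ(m)e(mα)`.

Proof. Let `ε > 0`, `ε₁ = ε/2`, and let `b ≥ 1` be the threshold of `Natural` for `ε₁` (take `b = max H₀ 1`); use it with `H = b`.
Step 1: for integers `M ≥ b`: `‖S M M α‖ ≤ ε₁M + b + 1`. By `AVG_main` `b‖S M M α‖ ≤ ∑_{t<M}‖S b (M+t) α‖ + b²`; the term `t = 0` is `≤ b`, the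
others are among the `n ∈ (M, 2M]`, and `‖S b n α‖ ≤ ⨆`, so the sum is `≤ b + ε₁ b M` by `Natural` with `X = M`. Divide by `b`.
Step 2: `S (2M) 0 α = S M 0 α + e(Mα) S M M α`, and one more term if `N = 2M+1`. So with `D(N) = sup_α ‖S N 0 α‖` (or for a
fixed `α`) and `M = ⌊N/2⌋ ≥ b`: `‖S N 0 α‖ ≤ ‖S M 0 α‖ + ε₁M + b + 2`.
Step 3: strong induction: `‖S N 0 α‖ ≤ ε₁N + (b+2)(Nat.log 2 N + 1) + 2b` for all `N` (for `N < 2b` trivial, `‖S N 0 α‖ ≤ N`).
Step 4: `(b+2)(log₂ N + 1) + 2b ≤ ε₁N` for `N ≥ N₀`.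
-/

namespace Pool.Agent.H6.FU

open Finset

theorem DAV_split (M K : ℕ) (α : ℝ) :
    S (M + K) 0 α = S M 0 α +
      Complex.exp (2 * (Real.pi : ℂ) * Complex.I * (M : ℂ) * (α : ℂ)) * S K M α := by
  unfold S
  have h1 : Icc 1 (M + K) = Ico 1 (M + 1 + K) := by
    ext n
    simp only [mem_Icc, mem_Ico]
    omega
  have h2 : Icc 1 M = Ico 1 (M + 1) := by
    ext n
    simp only [mem_Icc, mem_Ico]
    omega
  have h3 : Icc 1 K = Ico 1 (1 + K) := by
    ext n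
    simp only [mem_Icc, mem_Ico]
    omega
  rw [h1, h2, h3, ← sum_Ico_consecutive _ (by omega : 1 ≤ M + 1) (by omega : M + 1 ≤ M + 1 + K)]
  congr 1
  have h4 := sum_Ico_add' (fun h : ℕ => ((-1 : ℂ) ^ (ArithmeticFunction.cardFactors (0 + h))) *
      Complex.exp (2 * (Real.pi : ℂ) * Complex.I * (h : ℂ) * (α : ℂ))) 1 (1 + K) M
  have h5 : 1 + M = M + 1 := by omega
  have h6 : 1 + K + M = M + 1 + K := by omega
  rw [h5, h6] at h4
  rw [← h4, mul_sum]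
  refine sum_congr rfl fun h _ => ?_
  have h7 : 0 + (h + M) = M + h := by omega
  rw [h7, mul_left_comm]
  congr 1
  rw [← Complex.exp_add]
  congr 1
  push_cast
  ring

theorem DAV_split_norm (M K : ℕ) (α : ℝ) : ‖S (M + K) 0 α‖ ≤ ‖S M 0 α‖ + ‖S K M α‖ := by
  rw [DAV_split]
  refine (norm_add_le _ _).trans ?_
  rw [norm_mul]
  have h : ‖Complex.exp (2 * (Real.pi : ℂ) * Complex.I * (M : ℂ) * (α : ℂ))‖ = 1 := by
    rw [Complex.norm_exp]
    simp
  rw [h, one_mul]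

theorem DAV_step1 (ε : ℝ) (b : ℕ) (hb : 1 ≤ b)
    (h : ∀ X : ℝ, (b : ℝ) ≤ X →
      (∑ n ∈ Finset.Ioc ⌊X⌋₊ ⌊2 * X⌋₊, (⨆ α : ℝ, ‖S b n α‖)) ≤ ε * (b : ℝ) * X)
    (M : ℕ) (hM : b ≤ M) (α : ℝ) : ‖S M M α‖ ≤ ε * M + b + 1 := by
  have hb' : (0 : ℝ) < b := by exact_mod_cast hb
  have h1 := AVG_main b M M α
  have h2 := h (M : ℝ) (by exact_mod_cast hM)
  have h3 : ⌊(2 : ℝ) * (M : ℝ)⌋₊ = 2 * M := by
    have : (2 : ℝ) * (M : ℝ) = ((2 * M : ℕ) : ℝ) := by push_cast; ring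
    rw [this, Nat.floor_natCast]
  rw [Nat.floor_natCast, h3] at h2
  have h4 : ∑ t ∈ range M, ‖S b (M + t) α‖ ≤ (b : ℝ) + ε * (b : ℝ) * M := by
    calc ∑ t ∈ range M, ‖S b (M + t) α‖ = ∑ n ∈ Ico M (2 * M), ‖S b n α‖ := by
          rw [sum_Ico_eq_sum_range]
          have : 2 * M - M = M := by omega
          rw [this]
      _ ≤ ∑ n ∈ insert M (Ioc M (2 * M)), ‖S b n α‖ := by
          refine sum_le_sum_of_subset_of_nonneg ?_ fun _ _ _ => norm_nonneg _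
          intro n hn
          rw [mem_insert, mem_Ioc]
          rw [mem_Ico] at hn
          omega
      _ = ‖S b M α‖ + ∑ n ∈ Ioc M (2 * M), ‖S b n α‖ := by
          rw [sum_insert (by simp)]
      _ ≤ (b : ℝ) + ∑ n ∈ Ioc M (2 * M), (⨆ α : ℝ, ‖S b n α‖) := by
          refine add_le_add (norm_S_le _ _ _) (sum_le_sum fun n _ => ?_)
          exact le_ciSup (bddAbove_S b n) α
      _ ≤ _ := by linarith
  have h5 : (b : ℝ) * ‖S M M α‖ ≤ (b : ℝ) * (ε * M + b + 1) := by nlinarith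
  exact le_of_mul_le_mul_left h5 hb'

theorem DAV_step3 (ε : ℝ) (hε : 0 ≤ ε) (b : ℕ) (hb : 1 ≤ b)
    (h : ∀ M : ℕ, b ≤ M → ∀ α : ℝ, ‖S M M α‖ ≤ ε * M + b + 1) (α : ℝ) (N : ℕ) :
    ‖S N 0 α‖ ≤ ε * N + ((b : ℝ) + 2) * ((Nat.log 2 N : ℝ) + 1) + 2 * b := by
  induction N using Nat.strong_induction_on with
  | _ N ih =>
    rcases lt_or_ge N (2 * b) with hN | hN
    · have h1 := norm_S_le N 0 α
      have h2 : (N : ℝ) ≤ 2 * b := by exact_mod_cast hN.le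
      have h3 : 0 ≤ ε * (N : ℝ) := by positivity
      have h4 : 0 ≤ ((b : ℝ) + 2) * ((Nat.log 2 N : ℝ) + 1) := by positivity
      linarith
    · have hM : b ≤ N / 2 := by omega
      have hlt : N / 2 < N := by omega
      have h1 := ih (N / 2) hlt
      have h2 := h (N / 2) hM α
      have hlog : Nat.log 2 N = Nat.log 2 (N / 2) + 1 :=
        Nat.log_of_one_lt_of_le (by norm_num) (by omega)
      have h3 : ‖S N 0 α‖ ≤ ‖S (N / 2) 0 α‖ + ‖S (N / 2) (N / 2) α‖ + 1 := by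
        have h4 := DAV_split_norm (N / 2) (N / 2) α
        rcases Nat.even_or_odd' N with ⟨k, hk | hk⟩
        · have h5 : N / 2 + N / 2 = N := by omega
          rw [h5] at h4
          linarith
        · have h5 : N / 2 + N / 2 + 1 = N := by omega
          have h6 := DAV_split_norm (N / 2 + N / 2) 1 α
          rw [h5] at h6
          have h7 := norm_S_le 1 (N / 2 + N / 2) α
          simp only [Nat.cast_one] at h7
          linarith
      have h8 : ((N / 2 : ℕ) : ℝ) * 2 ≤ N := by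
        have : N / 2 * 2 ≤ N := by omega
        exact_mod_cast this
      have h9 : ε * (((N / 2 : ℕ) : ℝ) * 2) ≤ ε * N := mul_le_mul_of_nonneg_left h8 hε
      rw [hlog]
      push_cast
      push_cast at h1 h2
      nlinarith

theorem DAV_step4 (ε c d : ℝ) (hε : 0 < ε) (hc : 0 ≤ c) :
    ∃ N₀ : ℕ, ∀ N : ℕ, N₀ ≤ N → c * ((Nat.log 2 N : ℝ) + 1) + d ≤ ε * N := by
  have hl2 : 0 < Real.log 2 := Real.log_pos (by norm_num)
  have h1 := Real.isLittleO_log_id_atTop.def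
    (show 0 < ε * Real.log 2 / (2 * (c + 1)) by positivity)
  have h2 := (tendsto_natCast_atTop_atTop (R := ℝ)).eventually h1
  have h3 := (tendsto_natCast_atTop_atTop (R := ℝ)).eventually
    (Filter.eventually_ge_atTop (2 * (c + |d|) / ε))
  obtain ⟨N₀, hN₀⟩ := Filter.eventually_atTop.1 ((h2.and h3).and (Filter.eventually_ge_atTop 1))
  refine ⟨N₀, fun N hN => ?_⟩
  obtain ⟨⟨h4, h5⟩, h6⟩ := hN₀ N hN
  have hN1 : (1 : ℝ) ≤ N := by exact_mod_cast h6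
  have hlogn : 0 ≤ Real.log N := Real.log_nonneg hN1
  simp only [id, Real.norm_eq_abs, abs_of_nonneg hlogn,
    abs_of_nonneg (by linarith : (0 : ℝ) ≤ N)] at h4
  have h7 : (Nat.log 2 N : ℝ) ≤ Real.log N / Real.log 2 := by
    have := Real.natLog_le_logb N 2
    simpa [Real.logb] using this
  have h8 : Real.log N / Real.log 2 ≤ ε / (2 * (c + 1)) * N := by
    rw [div_le_iff₀ hl2]
    calc Real.log N ≤ ε * Real.log 2 / (2 * (c + 1)) * N := h4
      _ = _ := by ring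
  have h9 : c * (Nat.log 2 N : ℝ) ≤ ε / 2 * N := by
    calc c * (Nat.log 2 N : ℝ) ≤ c * (ε / (2 * (c + 1)) * N) :=
          mul_le_mul_of_nonneg_left (h7.trans h8) hc
      _ = c / (c + 1) * (ε / 2 * N) := by
          field_simp
      _ ≤ 1 * (ε / 2 * N) := by
          refine mul_le_mul_of_nonneg_right ?_ (by positivity)
          rw [div_le_one (by linarith)]
          linarith
      _ = _ := one_mul _
  have h10 : c + d ≤ ε / 2 * N := by
    rw [div_le_iff₀ hε] at h5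
    have := le_abs_self d
    linarith
  linarith

theorem DAV_main (h : Natural) (ε : ℝ) (hε : 0 < ε) :
    ∃ N₀ : ℕ, ∀ N : ℕ, N₀ ≤ N → ∀ α : ℝ, ‖S N 0 α‖ ≤ ε * N := by
  obtain ⟨H₀, hH₀⟩ := h (ε / 2) (by linarith)
  set b : ℕ := max H₀ 1 with hb
  have hb1 : 1 ≤ b := le_max_right _ _
  have h1 := DAV_step1 (ε / 2) b hb1 (hH₀ b (le_max_left _ _) hb1)
  obtain ⟨N₀, hN₀⟩ := DAV_step4 (ε / 2) ((b : ℝ) + 2) (2 * b) (by linarith) (by positivity)
  refine ⟨N₀, fun N hN α => ?_⟩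
  have h2 := DAV_step3 (ε / 2) (by linarith) b hb1 h1 α N
  have h3 := hN₀ N hN
  linarith

end Pool.Agent.H6.FU
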