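import Pool.Agent.H6.FU.Defs

/-!
# DIL: restriction to the multiples of a prime

Statement: `‖∑_{h ≤ H, p ∣ n+h} λ(n+h) e(hα)‖ ≤ ‖S ⌊H/p⌋ ⌊n/p⌋ (pα)‖ + 1`.

Proof. The `h ∈ [1,H]` with `p ∣ n+h` correspond to `m` with `n < p m ≤ n + H`, i.e. `⌊n/p⌋ < m ≤ ⌊(n+H)/p⌋`
(`h = p m - n`). Write `m = ⌊n/p⌋ + k`, `1 ≤ k ≤ k₁ := ⌊(n+H)/p⌋ - ⌊n/p⌋`, and `⌊H/p⌋ ≤ k₁ ≤ ⌊H/p⌋ + 1`
(`Nat.add_div`). Also `λ(p m) = -λ(m)` for `m ≥ 1` (`cardFactors_mul`, `cardFactors_apply_prime`) and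
`e((pm - n)α) = e((p⌊n/p⌋ - n)α) e(k pα)`. So the sum is `-e((p⌊n/p⌋-n)α) ∑_{k=1}^{k₁} λ(⌊n/p⌋+k) e(k·pα)`, whose norm is
at most `‖S ⌊H/p⌋ ⌊n/p⌋ (pα)‖` plus one possible extra term of norm `1`.
-/

namespace Pool.Agent.H6.FU

open Finset

theorem DIL_succ (H n : ℕ) (α : ℝ) : ‖S (H + 1) n α‖ ≤ ‖S H n α‖ + 1 := by
  unfold S
  rw [sum_Icc_succ_top (by omega)]
  refine (norm_add_le _ _).trans ?_
  rw [norm_term H n (H + 1)]

theorem DIL_term (n p k : ℕ) (hp : p.Prime) (hk : 1 ≤ k) (α : ℝ) :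
    ((-1 : ℂ) ^ (ArithmeticFunction.cardFactors (n + (p * (n / p + k) - n)))) *
      Complex.exp (2 * (Real.pi : ℂ) * Complex.I * ((p * (n / p + k) - n : ℕ) : ℂ) * (α : ℂ))
    = (-Complex.exp (2 * (Real.pi : ℂ) * Complex.I * ((p : ℂ) * ((n / p : ℕ) : ℂ) - (n : ℂ))
        * (α : ℂ))) * (((-1 : ℂ) ^ (ArithmeticFunction.cardFactors (n / p + k))) *
      Complex.exp (2 * (Real.pi : ℂ) * Complex.I * (k : ℂ) * (((p : ℝ) * α : ℝ) : ℂ))) := by
  have h1 : n < p * (n / p + 1) := by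
    rw [mul_comm]
    exact Nat.lt_mul_of_div_lt (Nat.lt_succ_self _) hp.pos
  have h2 : p * (n / p + 1) ≤ p * (n / p + k) := Nat.mul_le_mul_left p (by omega)
  have h3 : n + (p * (n / p + k) - n) = p * (n / p + k) := by omega
  rw [h3, ArithmeticFunction.cardFactors_mul hp.ne_zero (Nat.add_pos_right _ hk).ne',
    ArithmeticFunction.cardFactors_apply_prime hp, pow_add, pow_one]
  have h4 : ((p * (n / p + k) - n : ℕ) : ℂ) = (p : ℂ) * (((n / p : ℕ) : ℂ) + (k : ℂ)) - (n : ℂ) := by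
    rw [Nat.cast_sub (by omega)]
    push_cast
    ring
  rw [h4]
  have h5 : 2 * (Real.pi : ℂ) * Complex.I * ((p : ℂ) * (((n / p : ℕ) : ℂ) + (k : ℂ)) - (n : ℂ))
      * (α : ℂ) = 2 * (Real.pi : ℂ) * Complex.I * ((p : ℂ) * ((n / p : ℕ) : ℂ) - (n : ℂ))
        * (α : ℂ) + 2 * (Real.pi : ℂ) * Complex.I * (k : ℂ) * (((p : ℝ) * α : ℝ) : ℂ) := by
    push_cast
    ring
  rw [h5, Complex.exp_add]
  ring

theorem DIL_main (H n p : ℕ) (hp : p.Prime) (α : ℝ) :
    ‖∑ h ∈ (Icc 1 H).filter (fun h => p ∣ n + h),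
      ((-1 : ℂ) ^ (ArithmeticFunction.cardFactors (n + h))) *
        Complex.exp (2 * (Real.pi : ℂ) * Complex.I * (h : ℂ) * (α : ℂ))‖
      ≤ ‖S (H / p) (n / p) ((p : ℝ) * α)‖ + 1 := by
  have hp0 := hp.pos
  have hlt : ∀ m : ℕ, m < p * (m / p + 1) := by
    intro m
    rw [mul_comm]
    exact Nat.lt_mul_of_div_lt (Nat.lt_succ_self _) hp0
  have hle : ∀ m : ℕ, p * (m / p) ≤ m := fun m => Nat.mul_div_le m p
  set k₁ := (n + H) / p - n / p with hk₁
  have hnH : n / p ≤ (n + H) / p := Nat.div_le_div_right (by omega)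
  have hsum : ∑ h ∈ (Icc 1 H).filter (fun h => p ∣ n + h),
      ((-1 : ℂ) ^ (ArithmeticFunction.cardFactors (n + h))) *
        Complex.exp (2 * (Real.pi : ℂ) * Complex.I * (h : ℂ) * (α : ℂ))
      = (-Complex.exp (2 * (Real.pi : ℂ) * Complex.I * ((p : ℂ) * ((n / p : ℕ) : ℂ) - (n : ℂ))
        * (α : ℂ))) * S k₁ (n / p) ((p : ℝ) * α) := by
    unfold S
    rw [mul_sum]
    refine sum_nbij' (fun h => (n + h) / p - n / p) (fun k => p * (n / p + k) - n) ?_ ?_ ?_ ?_ ?_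
    · intro h hh
      rw [mem_filter, mem_Icc] at hh
      obtain ⟨⟨h1, h2⟩, m, hm⟩ := hh
      rw [mem_Icc, hm, Nat.mul_div_cancel_left _ hp0]
      have h3 : n / p < m := by
        by_contra hcon
        have := Nat.mul_le_mul_left p (not_lt.1 hcon)
        have := hle n
        omega
      have h4 : m ≤ (n + H) / p := by
        rw [Nat.le_div_iff_mul_le hp0, mul_comm]
        omega
      omega
    · intro k hk
      rw [mem_Icc] at hk
      rw [mem_filter, mem_Icc]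
      have h1 : p * (n / p + 1) ≤ p * (n / p + k) := Nat.mul_le_mul_left p (by omega)
      have h2 : p * (n / p + k) ≤ p * ((n + H) / p) := Nat.mul_le_mul_left p (by omega)
      have h3 := hle (n + H)
      have h4 := hlt n
      refine ⟨⟨by omega, by omega⟩, n / p + k, by omega⟩
    · intro h hh
      rw [mem_filter, mem_Icc] at hh
      obtain ⟨⟨h1, h2⟩, m, hm⟩ := hh
      rw [hm, Nat.mul_div_cancel_left _ hp0]
      have h3 : n / p ≤ m := by
        have h5 : n / p ≤ (n + h) / p := Nat.div_le_div_right (by omega)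
        rwa [hm, Nat.mul_div_cancel_left _ hp0] at h5
      have h4 : n / p + (m - n / p) = m := by omega
      rw [h4]
      omega
    · intro k hk
      rw [mem_Icc] at hk
      have h1 : p * (n / p + 1) ≤ p * (n / p + k) := Nat.mul_le_mul_left p (by omega)
      have h4 := hlt n
      have h5 : n + (p * (n / p + k) - n) = p * (n / p + k) := by omega
      rw [h5, Nat.mul_div_cancel_left _ hp0]
      omega
    · intro h hh
      rw [mem_filter, mem_Icc] at hh
      obtain ⟨⟨h1, h2⟩, m, hm⟩ := hh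
      have h3 : n / p < m := by
        by_contra hcon
        have := Nat.mul_le_mul_left p (not_lt.1 hcon)
        have := hle n
        omega
      have key := DIL_term n p (m - n / p) hp (by omega) α
      have h4 : n / p + (m - n / p) = m := by omega
      have h5 : p * m - n = h := by omega
      rw [h4, h5] at key
      simp only [hm, Nat.mul_div_cancel_left _ hp0]
      rw [hm] at key
      rw [h4]
      exact key
  rw [hsum, norm_mul, norm_neg]
  have hc : ‖Complex.exp (2 * (Real.pi : ℂ) * Complex.I * ((p : ℂ) * ((n / p : ℕ) : ℂ) - (n : ℂ))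
        * (α : ℂ))‖ = 1 := by
    have : 2 * (Real.pi : ℂ) * Complex.I * ((p : ℂ) * ((n / p : ℕ) : ℂ) - (n : ℂ)) * (α : ℂ)
        = ((2 * Real.pi * ((p : ℝ) * ((n / p : ℕ) : ℝ) - (n : ℝ)) * α : ℝ) : ℂ) * Complex.I := by
      push_cast
      ring
    rw [this, Complex.norm_exp_ofReal_mul_I]
  rw [hc, one_mul]
  have hk1 : H / p ≤ k₁ := by
    have : n / p + H / p ≤ (n + H) / p := Nat.div_add_div_le_add_div
    omega
  have hk2 : k₁ ≤ H / p + 1 := by
    have h1 : (n + H) / p < n / p + H / p + 2 := by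
      rw [Nat.div_lt_iff_lt_mul hp0]
      have h2 := hlt n
      have h3 := hlt H
      have h4 : (n / p + H / p + 2) * p = p * (n / p + 1) + p * (H / p + 1) := by ring
      omega
    omega
  rcases Nat.lt_or_ge (H / p) k₁ with h | h
  · have : k₁ = H / p + 1 := by omega
    rw [this]
    exact DIL_succ _ _ _
  · have : k₁ = H / p := by omega
    rw [this]
    linarith

end Pool.Agent.H6.FU
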