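import Pool.Agent.H6.FU.VDC

/-!
# DK: bad frequencies in `{Ψ ≥ 1}` and the mean square against `2Ψ + κ`

Proof. `Ψ` is continuous and periodic, hence uniformly continuous: there is `δ ∈ (0,1/2]` with `|Ψ x - Ψ y| ≤ 1/2` for
`|x - y| ≤ δ` (`CompactSpace`/`IsCompact.uniformContinuousOn_of_continuous` on `[-1,2]` plus periodicity, or Heine-Cantor on
`AddCircle 1`). Choose `J ≥ 1` with `1/(2Jδ)² ≤ κ`. Fix `α` with `Ψ α ≥ 1` and any `β`: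
* if `|β - α - k| < δ` for some integer `k`, then `Ψ β = Ψ (β - k) ≥ Ψ α - 1/2 ≥ 1/2`, so `‖D J (β-α)‖²/J² ≤ 1 ≤ 2Ψ β + κ`
  (`VDC_D1`);
* otherwise `‖D J (β-α)‖²/J² ≤ 1/(2δJ)² ≤ κ ≤ 2Ψ β + κ` (`VDC_D2`, `Ψ ≥ 0`).
Insert this into `VDC_main` and divide by `J²` (monotonicity of the integral; everything is continuous in `β`).
-/

namespace Pool.Agent.H6.FU

open Finset

/-- `S H n` is continuous in the frequency. -/
theorem DK_continuous (H n : ℕ) : Continuous (S H n) := by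
  unfold S
  fun_prop

theorem DK_continuousD (J : ℕ) : Continuous (D J) := by
  unfold D
  fun_prop

theorem DK_unif (Ψ : ℝ → ℝ) (hc : Continuous Ψ) (hper : Function.Periodic Ψ 1) :
    ∃ δ : ℝ, 0 < δ ∧ ∀ x y : ℝ, |x - y| < δ → |Ψ x - Ψ y| < 1 / 2 := by
  have h1 := isCompact_Icc.uniformContinuousOn_of_continuous
    (hc.continuousOn (s := Set.Icc (-1 : ℝ) 2))
  rw [Metric.uniformContinuousOn_iff] at h1
  obtain ⟨δ, hδ, h2⟩ := h1 (1 / 2) (by norm_num)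
  refine ⟨min δ 1, lt_min hδ one_pos, fun x y hxy => ?_⟩
  have ha := Int.floor_le x
  have hb := Int.lt_floor_add_one x
  have hxy1 : |x - y| < 1 := hxy.trans_le (min_le_right _ _)
  have hxy2 : |x - y| < δ := hxy.trans_le (min_le_left _ _)
  have e1 : Ψ (x - (⌊x⌋ : ℝ)) = Ψ x := by
    have := hper.sub_int_mul_eq ⌊x⌋ (x := x)
    rwa [mul_one] at this
  have e2 : Ψ (y - (⌊x⌋ : ℝ)) = Ψ y := by
    have := hper.sub_int_mul_eq ⌊x⌋ (x := y)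
    rwa [mul_one] at this
  have h3 := abs_lt.mp hxy1
  have h4 := h2 (x - (⌊x⌋ : ℝ)) ⟨by linarith, by linarith⟩ (y - (⌊x⌋ : ℝ))
    ⟨by linarith [h3.2], by linarith [h3.1]⟩ (by
      rw [Real.dist_eq]
      have : x - (⌊x⌋ : ℝ) - (y - (⌊x⌋ : ℝ)) = x - y := by ring
      rwa [this])
  rwa [Real.dist_eq, e1, e2] at h4

theorem DK_main (Ψ : ℝ → ℝ) (hc : Continuous Ψ) (hper : Function.Periodic Ψ 1) (h0 : ∀ x, 0 ≤ Ψ x)
    (κ : ℝ) (hκ : 0 < κ) :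
    ∃ J : ℕ, 1 ≤ J ∧ ∀ (H n : ℕ) (α : ℝ), 1 ≤ Ψ α →
      ‖S H n α‖ ^ 2 ≤ ((H : ℝ) + J) * ∫ β in (0 : ℝ)..1, ‖S H n β‖ ^ 2 * (2 * Ψ β + κ) := by
  obtain ⟨δ, hδ, hunif⟩ := DK_unif Ψ hc hper
  refine ⟨⌈(1 / (2 * δ)) ^ 2 / κ⌉₊ + 1, Nat.le_add_left _ _, ?_⟩
  set J : ℕ := ⌈(1 / (2 * δ)) ^ 2 / κ⌉₊ + 1 with hJ
  have hJ1 : 1 ≤ J := Nat.le_add_left _ _
  have hJr : (1 : ℝ) ≤ (J : ℝ) := by exact_mod_cast hJ1
  have hJκ : (1 / (2 * δ)) ^ 2 ≤ κ * (J : ℝ) ^ 2 := by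
    have h1 : (1 / (2 * δ)) ^ 2 / κ ≤ (J : ℝ) := by
      refine (Nat.le_ceil _).trans ?_
      rw [hJ]
      push_cast
      linarith
    rw [div_le_iff₀ hκ] at h1
    nlinarith
  intro H n α hα
  have key : ∀ β : ℝ, ‖D J (β - α)‖ ^ 2 ≤ (J : ℝ) ^ 2 * (2 * Ψ β + κ) := by
    intro β
    by_cases hk : ∃ k : ℤ, |β - α - k| < δ
    · obtain ⟨k, hk⟩ := hk
      have e1 : Ψ (β - (k : ℝ)) = Ψ β := by
        have := hper.sub_int_mul_eq k (x := β)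
        rwa [mul_one] at this
      have h1 := hunif (β - (k : ℝ)) α (by
        have : β - (k : ℝ) - α = β - α - k := by ring
        rwa [this])
      rw [e1] at h1
      have h2 := (abs_lt.mp h1).1
      have h3 : ‖D J (β - α)‖ ^ 2 ≤ (J : ℝ) ^ 2 :=
        pow_le_pow_left₀ (norm_nonneg _) (VDC_D1 J _) 2
      have h4 : (1 : ℝ) ≤ 2 * Ψ β + κ := by linarith
      nlinarith [sq_nonneg (J : ℝ)]
    · push Not at hk
      have h1 := VDC_D2 J (β - α) δ hδ hk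
      have h2 : ‖D J (β - α)‖ ^ 2 ≤ (1 / (2 * δ)) ^ 2 :=
        pow_le_pow_left₀ (norm_nonneg _) h1 2
      have h3 := h0 β
      nlinarith [mul_nonneg (sq_nonneg (J : ℝ)) h3]
  have h1 := VDC_main H n J hJ1 α
  have hS := DK_continuous H n
  have hD := DK_continuousD J
  have h2 : (∫ β in (0 : ℝ)..1, ‖S H n β‖ ^ 2 * ‖D J (β - α)‖ ^ 2) ≤
      ∫ β in (0 : ℝ)..1, (J : ℝ) ^ 2 * (‖S H n β‖ ^ 2 * (2 * Ψ β + κ)) := by
    apply intervalIntegral.integral_mono_on zero_le_one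
    · apply Continuous.intervalIntegrable
      fun_prop
    · apply Continuous.intervalIntegrable
      fun_prop
    · intro β _
      calc ‖S H n β‖ ^ 2 * ‖D J (β - α)‖ ^ 2
          ≤ ‖S H n β‖ ^ 2 * ((J : ℝ) ^ 2 * (2 * Ψ β + κ)) :=
            mul_le_mul_of_nonneg_left (key β) (by positivity)
        _ = _ := by ring
  rw [intervalIntegral.integral_const_mul] at h2
  have h3 : (J : ℝ) ^ 2 * ‖S H n α‖ ^ 2 ≤ (J : ℝ) ^ 2 *
      (((H : ℝ) + J) * ∫ β in (0 : ℝ)..1, ‖S H n β‖ ^ 2 * (2 * Ψ β + κ)) := by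
    calc (J : ℝ) ^ 2 * ‖S H n α‖ ^ 2 ≤ _ := h1
      _ ≤ ((H : ℝ) + J) * ((J : ℝ) ^ 2 *
          ∫ β in (0 : ℝ)..1, ‖S H n β‖ ^ 2 * (2 * Ψ β + κ)) :=
        mul_le_mul_of_nonneg_left h2 (by positivity)
      _ = _ := by ring
  exact le_of_mul_le_mul_left h3 (by positivity)

end Pool.Agent.H6.FU
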