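import Mathlib

/-!
# Frequencies in local Fourier uniformity of the Liouville function (MP_f12790_nt)

Notation. `S H n α = ∑_{h=1}^{H} λ(n+h) e(hα)`; `mass B ω X` is the logarithmic mass of the integers
`n ∈ [X/ω, X]` with property `B`; `Bad H U ε n`: some frequency `α ∈ U` has `|S H n α| ≥ ε H`.
`DensLE U ε c`: the logarithmic density of the windows with `Bad H U ε` is at most `c`
(in the limit `H → ∞`, uniformly in `H ≤ ω`, `H ω ≤ X`).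
-/

namespace Pool.Agent.H6.FU

open Finset

/-- `S H n α = ∑_{h=1}^{H} λ(n+h) e(hα)`. -/
noncomputable def S (H n : ℕ) (α : ℝ) : ℂ :=
  ∑ h ∈ Finset.Icc 1 H,
    ((-1 : ℂ) ^ (ArithmeticFunction.cardFactors (n + h))) *
      Complex.exp (2 * (Real.pi : ℂ) * Complex.I * (h : ℂ) * (α : ℂ))

/-- Q1 of MP_f12790_nt (the frozen statement S18923, written with `S`). -/
def Q1 : Prop :=
  ∀ ε : ℝ, 0 < ε → ∃ H₀ : ℕ, ∀ H : ℕ, H₀ ≤ H → 1 ≤ H →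
    ∀ ω X : ℝ, (H : ℝ) ≤ ω → ω ≤ X →
      (∑ n ∈ Finset.Icc ⌈X / ω⌉₊ ⌊X⌋₊, (⨆ α : ℝ, ‖S H n α‖) / (n : ℝ)) ≤ ε * (H : ℝ) * Real.log ω

/-- Q1 with the supremum over the frequencies in `U` only. -/
def Q1On (U : Set ℝ) : Prop :=
  ∀ ε : ℝ, 0 < ε → ∃ H₀ : ℕ, ∀ H : ℕ, H₀ ≤ H → 1 ≤ H →
    ∀ ω X : ℝ, (H : ℝ) ≤ ω → ω ≤ X →
      (∑ n ∈ Finset.Icc ⌈X / ω⌉₊ ⌊X⌋₊, (⨆ α : U, ‖S H n α‖) / (n : ℝ)) ≤ ε * (H : ℝ) * Real.log ω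

/-- The statement without logarithmic averaging. -/
def Natural : Prop :=
  ∀ ε : ℝ, 0 < ε → ∃ H₀ : ℕ, ∀ H : ℕ, H₀ ≤ H → 1 ≤ H → ∀ X : ℝ, (H : ℝ) ≤ X →
    (∑ n ∈ Finset.Ioc ⌊X⌋₊ ⌊2 * X⌋₊, (⨆ α : ℝ, ‖S H n α‖)) ≤ ε * (H : ℝ) * X

open Classical in
/-- The logarithmic mass `∑ 1/n` over the integers `n ∈ [X/ω, X]` with property `B`. -/
noncomputable def mass (B : ℕ → Prop) (ω X : ℝ) : ℝ :=
  ∑ n ∈ (Finset.Icc ⌈X / ω⌉₊ ⌊X⌋₊).filter B, 1 / (n : ℝ)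

/-- Some frequency in `U` correlates with `λ` on `(n, n+H]` at level `ε`. -/
def Bad (H : ℕ) (U : Set ℝ) (ε : ℝ) (n : ℕ) : Prop := ∃ α ∈ U, ε * (H : ℝ) ≤ ‖S H n α‖

/-- The logarithmic density of the `ε`-bad windows with a frequency in `U` is at most `c`. -/
def DensLE (U : Set ℝ) (ε c : ℝ) : Prop :=
  ∀ c' : ℝ, c < c' → ∃ H₀ : ℕ, ∀ H : ℕ, H₀ ≤ H → ∀ ω X : ℝ, (H : ℝ) ≤ ω → (H : ℝ) * ω ≤ X →
    mass (Bad H U ε) ω X ≤ c' * Real.log ω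

/-- The two-point logarithmic Chowla conjecture, a theorem of Tao (2016). -/
def TwoPoint : Prop :=
  ∀ k : ℕ, 1 ≤ k → ∀ ε : ℝ, 0 < ε → ∃ ω₀ : ℝ, ∀ ω X : ℝ, ω₀ ≤ ω → ω ≤ X →
    |∑ n ∈ Finset.Icc ⌈X / ω⌉₊ ⌊X⌋₊,
      (-1 : ℝ) ^ (ArithmeticFunction.cardFactors n) * (-1 : ℝ) ^ (ArithmeticFunction.cardFactors (n + k)) / (n : ℝ)|
      ≤ ε * Real.log ω

/-- Absolute continuity of the distribution of the frequencies: for all `ε, c > 0` there is `η > 0` such that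
the `ε`-bad windows with a frequency in `{Ψ ≥ 1}` have density at most `c`, for every continuous `1`-periodic
`Ψ ≥ 0` of mean at most `η`. -/
def AC : Prop :=
  ∀ ε : ℝ, 0 < ε → ∀ c : ℝ, 0 < c → ∃ η : ℝ, 0 < η ∧ ∀ Ψ : ℝ → ℝ, Continuous Ψ → Function.Periodic Ψ 1 →
    (∀ x, 0 ≤ Ψ x) → (∫ x in (0 : ℝ)..1, Ψ x) ≤ η → DensLE {α | 1 ≤ Ψ α} ε c

/-- Plain short sums (twisted by one fixed frequency `θ`): for all `ε, c > 0` there is a length `b` such that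
`|∑_{h ≤ b} λ(n+h) e(hθ)| ≥ ε b` for a proportion at most `c / b` of the `n ∈ [X/ω, X]` (logarithmically). -/
def Plain (θ : ℝ) : Prop :=
  ∀ ε : ℝ, 0 < ε → ∀ c : ℝ, 0 < c → ∃ b : ℕ, 1 ≤ b ∧ ∃ ω₀ : ℝ, ∀ ω X : ℝ, ω₀ ≤ ω → ω ≤ X →
    mass (fun n => ε * (b : ℝ) ≤ ‖S b n θ‖) ω X ≤ c / (b : ℝ) * Real.log ω

/-- Fourth moment of the plain short sums: for every `c > 0` some length `b` has fourth moment at most `c b³`. -/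
def Fourth (θ : ℝ) : Prop :=
  ∀ c : ℝ, 0 < c → ∃ b : ℕ, 1 ≤ b ∧ ∃ ω₀ : ℝ, ∀ ω X : ℝ, ω₀ ≤ ω → ω ≤ X →
    (∑ n ∈ Finset.Icc ⌈X / ω⌉₊ ⌊X⌋₊, ‖S b n θ‖ ^ 4 / (n : ℝ)) ≤ c * (b : ℝ) ^ 3 * Real.log ω

/-! ### elementary facts -/

theorem norm_term (H n h : ℕ) (α : ℝ) :
    ‖((-1 : ℂ) ^ (ArithmeticFunction.cardFactors (n + h))) *
      Complex.exp (2 * (Real.pi : ℂ) * Complex.I * (h : ℂ) * (α : ℂ))‖ = 1 := by
  rw [norm_mul, norm_pow, norm_neg, norm_one, one_pow, one_mul, Complex.norm_exp]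
  simp

theorem norm_S_le (H n : ℕ) (α : ℝ) : ‖S H n α‖ ≤ H := by
  unfold S
  refine (norm_sum_le _ _).trans ?_
  rw [sum_congr rfl (fun h _ => norm_term H n h α)]
  simp

theorem bddAbove_S (H n : ℕ) : BddAbove (Set.range fun α : ℝ => ‖S H n α‖) :=
  ⟨H, by rintro _ ⟨α, rfl⟩; exact norm_S_le H n α⟩

theorem bddAbove_S_on (H n : ℕ) (U : Set ℝ) : BddAbove (Set.range fun α : U => ‖S H n α‖) :=
  ⟨H, by rintro _ ⟨α, rfl⟩; exact norm_S_le H n α⟩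

theorem mass_nonneg (B : ℕ → Prop) (ω X : ℝ) : 0 ≤ mass B ω X :=
  sum_nonneg fun _ _ => by positivity

end Pool.Agent.H6.FU
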