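import Pool.Agent.H6.FU.Defs

/-!
# Plain short sums at a frequency depending on the scale
-/

namespace Pool.Agent.H6.FU

/-- Large deviations at one frequency per scale: for all `ε, c > 0`, on every logarithmic scale `[X/ω, X]` there are a
bounded length `b` and a frequency `θ` such that `|∑_{h ≤ b} λ(n+h) e(hθ)| ≥ ε b` for a proportion at most `c / b` of the
`n ∈ [X/ω, X]`. -/
def PlainS : Prop :=
  ∀ ε : ℝ, 0 < ε → ∀ c : ℝ, 0 < c → ∃ b₀ : ℕ, ∃ ω₀ : ℝ, ∀ ω X : ℝ, ω₀ ≤ ω → ω ≤ X →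
    ∃ b : ℕ, 1 ≤ b ∧ b ≤ b₀ ∧ ∃ θ : ℝ,
      mass (fun n => ε * (b : ℝ) ≤ ‖S b n θ‖) ω X ≤ c / (b : ℝ) * Real.log ω

/-- Fourth moments at one frequency per scale: for every `c > 0`, on every logarithmic scale `[X/ω, X]` there are a bounded
length `b` and a frequency `θ` such that the mean of `|∑_{h ≤ b} λ(n+h) e(hθ)|⁴` is at most `c b³`. -/
def FourthS : Prop :=
  ∀ c : ℝ, 0 < c → ∃ b₀ : ℕ, ∃ ω₀ : ℝ, ∀ ω X : ℝ, ω₀ ≤ ω → ω ≤ X →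
    ∃ b : ℕ, 1 ≤ b ∧ b ≤ b₀ ∧ ∃ θ : ℝ,
      (∑ n ∈ Finset.Icc ⌈X / ω⌉₊ ⌊X⌋₊, ‖S b n θ‖ ^ 4 / (n : ℝ)) ≤ c * (b : ℝ) ^ 3 * Real.log ω

end Pool.Agent.H6.FU
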