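import Pool.Agent.H6.FU.TK
import Pool.Agent.H6.FU.DIL

/-!
# EXC: few exceptional primes

If `‖S H n α‖ ≥ εH` then the primes `p ∈ Q` with `‖S ⌊H/p⌋ ⌊n/p⌋ (pα)‖ < (ε - 2η)⌊H/p⌋` satisfy `∑ 1/p ≤ 6/η²`.

Proof. Apply `TK_main` to `a h = λ(n+h) e(hα)` (norm `1`: `norm_term`), so `A = S H n α`. For an exceptional `p`,
`DIL_main` gives `‖A_p‖ ≤ (ε-2η)⌊H/p⌋ + 1 ≤ (ε-2η)H/p + 1` (`ε - 2η ≥ 0`, `Nat.cast_div_le`), hence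
`‖p A_p‖ ≤ (ε-2η)H + p ≤ (ε - 2η)H + ηH` and `‖p A_p - A‖ ≥ ‖A‖ - ‖pA_p‖ ≥ ηH`. Restrict the sum in `TK_main` to the
exceptional primes (nonnegative terms): `(∑_{exc} 1/p) (ηH)² ≤ 6H²`. Divide by `(ηH)² > 0` (`H ≥ 1`).
-/

namespace Pool.Agent.H6.FU

open Finset

open Classical in
theorem EXC_main (H n P : ℕ) (α ε η : ℝ) (hH : 1 ≤ H) (hη : 0 < η) (hε : 2 * η ≤ ε)
    (hS : ε * (H : ℝ) ≤ ‖S H n α‖) (Q : Finset ℕ) (hQ : ∀ p ∈ Q, p.Prime)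
    (hP : ∀ p ∈ Q, p ≤ P) (hPH : P ^ 2 ≤ H) (hPη : (P : ℝ) ≤ η * H) :
    (∑ p ∈ Q.filter (fun p : ℕ => ‖S (H / p) (n / p) ((p : ℝ) * α)‖ < (ε - 2 * η) * ((H / p : ℕ) : ℝ)),
      1 / (p : ℝ)) ≤ 6 / η ^ 2 := by
  have hH' : (1 : ℝ) ≤ H := by exact_mod_cast hH
  set a : ℕ → ℂ := fun h => ((-1 : ℂ) ^ (ArithmeticFunction.cardFactors (n + h))) *
        Complex.exp (2 * (Real.pi : ℂ) * Complex.I * (h : ℂ) * (α : ℂ)) with ha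
  have hTK := TK_main H n P a (fun h => (norm_term H n h α).le) Q hQ hP hPH
  have hA : ∑ h ∈ Icc 1 H, a h = S H n α := rfl
  rw [hA] at hTK
  set F := Q.filter (fun p : ℕ => ‖S (H / p) (n / p) ((p : ℝ) * α)‖ < (ε - 2 * η) * ((H / p : ℕ) : ℝ)) with hF
  have h1 : ∀ p ∈ F, (1 / (p : ℝ)) * (η * H) ^ 2 ≤ (1 / (p : ℝ)) *
      ‖(p : ℂ) * (∑ h ∈ (Icc 1 H).filter (fun h => p ∣ n + h), a h) - S H n α‖ ^ 2 := by
    intro p hp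
    obtain ⟨hpQ, hpe⟩ := mem_filter.1 hp
    have hp0 : (0 : ℝ) < p := by exact_mod_cast (hQ p hpQ).pos
    have hpP : (p : ℝ) ≤ P := by exact_mod_cast hP p hpQ
    have hd := DIL_main H n p (hQ p hpQ) α
    set Ap := ∑ h ∈ (Icc 1 H).filter (fun h => p ∣ n + h), a h with hAp
    have hd' : ‖Ap‖ ≤ ‖S (H / p) (n / p) ((p : ℝ) * α)‖ + 1 := hd
    have hc : ((H / p : ℕ) : ℝ) ≤ (H : ℝ) / p := Nat.cast_div_le
    have h2 : ‖Ap‖ ≤ (ε - 2 * η) * ((H : ℝ) / p) + 1 := by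
      have : (ε - 2 * η) * ((H / p : ℕ) : ℝ) ≤ (ε - 2 * η) * ((H : ℝ) / p) :=
        mul_le_mul_of_nonneg_left hc (by linarith)
      linarith
    have h3 : ‖(p : ℂ) * Ap‖ ≤ (ε - 2 * η) * H + p := by
      rw [norm_mul, Complex.norm_natCast]
      calc (p : ℝ) * ‖Ap‖ ≤ p * ((ε - 2 * η) * ((H : ℝ) / p) + 1) := mul_le_mul_of_nonneg_left h2 hp0.le
        _ = (ε - 2 * η) * H + p := by field_simp
    have h4 : ‖S H n α‖ - ‖(p : ℂ) * Ap‖ ≤ ‖(p : ℂ) * Ap - S H n α‖ := by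
      have := norm_sub_norm_le (S H n α) ((p : ℂ) * Ap)
      rwa [norm_sub_rev] at this
    have h5 : η * H ≤ ‖(p : ℂ) * Ap - S H n α‖ := by nlinarith
    have h6 : (0 : ℝ) ≤ η * H := by positivity
    gcongr
  have h7 : (∑ p ∈ F, 1 / (p : ℝ)) * (η * H) ^ 2 ≤ 6 * (H : ℝ) ^ 2 := by
    rw [sum_mul]
    refine (sum_le_sum h1).trans ((sum_le_sum_of_subset_of_nonneg (filter_subset _ _) ?_).trans hTK)
    intro p _ _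
    positivity
  rw [le_div_iff₀ (by positivity)]
  have h8 : (0 : ℝ) < (H : ℝ) ^ 2 := by positivity
  refine le_of_mul_le_mul_right ?_ h8
  calc (∑ p ∈ F, 1 / (p : ℝ)) * η ^ 2 * (H : ℝ) ^ 2 = (∑ p ∈ F, 1 / (p : ℝ)) * (η * H) ^ 2 := by ring
    _ ≤ 6 * (H : ℝ) ^ 2 := h7

end Pool.Agent.H6.FU
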