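import Pool.Agent.H6.FU.Defs2
import Pool.Agent.H6.FU.CORR
import Pool.Agent.H6.FU.DK

/-!
# FS: `Q1 → FourthS → PlainS`

`Q1 → FourthS`: `∫₀¹ ‖S b n θ‖⁴ dθ ≤ (⨆ ‖S b n‖) b ∫₀¹ ‖S b n θ‖² dθ = (⨆ ‖S b n‖) b²`; sum over `n` and use `Q1` for the
window length `b`. `FourthS → PlainS` is Chebyshev's inequality.
-/

namespace Pool.Agent.H6.FU

open Finset

theorem FS_l2 (b n : ℕ) : ∫ θ in (0 : ℝ)..1, ‖S b n θ‖ ^ 2 = b := by
  have h := CORR_main b n 0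
  have h1 : (∫ β in (0 : ℝ)..1, ((‖S b n β‖ ^ 2 : ℝ) : ℂ) *
      Complex.exp (2 * (Real.pi : ℂ) * Complex.I * ((0 : ℤ) : ℂ) * (β : ℂ))) =
      ((∫ β in (0 : ℝ)..1, ‖S b n β‖ ^ 2 : ℝ) : ℂ) := by
    rw [← intervalIntegral.integral_ofReal]
    congr 1
    ext β
    simp
  rw [h1] at h
  have h2 := Complex.ofReal_injective h
  rw [h2]
  have h3 : ∀ m : ℕ, (-1 : ℝ) ^ m * (-1 : ℝ) ^ m = 1 := fun m => by
    rw [← mul_pow]; norm_num
  simp [h3]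

theorem FS_l4 (b n : ℕ) : ∫ θ in (0 : ℝ)..1, ‖S b n θ‖ ^ 4 ≤ (⨆ α : ℝ, ‖S b n α‖) * b ^ 2 := by
  have hc := DK_continuous b n
  have hs : ∀ θ, ‖S b n θ‖ ≤ ⨆ α : ℝ, ‖S b n α‖ := fun θ => le_ciSup (bddAbove_S b n) θ
  have h0 : (0 : ℝ) ≤ ⨆ α : ℝ, ‖S b n α‖ := Real.iSup_nonneg fun α => norm_nonneg _
  calc ∫ θ in (0 : ℝ)..1, ‖S b n θ‖ ^ 4
      ≤ ∫ θ in (0 : ℝ)..1, ((⨆ α : ℝ, ‖S b n α‖) * b) * ‖S b n θ‖ ^ 2 := by
        refine intervalIntegral.integral_mono_on (by norm_num) ?_ ?_ fun θ _ => ?_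
        · exact ((hc.norm).pow 4).intervalIntegrable _ _
        · exact (continuous_const.mul ((hc.norm).pow 2)).intervalIntegrable _ _
        · have h1 := norm_S_le b n θ
          have h2 := norm_nonneg (S b n θ)
          calc ‖S b n θ‖ ^ 4 = (‖S b n θ‖ * ‖S b n θ‖) * ‖S b n θ‖ ^ 2 := by ring
            _ ≤ ((⨆ α : ℝ, ‖S b n α‖) * b) * ‖S b n θ‖ ^ 2 :=
              mul_le_mul_of_nonneg_right (mul_le_mul (hs θ) h1 h2 h0) (by positivity)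
    _ = (⨆ α : ℝ, ‖S b n α‖) * b ^ 2 := by
        rw [intervalIntegral.integral_const_mul, FS_l2]
        ring

theorem FS_fourth (h : Q1) : FourthS := by
  intro c hc
  obtain ⟨H₀, hH⟩ := h c hc
  set b := max H₀ 1 with hb
  have hb1 : 1 ≤ b := le_max_right _ _
  have hb1' : (1 : ℝ) ≤ b := by exact_mod_cast hb1
  refine ⟨b, b, fun ω X hω hX => ⟨b, hb1, le_rfl, ?_⟩⟩
  have key := hH b (le_max_left _ _) hb1 ω X hω hX
  by_contra hcon
  push Not at hcon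
  set g : ℝ → ℝ := fun θ => ∑ n ∈ Icc ⌈X / ω⌉₊ ⌊X⌋₊, ‖S b n θ‖ ^ 4 / (n : ℝ) with hg
  have hgc : Continuous g := by
    refine continuous_finsetSum _ fun n _ => ?_
    exact ((DK_continuous b n).norm.pow 4).div_const _
  set C : ℝ := c * (b : ℝ) ^ 3 * Real.log ω with hC
  have hpos : 0 < ∫ θ in (0 : ℝ)..1, (g θ - C) := by
    refine intervalIntegral.intervalIntegral_pos_of_pos ?_ (fun θ => ?_) (by norm_num)
    · exact (hgc.sub continuous_const).intervalIntegrable _ _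
    · have := hcon θ
      exact sub_pos.2 this
  have h1 : ∫ θ in (0 : ℝ)..1, (g θ - C) = (∫ θ in (0 : ℝ)..1, g θ) - C := by
    rw [intervalIntegral.integral_sub (hgc.intervalIntegrable _ _) (by simp)]
    simp
  have h2 : ∫ θ in (0 : ℝ)..1, g θ ≤ C := by
    rw [hg, intervalIntegral.integral_finsetSum]
    · calc ∑ n ∈ Icc ⌈X / ω⌉₊ ⌊X⌋₊, ∫ θ in (0 : ℝ)..1, ‖S b n θ‖ ^ 4 / (n : ℝ)
          ≤ ∑ n ∈ Icc ⌈X / ω⌉₊ ⌊X⌋₊, (b : ℝ) ^ 2 * ((⨆ α : ℝ, ‖S b n α‖) / (n : ℝ)) := by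
            refine sum_le_sum fun n _ => ?_
            rw [intervalIntegral.integral_div]
            have := div_le_div_of_nonneg_right (FS_l4 b n) (Nat.cast_nonneg (α := ℝ) n)
            refine this.trans (le_of_eq ?_)
            ring
        _ = (b : ℝ) ^ 2 * ∑ n ∈ Icc ⌈X / ω⌉₊ ⌊X⌋₊, (⨆ α : ℝ, ‖S b n α‖) / (n : ℝ) := by
            rw [mul_sum]
        _ ≤ (b : ℝ) ^ 2 * (c * b * Real.log ω) := mul_le_mul_of_nonneg_left key (by positivity)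
        _ = C := by rw [hC]; ring
    · intro n _
      exact (((DK_continuous b n).norm.pow 4).div_const _).intervalIntegrable _ _
  linarith

theorem FS_plain (h : FourthS) : PlainS := by
  classical
  intro ε hε c hc
  obtain ⟨b₀, ω₀, h4⟩ := h (c * ε ^ 4) (by positivity)
  refine ⟨b₀, ω₀, fun ω X h1 h2 => ?_⟩
  obtain ⟨b, hb, hbb, θ, h3⟩ := h4 ω X h1 h2
  have hb0 : (0 : ℝ) < b := by exact_mod_cast hb
  refine ⟨b, hb, hbb, θ, ?_⟩
  have h5 : (ε * b) ^ 4 * mass (fun n => ε * (b : ℝ) ≤ ‖S b n θ‖) ω X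
      ≤ ∑ n ∈ Finset.Icc ⌈X / ω⌉₊ ⌊X⌋₊, ‖S b n θ‖ ^ 4 / (n : ℝ) := by
    unfold mass
    rw [Finset.sum_filter, Finset.mul_sum]
    refine Finset.sum_le_sum fun n _ => ?_
    split_ifs with h6
    · rw [mul_one_div]
      gcongr
    · rw [mul_zero]
      positivity
  have h6 := h5.trans h3
  apply le_of_mul_le_mul_left _ (show 0 < (ε * b) ^ 4 by positivity)
  refine h6.trans (le_of_eq ?_)
  field_simp

end Pool.Agent.H6.FU
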