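import Pool.Agent.H6.FU.Defs

/-!
# GRP: logarithmic mass under `n ↦ n + t`

1. (`GRP_shift`) `mass (B ∘ (·+t)) ω X ≤ mass B ω X + 3` if `1 ≤ ω` and `1 ≤ X/ω`, `t ≤ X/ω`.
Proof. `1/n ≤ 1/(n+t) + t/(n(n+t))` and `∑_{n ≥ N₀} t/(n(n+t)) = ∑_{N₀ ≤ n < N₀+t} 1/n ≤ t/N₀ ≤ 1` (telescoping; for finite
sums `≤`), `N₀ = ⌈X/ω⌉₊ ≥ t`. And `∑_{n ∈ [N₀,N₁]} 1[B(n+t)]/(n+t) ≤ ∑_{m ∈ [N₀,N₁]} 1[B m]/m + ∑_{N₁ < m ≤ N₁+t} 1/m`, where
the last sum is `≤ t/N₁ ≤ 1` if `N₁ ≥ N₀` (if `N₁ < N₀` the mass is `0`).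

2. (`GRP_corr`) for `|f| ≤ 1`: `|∑_{n ∈ [X/ω,X]} (f(n+t) - f(n))/n| ≤ 4` if `1 ≤ ω`, `1 ≤ X/ω`, `t ≤ X/ω`.
Proof. the same three estimates: replacing `1/n` by `1/(n+t)` costs at most `1`, and then the two sums over `m ∈ [N₀+t, N₁+t]`
and `m ∈ [N₀, N₁]` of `f(m)/m` differ by at most `t/N₀ + t/N₁ ≤ 2`.
-/

namespace Pool.Agent.H6.FU

open Finset

theorem GRP_block (f : ℕ → ℝ) (hf : ∀ n, |f n| ≤ 1) (a t : ℕ) (ha : 1 ≤ a) (hta : t ≤ a) :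
    |∑ n ∈ Ico a (a + t), f n / (n : ℝ)| ≤ 1 := by
  have ha' : (0 : ℝ) < a := by exact_mod_cast ha
  calc |∑ n ∈ Ico a (a + t), f n / (n : ℝ)| ≤ ∑ n ∈ Ico a (a + t), |f n / (n : ℝ)| :=
        abs_sum_le_sum_abs _ _
    _ ≤ ∑ _n ∈ Ico a (a + t), 1 / (a : ℝ) := by
        refine sum_le_sum fun n hn => ?_
        have h1 : a ≤ n := (mem_Ico.1 hn).1
        have h2 : (a : ℝ) ≤ n := by exact_mod_cast h1
        rw [abs_div, abs_of_nonneg (Nat.cast_nonneg n : (0 : ℝ) ≤ n)]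
        exact div_le_div₀ zero_le_one (hf n) ha' h2
    _ = (t : ℝ) / a := by
        rw [sum_const, Nat.card_Ico, nsmul_eq_mul]
        have h3 : a + t - a = t := by omega
        rw [h3]
        ring
    _ ≤ 1 := by
        rw [div_le_one ha']
        exact_mod_cast hta

theorem GRP_swap (f : ℕ → ℝ) (a b t : ℕ) (hab : a ≤ b) :
    ∑ n ∈ Ico a b, f (n + t) = ∑ n ∈ Ico a b, f n + ∑ n ∈ Ico b (b + t), f n -
      ∑ n ∈ Ico a (a + t), f n := by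
  have h1 : ∑ n ∈ Ico a b, f (n + t) = ∑ n ∈ Ico (a + t) (b + t), f n := by
    rw [sum_Ico_add' f a b t]
  have h2 := sum_Ico_consecutive f hab (Nat.le_add_right b t)
  have h3 := sum_Ico_consecutive f (Nat.le_add_right a t) (Nat.add_le_add_right hab t)
  rw [h1]
  linarith

theorem GRP_core (f : ℕ → ℝ) (hf : ∀ n, |f n| ≤ 1) (a b t : ℕ) (ha : 1 ≤ a) (hta : t ≤ a) :
    |(∑ n ∈ Ico a b, f (n + t) / (n : ℝ)) - ∑ n ∈ Ico a b, f n / (n : ℝ)| ≤ 3 := by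
  rcases lt_or_ge b a with hba | hab
  · rw [Ico_eq_empty (by omega)]
    simp
  have ha' : (0 : ℝ) < a := by exact_mod_cast ha
  -- replace `1/n` by `1/(n+t)`
  have hA : |(∑ n ∈ Ico a b, f (n + t) / (n : ℝ)) -
      ∑ n ∈ Ico a b, f (n + t) / ((n + t : ℕ) : ℝ)| ≤ 1 := by
    rw [← sum_sub_distrib]
    calc |∑ n ∈ Ico a b, (f (n + t) / (n : ℝ) - f (n + t) / ((n + t : ℕ) : ℝ))|
        ≤ ∑ n ∈ Ico a b, |f (n + t) / (n : ℝ) - f (n + t) / ((n + t : ℕ) : ℝ)| :=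
          abs_sum_le_sum_abs _ _
      _ ≤ ∑ n ∈ Ico a b, (1 / (n : ℝ) - 1 / ((n + t : ℕ) : ℝ)) := by
          refine sum_le_sum fun n hn => ?_
          have h1 : a ≤ n := (mem_Ico.1 hn).1
          have h2 : (0 : ℝ) < n := by
            have : (a : ℝ) ≤ n := by exact_mod_cast h1
            linarith
          have h3 : (n : ℝ) ≤ ((n + t : ℕ) : ℝ) := by
            push_cast
            have : (0 : ℝ) ≤ t := Nat.cast_nonneg t
            linarith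
          have h4 : 0 ≤ 1 / (n : ℝ) - 1 / ((n + t : ℕ) : ℝ) :=
            sub_nonneg.2 (one_div_le_one_div_of_le h2 h3)
          have h5 : f (n + t) / (n : ℝ) - f (n + t) / ((n + t : ℕ) : ℝ) =
              f (n + t) * (1 / (n : ℝ) - 1 / ((n + t : ℕ) : ℝ)) := by ring
          rw [h5, abs_mul, abs_of_nonneg h4]
          exact mul_le_of_le_one_left h4 (hf _)
      _ = (∑ n ∈ Ico a (a + t), (1 : ℝ) / (n : ℝ)) - ∑ n ∈ Ico b (b + t), (1 : ℝ) / (n : ℝ) := by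
          rw [sum_sub_distrib, GRP_swap (fun n => 1 / (n : ℝ)) a b t hab]
          ring
      _ ≤ ∑ n ∈ Ico a (a + t), (1 : ℝ) / (n : ℝ) := by
          have : 0 ≤ ∑ n ∈ Ico b (b + t), (1 : ℝ) / (n : ℝ) :=
            sum_nonneg fun _ _ => by positivity
          linarith
      _ ≤ 1 := (le_abs_self _).trans (GRP_block (fun _ => 1) (fun _ => by simp) a t ha hta)
  have hB : |(∑ n ∈ Ico a b, f (n + t) / ((n + t : ℕ) : ℝ)) - ∑ n ∈ Ico a b, f n / (n : ℝ)| ≤ 2 := by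
    have h1 := GRP_swap (fun n => f n / (n : ℝ)) a b t hab
    rw [h1]
    have h2 := GRP_block f hf a t ha hta
    have h3 := GRP_block f hf b t (ha.trans hab) (hta.trans hab)
    rw [abs_le] at h2 h3 ⊢
    constructor <;> linarith [h2.1, h2.2, h3.1, h3.2]
  rw [abs_le] at hA hB ⊢
  constructor <;> linarith [hA.1, hA.2, hB.1, hB.2]

theorem GRP_start (t : ℕ) (ω X : ℝ) (h1 : 1 ≤ X / ω) (ht : (t : ℝ) ≤ X / ω) :
    1 ≤ ⌈X / ω⌉₊ ∧ t ≤ ⌈X / ω⌉₊ := by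
  constructor
  · have : (1 : ℝ) ≤ ⌈X / ω⌉₊ := h1.trans (Nat.le_ceil _)
    exact_mod_cast this
  · have : (t : ℝ) ≤ ⌈X / ω⌉₊ := ht.trans (Nat.le_ceil _)
    exact_mod_cast this

theorem GRP_Icc (a b : ℕ) : Icc a b = Ico a (b + 1) := by
  ext n
  simp only [mem_Icc, mem_Ico]
  omega

open Classical in
theorem GRP_mass_eq (B : ℕ → Prop) (ω X : ℝ) :
    mass B ω X = ∑ n ∈ Icc ⌈X / ω⌉₊ ⌊X⌋₊, (if B n then (1 : ℝ) else 0) / (n : ℝ) := by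
  unfold mass
  rw [sum_filter]
  refine sum_congr rfl fun n _ => ?_
  split_ifs <;> simp

theorem GRP_shift (B : ℕ → Prop) (t : ℕ) (ω X : ℝ) (hω : 1 ≤ ω) (h1 : 1 ≤ X / ω) (ht : (t : ℝ) ≤ X / ω) :
    mass (fun n => B (n + t)) ω X ≤ mass B ω X + 3 := by
  classical
  obtain ⟨h2, h3⟩ := GRP_start t ω X h1 ht
  rw [GRP_mass_eq, GRP_mass_eq, GRP_Icc]
  have h := GRP_core (fun n => if B n then (1 : ℝ) else 0) (fun n => by split_ifs <;> simp)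
    ⌈X / ω⌉₊ (⌊X⌋₊ + 1) t h2 h3
  have h4 := (abs_le.1 h).2
  linarith

theorem GRP_corr (f : ℕ → ℝ) (hf : ∀ n, |f n| ≤ 1) (t : ℕ) (ω X : ℝ) (hω : 1 ≤ ω) (h1 : 1 ≤ X / ω)
    (ht : (t : ℝ) ≤ X / ω) :
    |(∑ n ∈ Icc ⌈X / ω⌉₊ ⌊X⌋₊, f (n + t) / (n : ℝ)) - ∑ n ∈ Icc ⌈X / ω⌉₊ ⌊X⌋₊, f n / (n : ℝ)| ≤ 4 := by
  obtain ⟨h2, h3⟩ := GRP_start t ω X h1 ht
  rw [GRP_Icc]
  exact (GRP_core f hf _ _ t h2 h3).trans (by norm_num)

theorem GRP_log (a k : ℕ) (ha : 1 ≤ a) :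
    ∑ n ∈ Icc a (a + k), 1 / (n : ℝ) ≤ 1 / (a : ℝ) + Real.log (((a + k : ℕ) : ℝ) / a) := by
  have ha' : (0 : ℝ) < a := by exact_mod_cast ha
  induction k with
  | zero => simp [div_self ha'.ne']
  | succ k ih =>
    have h1 : Icc a (a + (k + 1)) = insert (a + k + 1) (Icc a (a + k)) := by
      ext n
      simp only [mem_Icc, mem_insert]
      omega
    rw [h1, sum_insert (by simp)]
    have hb : (0 : ℝ) < ((a + k : ℕ) : ℝ) := by
      push_cast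
      positivity
    have hb1 : (0 : ℝ) < ((a + k + 1 : ℕ) : ℝ) := by
      push_cast
      positivity
    have h2 : 1 / ((a + k + 1 : ℕ) : ℝ) ≤
        Real.log (((a + k + 1 : ℕ) : ℝ) / ((a + k : ℕ) : ℝ)) := by
      have h3 := Real.one_sub_inv_le_log_of_pos (div_pos hb1 hb)
      refine le_trans (le_of_eq ?_) h3
      rw [inv_div]
      push_cast at hb hb1 ⊢
      field_simp
      ring
    have h4 : Real.log (((a + (k + 1) : ℕ) : ℝ) / a) =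
        Real.log (((a + k + 1 : ℕ) : ℝ) / ((a + k : ℕ) : ℝ)) +
          Real.log (((a + k : ℕ) : ℝ) / a) := by
      rw [← Real.log_mul (div_pos hb1 hb).ne' (div_pos hb ha').ne']
      congr 1
      have h5 : (a + (k + 1) : ℕ) = a + k + 1 := by omega
      rw [h5]
      field_simp
    rw [h4]
    linarith

/-- The total mass: `∑_{n ∈ [X/ω, X]} 1/n ≤ log ω + 1`. (`∑_{N₀ ≤ n ≤ N₁} 1/n ≤ 1/N₀ + ∫_{N₀}^{N₁} dt/t ≤ 1 + log (N₁/N₀)`,
`N₀ = ⌈X/ω⌉₊ ≥ 1`, `N₁/N₀ ≤ X/(X/ω) = ω`.) -/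
theorem GRP_total (B : ℕ → Prop) (ω X : ℝ) (hω : 1 ≤ ω) (h1 : 1 ≤ X / ω) :
    mass B ω X ≤ Real.log ω + 1 := by
  classical
  have hlog : 0 ≤ Real.log ω := Real.log_nonneg hω
  have hω0 : 0 < ω := by linarith
  have hX : 0 < X := by
    have h2 : 0 < X / ω := by linarith
    have h3 : X = X / ω * ω := by field_simp
    rw [h3]
    exact mul_pos h2 hω0
  obtain ⟨h2, _⟩ := GRP_start 0 ω X h1 (by simpa using by linarith)
  have ha' : (1 : ℝ) ≤ (⌈X / ω⌉₊ : ℝ) := by exact_mod_cast h2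
  have hle : mass B ω X ≤ ∑ n ∈ Icc ⌈X / ω⌉₊ ⌊X⌋₊, 1 / (n : ℝ) := by
    unfold mass
    exact sum_le_sum_of_subset_of_nonneg (filter_subset _ _) fun _ _ _ => by positivity
  refine hle.trans ?_
  rcases lt_or_ge ⌊X⌋₊ ⌈X / ω⌉₊ with h | h
  · rw [Icc_eq_empty (by omega)]
    simp only [sum_empty]
    linarith
  · obtain ⟨k, hk⟩ := Nat.exists_eq_add_of_le h
    rw [hk]
    refine (GRP_log _ k h2).trans ?_
    have h3 : 1 / (⌈X / ω⌉₊ : ℝ) ≤ 1 := by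
      rw [div_le_one (by linarith)]
      exact ha'
    have h4 : Real.log (((⌈X / ω⌉₊ + k : ℕ) : ℝ) / ⌈X / ω⌉₊) ≤ Real.log ω := by
      apply Real.log_le_log
      · apply div_pos _ (by linarith)
        rw [← hk]
        have : (⌈X / ω⌉₊ : ℝ) ≤ (⌊X⌋₊ : ℝ) := by exact_mod_cast h
        linarith
      · rw [← hk, div_le_iff₀ (by linarith)]
        have h5 : (⌊X⌋₊ : ℝ) ≤ X := Nat.floor_le hX.le
        have h6 : X / ω ≤ (⌈X / ω⌉₊ : ℝ) := Nat.le_ceil _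
        calc (⌊X⌋₊ : ℝ) ≤ X := h5
          _ = ω * (X / ω) := by field_simp
          _ ≤ ω * (⌈X / ω⌉₊ : ℝ) := mul_le_mul_of_nonneg_left h6 hω0.le
    linarith

theorem GRP_mono (B B' : ℕ → Prop) (ω X : ℝ) (h : ∀ n, B n → B' n) : mass B ω X ≤ mass B' ω X := by
  classical
  unfold mass
  exact sum_le_sum_of_subset_of_nonneg (monotone_filter_right _ fun n _ => h n) fun _ _ _ => by positivity

/-- monotone in the range -/
theorem GRP_mono_range (B : ℕ → Prop) (ω ω' X : ℝ) (hω : 0 < ω) (h : ω ≤ ω') (hX : 0 ≤ X) :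
    mass B ω X ≤ mass B ω' X := by
  classical
  unfold mass
  refine sum_le_sum_of_subset_of_nonneg (filter_subset_filter _ ?_) fun _ _ _ => by positivity
  refine Icc_subset_Icc ?_ le_rfl
  exact Nat.ceil_mono (div_le_div_of_nonneg_left hX hω h)

end Pool.Agent.H6.FU
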