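import Pool.Agent.H6.FU.LDW
import Pool.Agent.H6.FU.GRP

/-!
# LDM: plain short sums control the frequencies near `θ`

Proof. We may assume `ε ≤ 1` (`Bad H U ε n → Bad H U (min ε 1) n`). Apply `Plain θ` with `ε/4` and `c₁ = κε²/256`: get `b ≥ 1`,
`ω₀` with `mass E ω X ≤ (c₁/b) log ω` for `ω₀ ≤ ω ≤ X`, where `E m : (ε/4) b ≤ ‖S b m θ‖`. Put `δ = ε/(64b) ≤ 1/2`; then
`2πδb = 2πε/64 ≤ ε/4`. Let `H ≥ 4b/ε`, `H ≥ ω₀`, `H ≤ ω`, `Hω ≤ X`. If `n` is bad for `(θ-δ, θ+δ)`, `LDW_main` gives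
`(ε/4)H ≤ #{t<H : E(n+t)}`. Multiply by `1/n`, sum over the bad `n` and enlarge to all `n`:
`(ε/4) H mass(Bad) ≤ ∑_{t<H} mass (fun n => E (n+t)) ω X ≤ H (mass E ω X + 3)` (`GRP_shift`, `t ≤ H ≤ X/ω`). So
`mass(Bad) ≤ (4/ε)((c₁/b) log ω + 3) = κε/(64b) log ω + 12/ε ≤ κε/(32b) log ω = κ·2δ·log ω` for `H` (hence `ω`) large.
-/

namespace Pool.Agent.H6.FU

open Finset

open Classical in
private theorem LDM_mass (B : ℕ → Prop) (ω X : ℝ) :
    mass B ω X = ∑ n ∈ Finset.Icc ⌈X / ω⌉₊ ⌊X⌋₊, if B n then 1 / (n : ℝ) else 0 := by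
  unfold mass
  rw [Finset.sum_filter]

private theorem LDM_sum (E : ℕ → Prop) (H : ℕ) (ω X : ℝ) (hω : 1 ≤ ω) (h1 : 1 ≤ X / ω)
    (hH : (H : ℝ) ≤ X / ω) (B : ℕ → Prop) (a : ℝ)
    (hB : ∀ n, B n → ∃ s : Finset ℕ, s ⊆ range H ∧ (∀ t ∈ s, E (n + t)) ∧ a ≤ (s.card : ℝ)) :
    a * mass B ω X ≤ (H : ℝ) * (mass E ω X + 3) := by
  classical
  have h2 : a * mass B ω X ≤ ∑ t ∈ range H, mass (fun n => E (n + t)) ω X := by
    rw [LDM_mass, Finset.mul_sum]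
    have e1 : ∑ t ∈ range H, mass (fun n => E (n + t)) ω X
        = ∑ n ∈ Finset.Icc ⌈X / ω⌉₊ ⌊X⌋₊, ∑ t ∈ range H,
          if E (n + t) then 1 / (n : ℝ) else 0 := by
      rw [Finset.sum_comm]
      refine Finset.sum_congr rfl fun t _ => ?_
      rw [LDM_mass]
    rw [e1]
    refine Finset.sum_le_sum fun n _ => ?_
    have hn : (0 : ℝ) ≤ 1 / (n : ℝ) := by positivity
    have h3 : (0 : ℝ) ≤ ∑ t ∈ range H, if E (n + t) then 1 / (n : ℝ) else 0 :=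
      Finset.sum_nonneg fun t _ => by split_ifs <;> simp
    by_cases hb : B n
    · rw [if_pos hb]
      obtain ⟨s, hs1, hs2, hs3⟩ := hB n hb
      calc a * (1 / (n : ℝ)) ≤ (s.card : ℝ) * (1 / (n : ℝ)) :=
            mul_le_mul_of_nonneg_right hs3 hn
        _ = ∑ t ∈ s, 1 / (n : ℝ) := by rw [Finset.sum_const, nsmul_eq_mul]
        _ = ∑ t ∈ s, if E (n + t) then 1 / (n : ℝ) else 0 :=
            Finset.sum_congr rfl fun t ht => by rw [if_pos (hs2 t ht)]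
        _ ≤ ∑ t ∈ range H, if E (n + t) then 1 / (n : ℝ) else 0 :=
            Finset.sum_le_sum_of_subset_of_nonneg hs1 fun t _ _ => by split_ifs <;> simp
    · rw [if_neg hb, mul_zero]
      exact h3
  refine h2.trans ?_
  calc ∑ t ∈ range H, mass (fun n => E (n + t)) ω X ≤ ∑ _t ∈ range H, (mass E ω X + 3) := by
        refine Finset.sum_le_sum fun t ht => ?_
        apply GRP_shift E t ω X hω h1
        have : (t : ℝ) ≤ H := by exact_mod_cast (Finset.mem_range.mp ht).le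
        exact this.trans hH
    _ = (H : ℝ) * (mass E ω X + 3) := by rw [Finset.sum_const, card_range, nsmul_eq_mul]

private theorem LDM_le_one (θ : ℝ) (hP : Plain θ) (ε κ : ℝ) (hε : 0 < ε) (hε1 : ε ≤ 1)
    (hκ : 0 < κ) :
    ∃ δ : ℝ, 0 < δ ∧ δ ≤ 1 / 2 ∧ DensLE (Set.Ioo (θ - δ) (θ + δ)) ε (κ * (2 * δ)) := by
  classical
  obtain ⟨b, hb, ω₀, hpl⟩ := hP (ε / 4) (by positivity) (κ * ε ^ 2 / 256) (by positivity)
  have hb0 : (0 : ℝ) < b := by exact_mod_cast hb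
  have hb1 : (1 : ℝ) ≤ b := by exact_mod_cast hb
  refine ⟨ε / (64 * b), by positivity, ?_, ?_⟩
  · rw [div_le_iff₀ (by positivity)]
    nlinarith
  intro c' hc'
  set δ : ℝ := ε / (64 * b) with hδ
  have hδ0 : 0 < δ := by positivity
  -- a large number
  obtain ⟨H₀, hH₀⟩ := exists_nat_ge (max (max (4 * b / ε) ω₀) (Real.exp (12 / (ε * (κ * δ)))))
  refine ⟨H₀, ?_⟩
  intro H hH ω X hHω hHX
  have hHr : (H₀ : ℝ) ≤ H := by exact_mod_cast hH
  have hH1 : 4 * b / ε ≤ H :=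
    ((le_max_left _ _).trans (le_max_left _ _)).trans (hH₀.trans hHr)
  have hH2 : ω₀ ≤ H := ((le_max_right _ _).trans (le_max_left _ _)).trans (hH₀.trans hHr)
  have hH3 : Real.exp (12 / (ε * (κ * δ))) ≤ H := (le_max_right _ _).trans (hH₀.trans hHr)
  have hbH : (b : ℝ) ≤ ε / 4 * H := by
    rw [div_le_iff₀ hε] at hH1
    linarith
  have hHb : (1 : ℝ) ≤ H := by
    have : (b : ℝ) ≤ 1 * H := hbH.trans (mul_le_mul_of_nonneg_right (by linarith) (by positivity))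
    linarith
  have hω1 : 1 ≤ ω := hHb.trans hHω
  have hω0 : 0 < ω := by linarith
  have hXω : (H : ℝ) ≤ X / ω := by rwa [le_div_iff₀ hω0]
  have hX1 : 1 ≤ X / ω := hHb.trans hXω
  have hωX : ω ≤ X := by
    calc ω = 1 * ω := (one_mul _).symm
      _ ≤ H * ω := mul_le_mul_of_nonneg_right hHb hω0.le
      _ ≤ X := hHX
  have hmain := LDM_sum (fun n => ε / 4 * (b : ℝ) ≤ ‖S b n θ‖) H ω X hω1 hX1 hXω
    (Bad H (Set.Ioo (θ - δ) (θ + δ)) ε) (ε / 4 * H) (by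
      rintro n ⟨α, hα, hS⟩
      have hα' : |α - θ| ≤ δ := by
        rw [abs_le]
        constructor <;> linarith [hα.1, hα.2]
      have hδb : 2 * Real.pi * δ * (b : ℝ) ≤ ε / 4 := by
        have e1 : 2 * Real.pi * δ * (b : ℝ) = 2 * Real.pi * ε / 64 := by
          rw [hδ]
          field_simp
        rw [e1]
        have := Real.pi_lt_four
        nlinarith
      have h2 := LDW_main b H n ε δ α θ hb hε hα' hδb hbH hS
      refine ⟨_, Finset.filter_subset _ _, ?_, h2⟩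
      intro t ht
      exact (Finset.mem_filter.mp ht).2)
  have hE := hpl ω X (hH2.trans hHω) hωX
  have hmass : mass (Bad H (Set.Ioo (θ - δ) (θ + δ)) ε) ω X
      ≤ 4 / ε * (κ * ε ^ 2 / 256 / b * Real.log ω + 3) := by
    have h3 : ε / 4 * H * mass (Bad H (Set.Ioo (θ - δ) (θ + δ)) ε) ω X
        ≤ H * (κ * ε ^ 2 / 256 / b * Real.log ω + 3) := by
      refine hmain.trans ?_
      gcongr
    have hH0 : (0 : ℝ) < H := by linarith
    have h4 : ε / 4 * mass (Bad H (Set.Ioo (θ - δ) (θ + δ)) ε) ω X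
        ≤ κ * ε ^ 2 / 256 / b * Real.log ω + 3 := by
      apply le_of_mul_le_mul_left _ hH0
      calc (H : ℝ) * (ε / 4 * mass (Bad H (Set.Ioo (θ - δ) (θ + δ)) ε) ω X)
          = ε / 4 * H * mass (Bad H (Set.Ioo (θ - δ) (θ + δ)) ε) ω X := by ring
        _ ≤ _ := h3
    calc mass (Bad H (Set.Ioo (θ - δ) (θ + δ)) ε) ω X
        = 4 / ε * (ε / 4 * mass (Bad H (Set.Ioo (θ - δ) (θ + δ)) ε) ω X) := by field_simp
      _ ≤ _ := mul_le_mul_of_nonneg_left h4 (by positivity)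
  have hlog : 12 / (ε * (κ * δ)) ≤ Real.log ω := by
    rw [Real.le_log_iff_exp_le hω0]
    exact hH3.trans hHω
  have hlog0 : 0 ≤ Real.log ω := Real.log_nonneg hω1
  have h5 : 12 / ε ≤ κ * δ * Real.log ω := by
    calc 12 / ε = κ * δ * (12 / (ε * (κ * δ))) := by
          have : 0 < κ * δ := by positivity
          field_simp
      _ ≤ κ * δ * Real.log ω := mul_le_mul_of_nonneg_left hlog (by positivity)
  refine hmass.trans ?_
  calc 4 / ε * (κ * ε ^ 2 / 256 / b * Real.log ω + 3)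
      = κ * δ * Real.log ω + 12 / ε := by
        rw [hδ]
        field_simp
        ring
    _ ≤ κ * δ * Real.log ω + κ * δ * Real.log ω := by linarith
    _ = κ * (2 * δ) * Real.log ω := by ring
    _ ≤ c' * Real.log ω := mul_le_mul_of_nonneg_right hc'.le hlog0

theorem LDM_main (θ : ℝ) (hP : Plain θ) (ε κ : ℝ) (hε : 0 < ε) (hκ : 0 < κ) :
    ∃ δ : ℝ, 0 < δ ∧ δ ≤ 1 / 2 ∧ DensLE (Set.Ioo (θ - δ) (θ + δ)) ε (κ * (2 * δ)) := by
  obtain ⟨δ, h1, h2, h3⟩ := LDM_le_one θ hP (min ε 1) κ (lt_min hε one_pos) (min_le_right _ _) hκ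
  refine ⟨δ, h1, h2, ?_⟩
  intro c' hc'
  obtain ⟨H₀, h4⟩ := h3 c' hc'
  refine ⟨H₀, fun H hH ω X hω hX => (GRP_mono _ _ ω X ?_).trans (h4 H hH ω X hω hX)⟩
  rintro n ⟨α, hα, hS⟩
  exact ⟨α, hα, (mul_le_mul_of_nonneg_right (min_le_left _ _) (by positivity)).trans hS⟩

/-- Chebyshev's inequality: the fourth moment bound implies the bound for the plain sums
(`(εb)⁴ · mass(‖S b n θ‖ ≥ εb) ≤ ∑ ‖S b n θ‖⁴/n ≤ (cε⁴) b³ log ω`). -/
theorem LDM_fourth (θ : ℝ) (h : Fourth θ) : Plain θ := by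
  classical
  intro ε hε c hc
  obtain ⟨b, hb, ω₀, h4⟩ := h (c * ε ^ 4) (by positivity)
  have hb0 : (0 : ℝ) < b := by exact_mod_cast hb
  refine ⟨b, hb, ω₀, fun ω X h1 h2 => ?_⟩
  have h3 := h4 ω X h1 h2
  have h5 : (ε * b) ^ 4 * mass (fun n => ε * (b : ℝ) ≤ ‖S b n θ‖) ω X
      ≤ ∑ n ∈ Finset.Icc ⌈X / ω⌉₊ ⌊X⌋₊, ‖S b n θ‖ ^ 4 / (n : ℝ) := by
    rw [LDM_mass, Finset.mul_sum]
    refine Finset.sum_le_sum fun n _ => ?_
    split_ifs with h6
    · rw [mul_one_div]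
      gcongr
    · rw [mul_zero]
      positivity
  have h6 := h5.trans h3
  apply le_of_mul_le_mul_left _ (show 0 < (ε * b) ^ 4 by positivity)
  refine h6.trans (le_of_eq ?_)
  field_simp

end Pool.Agent.H6.FU
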