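import Pool.Agent.H6.FU.Defs
import Pool.Agent.H67.GT.MERT

/-!
# MER: Chebyshev's upper bound and a lower bound for `∑ 1/p`

1. `π(y) ≤ C y / log y` for `y ≥ 2`: `Chebyshev.pi_le_log4_mul_div` (`π ⌊x⌋₊ ≤ log 4 * x / log √x + √x`), and
`√x ≤ 2x/log x`... any constant will do.
2. `∑_{z < p ≤ z²} 1/p ≥ 1/4` for `z ≥ z₀`: with `F(n) = ∑_{p≤n} log p/p`, `|F(n) - log n| ≤ 3`
(`Pool.Agent.H67.GT`: `mertens_lower`, `F_upper`, `F_eq` - look at the file for the exact names and namespace),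
`∑_{z<p≤z²} 1/p ≥ (1/log z²) ∑_{z<p≤z²} log p/p = (F(z²) - F(z))/(2 log z) ≥ (log z - 6)/(2 log z) ≥ 1/4` if `log z ≥ 12`.
-/

namespace Pool.Agent.H6.FU

open Finset

theorem MER_cheb : ∃ C : ℝ, 1 ≤ C ∧ ∀ y : ℝ, 2 ≤ y →
    (((Icc 1 ⌊y⌋₊).filter Nat.Prime).card : ℝ) ≤ C * y / Real.log y := by
  refine ⟨5, by norm_num, fun y hy => ?_⟩
  have hy0 : 0 < y := by linarith
  have hlog : 0 < Real.log y := Real.log_pos (by linarith)
  have h1 := Chebyshev.pi_le_log4_mul_div (x := y) (by linarith)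
  have h2 : ((Icc 1 ⌊y⌋₊).filter Nat.Prime).card = Nat.primeCounting ⌊y⌋₊ := by
    rw [Nat.primeCounting, Nat.primeCounting', Nat.count_eq_card_filter_range]
    congr 1
    ext p
    simp only [mem_filter, mem_Icc, mem_range]
    constructor
    · rintro ⟨⟨h3, h4⟩, h5⟩
      exact ⟨by omega, h5⟩
    · rintro ⟨h3, h5⟩
      have := h5.one_lt
      exact ⟨⟨by omega, by omega⟩, h5⟩
  rw [h2]
  refine h1.trans ?_
  have h3 : Real.log (Real.sqrt y) = Real.log y / 2 := Real.log_sqrt hy0.le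
  have h4 : Real.log 4 ≤ 3 / 2 := by
    have h5 : (4 : ℝ) = 2 ^ 2 := by norm_num
    rw [h5, Real.log_pow]
    have := Real.log_two_lt_d9
    push_cast
    linarith
  have h6 : Real.log 4 * y / Real.log (Real.sqrt y) ≤ 3 * y / Real.log y := by
    rw [h3]
    have h7 : Real.log 4 * y / (Real.log y / 2) = (2 * Real.log 4) * y / Real.log y := by
      field_simp
    rw [h7]
    refine div_le_div_of_nonneg_right ?_ hlog.le
    exact mul_le_mul_of_nonneg_right (by linarith) hy0.le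
  have h8 : Real.sqrt y ≤ 2 * y / Real.log y := by
    rw [le_div_iff₀ hlog]
    have hs : 0 < Real.sqrt y := Real.sqrt_pos.2 hy0
    have h9 : Real.log y ≤ 2 * Real.sqrt y := by
      have h10 := Real.log_le_sub_one_of_pos hs
      rw [h3] at h10
      linarith
    have h11 := Real.mul_self_sqrt hy0.le
    nlinarith
  have h12 : 3 * y / Real.log y + 2 * y / Real.log y = 5 * y / Real.log y := by ring
  linarith

theorem MER_sum : ∃ z₀ : ℕ, ∀ z : ℕ, z₀ ≤ z → (1 / 4 : ℝ) ≤ ∑ p ∈ (Ioc z (z ^ 2)).filter Nat.Prime, 1 / (p : ℝ) := by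
  refine ⟨⌈Real.exp 12⌉₊, fun z hz => ?_⟩
  have h1 : Real.exp 12 ≤ z := (Nat.le_ceil _).trans (by exact_mod_cast hz)
  have hz0 : (0 : ℝ) < z := (Real.exp_pos _).trans_le h1
  have hz1 : 1 ≤ z := by
    have : 0 < z := by exact_mod_cast hz0
    omega
  have hlog : 12 ≤ Real.log z := by
    rw [Real.le_log_iff_exp_le hz0]
    exact h1
  have hzz : z ≤ z ^ 2 := by nlinarith
  have hF1 := Pool.Agent.H67.GT.MERT.mertens_lower (n := z ^ 2) (by nlinarith)
  have hF2 := Pool.Agent.H67.GT.MERT.F_upper (n := z) hz1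
  rw [Pool.Agent.H67.GT.MERT.F_eq] at hF1 hF2
  have hsplit : ∑ p ∈ (Icc 1 (z ^ 2)).filter (fun p : ℕ => p.Prime), Real.log p / (p : ℝ) =
      ∑ p ∈ (Icc 1 z).filter (fun p : ℕ => p.Prime), Real.log p / (p : ℝ) +
      ∑ p ∈ (Ioc z (z ^ 2)).filter (fun p : ℕ => p.Prime), Real.log p / (p : ℝ) := by
    rw [← sum_union]
    · congr 1
      ext p
      simp only [mem_filter, mem_Icc, mem_union, mem_Ioc]
      constructor
      · rintro ⟨⟨h3, h4⟩, h5⟩
        rcases le_or_gt p z with h | h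
        · exact Or.inl ⟨⟨h3, h⟩, h5⟩
        · exact Or.inr ⟨⟨h, h4⟩, h5⟩
      · rintro (⟨⟨h3, h4⟩, h5⟩ | ⟨⟨h3, h4⟩, h5⟩)
        · exact ⟨⟨h3, h4.trans hzz⟩, h5⟩
        · exact ⟨⟨by omega, h4⟩, h5⟩
    · rw [disjoint_left]
      intro p hp hp'
      simp only [mem_filter, mem_Icc, mem_Ioc] at hp hp'
      omega
  have hlz : Real.log ((z ^ 2 : ℕ) : ℝ) = 2 * Real.log z := by
    push_cast
    rw [Real.log_pow]
    push_cast
    ring
  rw [hlz] at hF1
  have hge : Real.log z - 5 ≤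
      ∑ p ∈ (Ioc z (z ^ 2)).filter (fun p : ℕ => p.Prime), Real.log p / (p : ℝ) := by
    linarith
  have hle : ∑ p ∈ (Ioc z (z ^ 2)).filter (fun p : ℕ => p.Prime), Real.log p / (p : ℝ) ≤
      2 * Real.log z * ∑ p ∈ (Ioc z (z ^ 2)).filter Nat.Prime, 1 / (p : ℝ) := by
    rw [mul_sum]
    refine sum_le_sum fun p hp => ?_
    simp only [mem_filter, mem_Ioc] at hp
    have hp0 : (0 : ℝ) < p := by
      have := hp.2.pos
      exact_mod_cast this
    have h3 : Real.log p ≤ 2 * Real.log z := by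
      rw [← hlz]
      exact Real.log_le_log hp0 (by exact_mod_cast hp.1.2)
    calc Real.log p / (p : ℝ) = Real.log p * (1 / (p : ℝ)) := by ring
      _ ≤ _ := mul_le_mul_of_nonneg_right h3 (by positivity)
  have h4 : 2 * Real.log z * (1 / 4) ≤
      2 * Real.log z * ∑ p ∈ (Ioc z (z ^ 2)).filter Nat.Prime, 1 / (p : ℝ) := by
    linarith
  exact le_of_mul_le_mul_left h4 (by linarith)

end Pool.Agent.H6.FU
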