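import Pool.Agent.H6.FU.AVG

/-!
# LDW: many short sub-windows

If `‖S H n α‖ ≥ εH`, `|α - θ| ≤ δ`, `2πδb ≤ ε/4` and `b ≤ (ε/4)H`, then at least `(ε/4)H` of the `t < H` satisfy
`‖S b (n+t) θ‖ ≥ (ε/4) b`.

Proof. `AVG_main`: `∑_{t<H} ‖S b (n+t) α‖ ≥ bεH - b² ≥ (3ε/4) bH`. For every `m`
`‖S b m α - S b m θ‖ ≤ ∑_{j≤b} |e(jα)-e(jθ)| ≤ ∑_{j ≤ b} 2πj|α-θ| ≤ 2πδb·b ≤ (ε/4)b`. So `∑_{t<H} ‖S b (n+t) θ‖ ≥ (ε/2) bH`.
With `N` the number of the `t` in question, `∑_{t<H} ‖S b (n+t) θ‖ ≤ N b + H (ε/4) b`; divide by `b ≥ 1`.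
-/

namespace Pool.Agent.H6.FU

open Finset

theorem LDW_exp (j : ℕ) (α θ : ℝ) :
    ‖Complex.exp (2 * (Real.pi : ℂ) * Complex.I * (j : ℂ) * (α : ℂ)) -
      Complex.exp (2 * (Real.pi : ℂ) * Complex.I * (j : ℂ) * (θ : ℂ))‖ ≤ 2 * Real.pi * j * |α - θ| := by
  have h1 : Complex.exp (2 * (Real.pi : ℂ) * Complex.I * (j : ℂ) * (α : ℂ)) =
      Complex.exp (2 * (Real.pi : ℂ) * Complex.I * (j : ℂ) * (θ : ℂ)) *
        Complex.exp (Complex.I * ((2 * Real.pi * j * (α - θ) : ℝ) : ℂ)) := by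
    rw [← Complex.exp_add]
    congr 1
    push_cast
    ring
  rw [h1, ← mul_sub_one, norm_mul]
  have h2 : ‖Complex.exp (2 * (Real.pi : ℂ) * Complex.I * (j : ℂ) * (θ : ℂ))‖ = 1 := by
    rw [Complex.norm_exp]
    simp
  rw [h2, one_mul]
  refine (Real.norm_exp_I_mul_ofReal_sub_one_le).trans ?_
  rw [Real.norm_eq_abs, abs_mul]
  rw [abs_of_nonneg (by positivity)]

theorem LDW_S (b m : ℕ) (δ α θ : ℝ) (hα : |α - θ| ≤ δ) :
    ‖S b m α‖ ≤ ‖S b m θ‖ + 2 * Real.pi * δ * b * b := by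
  have hδ : 0 ≤ δ := (abs_nonneg _).trans hα
  have h1 : ‖S b m α - S b m θ‖ ≤ 2 * Real.pi * δ * b * b := by
    unfold S
    rw [← sum_sub_distrib]
    refine (norm_sum_le _ _).trans ?_
    calc _ ≤ ∑ _h ∈ Icc 1 b, 2 * Real.pi * δ * b := by
          refine sum_le_sum fun h hh => ?_
          rw [← mul_sub, norm_mul, norm_pow, norm_neg, norm_one, one_pow, one_mul]
          refine (LDW_exp h α θ).trans ?_
          have hb : (h : ℝ) ≤ b := by exact_mod_cast (mem_Icc.1 hh).2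
          have hpi := Real.pi_pos
          calc 2 * Real.pi * h * |α - θ| ≤ 2 * Real.pi * b * δ := by gcongr
            _ = 2 * Real.pi * δ * b := by ring
      _ = 2 * Real.pi * δ * b * b := by
          rw [sum_const, Nat.card_Icc, nsmul_eq_mul]
          push_cast [Nat.add_sub_cancel]
          ring
  have h2 := norm_sub_norm_le (S b m α) (S b m θ)
  linarith

open Classical in
theorem LDW_main (b H n : ℕ) (ε δ α θ : ℝ) (hb : 1 ≤ b) (hε : 0 < ε) (hα : |α - θ| ≤ δ)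
    (hδ : 2 * Real.pi * δ * (b : ℝ) ≤ ε / 4) (hbH : (b : ℝ) ≤ ε / 4 * H) (hS : ε * (H : ℝ) ≤ ‖S H n α‖) :
    ε / 4 * (H : ℝ) ≤ (((range H).filter (fun t => ε / 4 * (b : ℝ) ≤ ‖S b (n + t) θ‖)).card : ℝ) := by
  have hb' : (1 : ℝ) ≤ b := by exact_mod_cast hb
  have h1 := AVG_main b H n α
  have h2 : (∑ t ∈ range H, ‖S b (n + t) α‖) ≤ (∑ t ∈ range H, ‖S b (n + t) θ‖) + H * (ε / 4 * b) := by
    calc (∑ t ∈ range H, ‖S b (n + t) α‖) ≤ ∑ t ∈ range H, (‖S b (n + t) θ‖ + ε / 4 * b) := by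
          refine sum_le_sum fun t _ => (LDW_S b (n + t) δ α θ hα).trans ?_
          have : 2 * Real.pi * δ * b * b ≤ ε / 4 * b := mul_le_mul_of_nonneg_right hδ (by linarith)
          linarith
      _ = _ := by
          rw [sum_add_distrib, sum_const, card_range, nsmul_eq_mul]
  have h3 : (∑ t ∈ range H, ‖S b (n + t) θ‖) ≤
      (((range H).filter (fun t => ε / 4 * (b : ℝ) ≤ ‖S b (n + t) θ‖)).card : ℝ) * b + H * (ε / 4 * b) := by
    rw [← sum_filter_add_sum_filter_not (range H) (fun t => ε / 4 * (b : ℝ) ≤ ‖S b (n + t) θ‖)]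
    refine add_le_add ?_ ?_
    · refine (sum_le_card_nsmul _ _ (b : ℝ) fun t _ => norm_S_le b (n + t) θ).trans ?_
      rw [nsmul_eq_mul]
    · have h4 : (∑ t ∈ (range H).filter (fun t => ¬ ε / 4 * (b : ℝ) ≤ ‖S b (n + t) θ‖), ‖S b (n + t) θ‖) ≤
          ((range H).filter (fun t => ¬ ε / 4 * (b : ℝ) ≤ ‖S b (n + t) θ‖)).card • (ε / 4 * (b : ℝ)) := by
        refine sum_le_card_nsmul _ _ _ fun t ht => ?_
        exact (not_le.1 (mem_filter.1 ht).2).le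
      refine h4.trans ?_
      rw [nsmul_eq_mul]
      refine mul_le_mul_of_nonneg_right ?_ (by positivity)
      have := card_filter_le (range H) (fun t => ¬ ε / 4 * (b : ℝ) ≤ ‖S b (n + t) θ‖)
      rw [card_range] at this
      exact_mod_cast this
  have h5 : (b : ℝ) * (ε * H) ≤ b * ‖S H n α‖ := mul_le_mul_of_nonneg_left hS (by linarith)
  have h6 : (b : ℝ) ^ 2 ≤ b * (ε / 4 * H) := by
    rw [pow_two]
    exact mul_le_mul_of_nonneg_left hbH (by linarith)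
  have h7 : (b : ℝ) * (ε / 4 * H) ≤
      b * (((range H).filter (fun t => ε / 4 * (b : ℝ) ≤ ‖S b (n + t) θ‖)).card : ℝ) := by
    nlinarith
  exact le_of_mul_le_mul_left h7 (by linarith)

end Pool.Agent.H6.FU
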