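import Pool.Agent.H6.FU.EXC
import Pool.Agent.H6.FU.LDW

/-!
# NB: one bad long window gives many bad short windows

`B ≥ 16/ε`, `I ≥ 768/ε²`, `H ≥ B^(2^(I+3))`, `Z_i = B^(2^i)`, `n` a bad window (`Bad H univ ε n`). Then
`(ε/8)(I/8) ≤ ∑_{i<I} ∑_{Z_i<p≤Z_i²} (1/p)(1/⌊H/p⌋) #{t<⌊H/p⌋ : Bad B univ (ε/8) (⌊n/p⌋+t)}`.

Proof. Let `P = B^(2^I) = Z_I`; `Z_i² = Z_{i+1}`, so the classes `(Z_i, Z_i²]`, `i < I`, are disjoint, with union `(B, P]`; let `Q`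
be the set of the primes in `(B,P]`; `∑_{p∈Q} 1/p ≥ I/4` by `hz` (each class contributes `≥ 1/4`). Let `α` be a frequency of the window `n`
and `η = ε/4`. `P² ≤ P⁸ = B^(2^(I+3)) ≤ H`, and `P ≤ ηH` since `H ≥ P⁸` and `ηP⁷ ≥ 1`. By `EXC_main` the exceptional `p ∈ Q` have
`∑ 1/p ≤ 6/η² = 96/ε² ≤ I/8`, so the non exceptional ones have `∑ 1/p ≥ I/8`. For a non exceptional `p` with `β = pα`:
`‖S ⌊H/p⌋ ⌊n/p⌋ β‖ ≥ (ε-2η)⌊H/p⌋ = (ε/2)⌊H/p⌋`. Apply `LDW_main` with `b = B`, `α = θ = β`, `δ = 0` and `ε/2` in place of `ε`: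
`#{t<⌊H/p⌋ : ‖S B (⌊n/p⌋+t) β‖ ≥ (ε/8)B} ≥ (ε/8)⌊H/p⌋`; its condition `B ≤ (ε/8)⌊H/p⌋` holds because
`⌊H/p⌋ ≥ H/P - 1 ≥ P⁷ - 1 ≥ P⁷/2` and `(ε/16)P⁷ ≥ (ε/16)B⁷ ≥ B⁶ ≥ B`. So each non exceptional `p` contributes at least
`(1/p)(ε/8)`, and the total is at least `(ε/8)(I/8)`; the other terms are `≥ 0`.
-/

namespace Pool.Agent.H6.FU

open Finset

/-- the classes `(Z_i, Z_i²]` fill `(B, Z_I]` -/
theorem NB_sum (B : ℕ) (hB : 1 ≤ B) (I : ℕ) (f : ℕ → ℝ) :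
    ∑ i ∈ range I, ∑ p ∈ (Ioc (B ^ (2 ^ i)) ((B ^ (2 ^ i)) ^ 2)).filter Nat.Prime, f p
      = ∑ p ∈ (Ioc B (B ^ (2 ^ I))).filter Nat.Prime, f p := by
  induction I with
  | zero => simp
  | succ k ih =>
    rw [sum_range_succ, ih]
    have e : (B ^ (2 ^ k)) ^ 2 = B ^ (2 ^ (k + 1)) := by
      rw [← pow_mul, pow_succ 2 k]
    rw [e, sum_filter, sum_filter, sum_filter]
    apply sum_Ioc_consecutive
    · exact Nat.le_self_pow (by positivity) B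
    · exact Nat.pow_le_pow_right hB (Nat.pow_le_pow_right (by norm_num) (by omega))

open Classical in
theorem NB_main (B I H n : ℕ) (ε : ℝ) (hε : 0 < ε) (hε1 : ε ≤ 1) (hI : 768 / ε ^ 2 ≤ (I : ℝ)) (hB : 16 / ε ≤ (B : ℝ))
    (hz : ∀ z : ℕ, B ≤ z → (1 / 4 : ℝ) ≤ ∑ p ∈ (Ioc z (z ^ 2)).filter Nat.Prime, 1 / (p : ℝ))
    (hH : B ^ (2 ^ (I + 3)) ≤ H) (hbad : Bad H Set.univ ε n) :
    ε / 8 * ((I : ℝ) / 8) ≤ ∑ i ∈ range I, ∑ p ∈ (Ioc (B ^ (2 ^ i)) ((B ^ (2 ^ i)) ^ 2)).filter Nat.Prime,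
      1 / (p : ℝ) * (1 / ((H / p : ℕ) : ℝ) *
        (((range (H / p)).filter (fun t => Bad B Set.univ (ε / 8) (n / p + t))).card : ℝ)) := by
  have hεB : 16 ≤ ε * (B : ℝ) := by
    rw [div_le_iff₀ hε] at hB; linarith
  have hB1 : (1 : ℝ) ≤ (B : ℝ) := by nlinarith [Nat.cast_nonneg (α := ℝ) B]
  have hB1' : 1 ≤ B := by exact_mod_cast hB1
  set P : ℕ := B ^ (2 ^ I) with hP
  have hBP : B ≤ P := by
    rw [hP]
    exact Nat.le_self_pow (by positivity) B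
  have hP1 : 1 ≤ P := hB1'.trans hBP
  have hP8 : P ^ 8 ≤ H := by
    have : P ^ 8 = B ^ (2 ^ (I + 3)) := by
      rw [hP, ← pow_mul, pow_add]; norm_num
    rw [this]; exact hH
  have hH1 : 1 ≤ H := le_trans (Nat.one_le_pow _ _ hP1) hP8
  have hPr : (1 : ℝ) ≤ (P : ℝ) := by exact_mod_cast hP1
  have hBPr : (B : ℝ) ≤ (P : ℝ) := by exact_mod_cast hBP
  have hεP : 16 ≤ ε * (P : ℝ) := by nlinarith
  have hP8r : (P : ℝ) ^ 8 ≤ (H : ℝ) := by exact_mod_cast hP8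
  -- the primes
  set Q : Finset ℕ := (Ioc B P).filter Nat.Prime with hQ
  have hQp : ∀ p ∈ Q, p.Prime := fun p hp => (mem_filter.1 hp).2
  have hQP : ∀ p ∈ Q, p ≤ P := fun p hp => (mem_Ioc.1 (mem_filter.1 hp).1).2
  have hmass : (I : ℝ) / 4 ≤ ∑ p ∈ Q, 1 / (p : ℝ) := by
    rw [hQ, hP, ← NB_sum B hB1' I (fun p : ℕ => 1 / (p : ℝ))]
    have : ∀ i ∈ range I, (1 / 4 : ℝ)
        ≤ ∑ p ∈ (Ioc (B ^ (2 ^ i)) ((B ^ (2 ^ i)) ^ 2)).filter Nat.Prime, 1 / (p : ℝ) := by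
      intro i _
      apply hz
      exact Nat.le_self_pow (by positivity) B
    have h2 := sum_le_sum this
    rw [sum_const, card_range, nsmul_eq_mul] at h2
    linarith
  obtain ⟨α, -, hα⟩ := hbad
  have hexc := EXC_main H n P α ε (ε / 4) hH1 (by linarith) (by linarith) hα Q hQp hQP
    (by
      have : P ^ 2 ≤ P ^ 8 := Nat.pow_le_pow_right hP1 (by norm_num)
      exact this.trans hP8)
    (by
      have h1 : (P : ℝ) ≤ (P : ℝ) ^ 7 := le_self_pow₀ hPr (by norm_num)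
      have h2 : 0 ≤ (P : ℝ) ^ 7 := by positivity
      have h3 : ε / 4 * (P : ℝ) ^ 8 = (ε * P) / 4 * (P : ℝ) ^ 7 := by ring
      have h4 : ε / 4 * (P : ℝ) ^ 8 ≤ ε / 4 * (H : ℝ) :=
        mul_le_mul_of_nonneg_left hP8r (by linarith)
      nlinarith)
  have hexc2 : (6 : ℝ) / (ε / 4) ^ 2 ≤ (I : ℝ) / 8 := by
    have h1 : (6 : ℝ) / (ε / 4) ^ 2 = 768 / ε ^ 2 / 8 := by
      field_simp; norm_num
    rw [h1]
    linarith
  rw [NB_sum B hB1' I (fun p : ℕ => 1 / (p : ℝ) * (1 / ((H / p : ℕ) : ℝ) *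
        (((range (H / p)).filter (fun t => Bad B Set.univ (ε / 8) (n / p + t))).card : ℝ)))]
  rw [← hP, ← hQ]
  have hsplit := sum_filter_add_sum_filter_not Q
    (fun p : ℕ => ‖S (H / p) (n / p) ((p : ℝ) * α)‖ < (ε - 2 * (ε / 4)) * ((H / p : ℕ) : ℝ))
    (fun p : ℕ => 1 / (p : ℝ))
  have hgood : (I : ℝ) / 8 ≤ ∑ p ∈ Q.filter (fun p : ℕ =>
        ¬ ‖S (H / p) (n / p) ((p : ℝ) * α)‖ < (ε - 2 * (ε / 4)) * ((H / p : ℕ) : ℝ)),
        1 / (p : ℝ) := by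
    linarith
  calc ε / 8 * ((I : ℝ) / 8) ≤ ε / 8 * ∑ p ∈ Q.filter (fun p : ℕ =>
        ¬ ‖S (H / p) (n / p) ((p : ℝ) * α)‖ < (ε - 2 * (ε / 4)) * ((H / p : ℕ) : ℝ)),
        1 / (p : ℝ) := mul_le_mul_of_nonneg_left hgood (by linarith)
    _ = ∑ p ∈ Q.filter (fun p : ℕ =>
        ¬ ‖S (H / p) (n / p) ((p : ℝ) * α)‖ < (ε - 2 * (ε / 4)) * ((H / p : ℕ) : ℝ)),
        ε / 8 * (1 / (p : ℝ)) := by rw [mul_sum]
    _ ≤ ∑ p ∈ Q.filter (fun p : ℕ =>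
        ¬ ‖S (H / p) (n / p) ((p : ℝ) * α)‖ < (ε - 2 * (ε / 4)) * ((H / p : ℕ) : ℝ)),
        1 / (p : ℝ) * (1 / ((H / p : ℕ) : ℝ) *
        (((range (H / p)).filter (fun t => Bad B Set.univ (ε / 8) (n / p + t))).card : ℝ)) := by
        apply sum_le_sum
        intro p hp
        obtain ⟨hpQ, hpn⟩ := mem_filter.1 hp
        push Not at hpn
        have hpP := hQP p hpQ
        have hp0 : 0 < p := (hQp p hpQ).pos
        have hHp : P ^ 7 ≤ H / p := by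
          rw [Nat.le_div_iff_mul_le hp0]
          calc P ^ 7 * p ≤ P ^ 7 * P := Nat.mul_le_mul_left _ hpP
            _ = P ^ 8 := by ring
            _ ≤ H := hP8
        have hHpr : (P : ℝ) ^ 7 ≤ ((H / p : ℕ) : ℝ) := by exact_mod_cast hHp
        have h7 : (P : ℝ) ≤ (P : ℝ) ^ 6 := le_self_pow₀ hPr (by norm_num)
        have hpos : (0 : ℝ) < ((H / p : ℕ) : ℝ) := lt_of_lt_of_le (by positivity) hHpr
        have hc : (B : ℝ) ≤ ε / 2 / 4 * ((H / p : ℕ) : ℝ) := by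
          have h4 : ε / 2 / 4 * (P : ℝ) ^ 7 ≤ ε / 2 / 4 * ((H / p : ℕ) : ℝ) :=
            mul_le_mul_of_nonneg_left hHpr (by linarith)
          have h3 : ε / 2 / 4 * (P : ℝ) ^ 7 = (ε * P) / 8 * (P : ℝ) ^ 6 := by ring
          have h5 : 0 ≤ (P : ℝ) ^ 6 := by positivity
          nlinarith
        have hl := LDW_main B (H / p) (n / p) (ε / 2) 0 ((p : ℝ) * α) ((p : ℝ) * α) hB1'
          (by linarith) (by simp) (by simp; linarith) hc
          (by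
            have : (ε - 2 * (ε / 4)) = ε / 2 := by ring
            rw [this] at hpn
            exact hpn)
        have hsub : (range (H / p)).filter
            (fun t => ε / 2 / 4 * (B : ℝ) ≤ ‖S B (n / p + t) ((p : ℝ) * α)‖)
            ⊆ (range (H / p)).filter (fun t => Bad B Set.univ (ε / 8) (n / p + t)) := by
          intro t ht
          obtain ⟨h1, h2⟩ := mem_filter.1 ht
          refine mem_filter.2 ⟨h1, (p : ℝ) * α, Set.mem_univ _, ?_⟩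
          have : ε / 8 = ε / 2 / 4 := by ring
          rw [this]; exact h2
        have hcard : ε / 8 * ((H / p : ℕ) : ℝ)
            ≤ (((range (H / p)).filter
              (fun t => Bad B Set.univ (ε / 8) (n / p + t))).card : ℝ) := by
          have h1 : ε / 8 = ε / 2 / 4 := by ring
          have h2 : (((range (H / p)).filter
            (fun t => ε / 2 / 4 * (B : ℝ) ≤ ‖S B (n / p + t) ((p : ℝ) * α)‖)).card : ℝ)
            ≤ (((range (H / p)).filter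
              (fun t => Bad B Set.univ (ε / 8) (n / p + t))).card : ℝ) := by
            exact_mod_cast card_le_card hsub
          have h3 : ε / 8 * ((H / p : ℕ) : ℝ) = ε / 2 / 4 * ((H / p : ℕ) : ℝ) := by ring
          rw [h3]
          exact hl.trans h2
        have hfin : ε / 8 ≤ 1 / ((H / p : ℕ) : ℝ) * (((range (H / p)).filter
              (fun t => Bad B Set.univ (ε / 8) (n / p + t))).card : ℝ) := by
          rw [one_div, ← div_eq_inv_mul, le_div_iff₀ hpos]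
          exact hcard
        rw [mul_comm]
        exact mul_le_mul_of_nonneg_left hfin (by positivity)
    _ ≤ _ := by
        apply sum_le_sum_of_subset_of_nonneg (filter_subset _ _)
        intro p _ _
        positivity

end Pool.Agent.H6.FU
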