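import Pool.Agent.H6.FU.NA
import Pool.Agent.H6.FU.NB
import Pool.Agent.H6.FU.MER

/-!
# NC: logarithmic density zero for every level implies the statement without logarithms

Proof of `(∀ ε > 0, DensLE univ ε 0) → Natural`. Let `ε > 0`; we may assume `ε ≤ 1` (the claim for `min ε 1` is stronger). Put
`ε₁ = ε/3`, `C` from `MER_cheb`, `z₀` from `MER_sum`, `I = ⌈768/ε₁²⌉₊`, `c' = ε₁²/(800 C)`, `K₀` the threshold of
`DensLE univ (ε₁/8) 0` for `c'`, `B` an integer `≥ K₀, z₀, 4, 16/ε₁`, and `H₀ = B^(2^(I+3))`. Let `H ≥ H₀`, `X ≥ H`.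
Let `f(n) = ⨆ α, ‖S H n α‖ ≤ H` and `𝓑 = {n ∈ (⌊X⌋,⌊2X⌋] : Bad H univ ε₁ n}`. For `n ∉ 𝓑`: `f(n) ≤ ε₁H`. The interval has at
most `X+1 ≤ 2X` integers, so `∑ f ≤ #𝓑 H + 2X ε₁ H`. Suppose `∑ f > εHX = 3ε₁HX`; then `#𝓑 > ε₁X`.
Sum `NB_main` (level `ε₁`) over `n ∈ 𝓑`, enlarge to all `n ∈ (⌊X⌋,⌊2X⌋]`, and apply `NA_main` with `E = Bad B univ (ε₁/8)`,
`Z = Z_i = B^(2^i)` for each `i < I`:
`ε₁X (ε₁/8)(I/8) < ∑_{i<I} (3CX/log Z_i) mass E (Z_i²) (3X/Z_i)`.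
Its conditions: `Z_i ≥ B ≥ 4`; `4Z_i² ≤ B^(2^I + 1) ≤ H₀ ≤ X`; `Z_i² ≤ H`. And `DensLE` for the window length `B ≥ K₀`, with
`ω = Z_i² ≥ B` and `B Z_i² ≤ 3X/Z_i` (as `B Z_i³ ≤ B^(1 + 3·2^(I-1)) ≤ B^(2^(I+3)) ≤ X`) gives
`mass E (Z_i²) (3X/Z_i) ≤ c' log(Z_i²) = 2c' log Z_i`. So `ε₁² X I/64 < 6 C c' X I = (6/800) ε₁² X I`: a contradiction (`I ≥ 1`, `X > 0`).
-/

namespace Pool.Agent.H6.FU

open Finset

open Classical in
theorem NC_main (h : ∀ ε : ℝ, 0 < ε → DensLE Set.univ ε 0) : Natural := by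
  intro ε hε
  obtain ⟨C, hC1, hC⟩ := MER_cheb
  obtain ⟨z₀, hz₀⟩ := MER_sum
  obtain ⟨ε₁, hε₁def⟩ : ∃ ε₁, ε₁ = min ε 1 / 3 := ⟨_, rfl⟩
  have hε₁pos : 0 < ε₁ := by
    rw [hε₁def]
    have : 0 < min ε 1 := lt_min hε one_pos
    positivity
  have hε₁le : 3 * ε₁ ≤ ε := by
    rw [hε₁def]
    have := min_le_left ε 1
    linarith
  have hε₁one : ε₁ ≤ 1 := by
    rw [hε₁def]
    have := min_le_right ε 1
    linarith
  obtain ⟨I, hIdef⟩ : ∃ I : ℕ, I = ⌈768 / ε₁ ^ 2⌉₊ := ⟨_, rfl⟩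
  have hI : 768 / ε₁ ^ 2 ≤ (I : ℝ) := by rw [hIdef]; exact Nat.le_ceil _
  have hIpos : (0 : ℝ) < I := lt_of_lt_of_le (by positivity) hI
  have hCpos : 0 < C := lt_of_lt_of_le one_pos hC1
  have hc'pos : 0 < ε₁ ^ 2 / (800 * C) := by positivity
  obtain ⟨K₀, hK₀⟩ := h (ε₁ / 8) (by positivity) (ε₁ ^ 2 / (800 * C)) hc'pos
  obtain ⟨B, hBdef⟩ : ∃ B : ℕ, B = max (max K₀ z₀) (max 4 ⌈16 / ε₁⌉₊) := ⟨_, rfl⟩
  have hBK : K₀ ≤ B := by rw [hBdef]; exact le_trans (le_max_left _ _) (le_max_left _ _)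
  have hBz : z₀ ≤ B := by rw [hBdef]; exact le_trans (le_max_right _ _) (le_max_left _ _)
  have hB4 : 4 ≤ B := by rw [hBdef]; exact le_trans (le_max_left _ _) (le_max_right _ _)
  have hB16 : 16 / ε₁ ≤ (B : ℝ) := by
    have h1 : ⌈16 / ε₁⌉₊ ≤ B := by
      rw [hBdef]; exact le_trans (le_max_right _ _) (le_max_right _ _)
    exact le_trans (Nat.le_ceil _) (by exact_mod_cast h1)
  have hB1 : 1 ≤ B := by omega
  refine ⟨B ^ (2 ^ (I + 3)), ?_⟩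
  intro H hH hH1 X hX
  have hHpos : (0 : ℝ) < H := by exact_mod_cast hH1
  have hX1 : 1 ≤ X := le_trans (by exact_mod_cast hH1) hX
  have hXpos : 0 < X := by linarith
  -- exponents
  have hexp : ∀ i < I, ∀ a : ℕ, a ≤ 2 ^ (i + 2) → ((B : ℝ) ^ a) ≤ X := by
    intro i hi a ha
    have h1 : B ^ a ≤ B ^ (2 ^ (I + 3)) := by
      apply Nat.pow_le_pow_right hB1
      refine le_trans ha ?_
      exact Nat.pow_le_pow_right (by norm_num) (by omega)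
    have h2 : B ^ a ≤ H := le_trans h1 hH
    exact le_trans (by exact_mod_cast h2) hX
  set bad : Finset ℕ := (Ioc ⌊X⌋₊ ⌊2 * X⌋₊).filter (Bad H Set.univ ε₁) with hbaddef
  -- reduction to the number of bad windows
  have hfle : ∀ n, (⨆ α : ℝ, ‖S H n α‖) ≤ H := fun n => ciSup_le fun α => norm_S_le H n α
  have hcardIoc : (((Ioc ⌊X⌋₊ ⌊2 * X⌋₊).card : ℕ) : ℝ) ≤ 2 * X := by
    rw [Nat.card_Ioc]
    have h1 : ((⌊2 * X⌋₊ : ℕ) : ℝ) ≤ 2 * X := Nat.floor_le (by linarith)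
    have h3 : ((⌊2 * X⌋₊ - ⌊X⌋₊ : ℕ) : ℝ) ≤ ((⌊2 * X⌋₊ : ℕ) : ℝ) := by
      exact_mod_cast Nat.sub_le _ _
    linarith
  have hsum : (∑ n ∈ Ioc ⌊X⌋₊ ⌊2 * X⌋₊, (⨆ α : ℝ, ‖S H n α‖)) ≤
      (bad.card : ℝ) * H + 2 * X * (ε₁ * H) := by
    rw [← Finset.sum_filter_add_sum_filter_not (Ioc ⌊X⌋₊ ⌊2 * X⌋₊) (Bad H Set.univ ε₁)]
    apply add_le_add
    · calc (∑ n ∈ (Ioc ⌊X⌋₊ ⌊2 * X⌋₊).filter (Bad H Set.univ ε₁), (⨆ α : ℝ, ‖S H n α‖))
          ≤ ∑ n ∈ (Ioc ⌊X⌋₊ ⌊2 * X⌋₊).filter (Bad H Set.univ ε₁), (H : ℝ) :=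
            Finset.sum_le_sum fun n _ => hfle n
        _ = (bad.card : ℝ) * H := by rw [Finset.sum_const, nsmul_eq_mul]
    · calc (∑ n ∈ (Ioc ⌊X⌋₊ ⌊2 * X⌋₊).filter (fun n => ¬ Bad H Set.univ ε₁ n),
            (⨆ α : ℝ, ‖S H n α‖))
          ≤ ∑ n ∈ (Ioc ⌊X⌋₊ ⌊2 * X⌋₊).filter (fun n => ¬ Bad H Set.univ ε₁ n), ε₁ * (H : ℝ) := by
            apply Finset.sum_le_sum
            intro n hn
            have hnb : ¬ Bad H Set.univ ε₁ n := (Finset.mem_filter.mp hn).2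
            apply ciSup_le
            intro α
            by_contra hlt
            push Not at hlt
            exact hnb ⟨α, Set.mem_univ _, hlt.le⟩
        _ = ((((Ioc ⌊X⌋₊ ⌊2 * X⌋₊).filter (fun n => ¬ Bad H Set.univ ε₁ n)).card : ℕ) : ℝ)
            * (ε₁ * H) := by rw [Finset.sum_const, nsmul_eq_mul]
        _ ≤ 2 * X * (ε₁ * H) := by
            apply mul_le_mul_of_nonneg_right _ (by positivity)
            refine le_trans ?_ hcardIoc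
            exact_mod_cast Finset.card_filter_le _ _
  by_cases hcase : (bad.card : ℝ) ≤ ε₁ * X
  · calc (∑ n ∈ Ioc ⌊X⌋₊ ⌊2 * X⌋₊, (⨆ α : ℝ, ‖S H n α‖))
        ≤ (bad.card : ℝ) * H + 2 * X * (ε₁ * H) := hsum
      _ ≤ ε₁ * X * H + 2 * X * (ε₁ * H) := by
          have := mul_le_mul_of_nonneg_right hcase hHpos.le
          linarith
      _ = (3 * ε₁) * (H * X) := by ring
      _ ≤ ε * (H * X) := mul_le_mul_of_nonneg_right hε₁le (by positivity)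
      _ = ε * H * X := by ring
  · exfalso
    push Not at hcase
    -- the double count
    have hNB : ∀ n ∈ bad, ε₁ / 8 * ((I : ℝ) / 8) ≤ ∑ i ∈ range I,
        ∑ p ∈ (Ioc (B ^ (2 ^ i)) ((B ^ (2 ^ i)) ^ 2)).filter Nat.Prime,
        1 / (p : ℝ) * (1 / ((H / p : ℕ) : ℝ) *
          (((range (H / p)).filter (fun t => Bad B Set.univ (ε₁ / 8) (n / p + t))).card : ℝ)) := by
      intro n hn
      have hnb : Bad H Set.univ ε₁ n := (Finset.mem_filter.mp hn).2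
      exact NB_main B I H n ε₁ hε₁pos hε₁one hI hB16
        (fun z hz => hz₀ z (le_trans hBz hz)) hH hnb
    have hterm : ∀ i ∈ range I,
        ∑ p ∈ (Ioc (B ^ (2 ^ i)) ((B ^ (2 ^ i)) ^ 2)).filter Nat.Prime,
          1 / (p : ℝ) * (1 / ((H / p : ℕ) : ℝ) * ∑ n ∈ Ioc ⌊X⌋₊ ⌊2 * X⌋₊,
          (((range (H / p)).filter (fun t => Bad B Set.univ (ε₁ / 8) (n / p + t))).card : ℝ))
        ≤ 6 / 800 * ε₁ ^ 2 * X := by
      intro i hi
      have hi' : i < I := Finset.mem_range.mp hi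
      have hZ4 : 4 ≤ B ^ (2 ^ i) := by
        calc 4 ≤ B := hB4
          _ = B ^ 1 := (pow_one B).symm
          _ ≤ B ^ (2 ^ i) := Nat.pow_le_pow_right hB1 Nat.one_le_two_pow
      have hpow2 : (B ^ (2 ^ i)) ^ 2 = B ^ (2 ^ (i + 1)) := by
        rw [← pow_mul]; congr 1
      have h2i : 1 ≤ 2 ^ i := Nat.one_le_two_pow
      have e1 : 2 ^ (i + 1) = 2 * 2 ^ i := by ring
      have e2 : 2 ^ (i + 2) = 4 * 2 ^ i := by ring
      have hZX : 4 * ((B ^ (2 ^ i) : ℕ) : ℝ) ^ 2 ≤ X := by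
        have h1 : 4 * (B ^ (2 ^ i)) ^ 2 ≤ B ^ (1 + 2 ^ (i + 1)) := by
          rw [hpow2, pow_add B 1, pow_one]
          exact Nat.mul_le_mul_right _ hB4
        have h2 : (B : ℝ) ^ (1 + 2 ^ (i + 1)) ≤ X := hexp i hi' _ (by omega)
        have h3 : (4 * ((B ^ (2 ^ i) : ℕ) : ℝ) ^ 2) ≤ (B : ℝ) ^ (1 + 2 ^ (i + 1)) := by
          exact_mod_cast h1
        linarith
      have hZH : (B ^ (2 ^ i)) ^ 2 ≤ H := by
        rw [hpow2]
        refine le_trans (Nat.pow_le_pow_right hB1 ?_) hH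
        exact Nat.pow_le_pow_right (by norm_num) (by omega)
      have hNA := NA_main C hC (Bad B Set.univ (ε₁ / 8)) H (B ^ (2 ^ i)) X hZ4 hZX hX hZH
      refine le_trans hNA ?_
      have hZreal : (4 : ℝ) ≤ ((B ^ (2 ^ i) : ℕ) : ℝ) := by exact_mod_cast hZ4
      have hZpos : (0 : ℝ) < ((B ^ (2 ^ i) : ℕ) : ℝ) := by linarith
      have hlog : 0 < Real.log ((B ^ (2 ^ i) : ℕ) : ℝ) := Real.log_pos (by linarith)
      have hmass : mass (Bad B Set.univ (ε₁ / 8)) (((B ^ (2 ^ i) : ℕ) : ℝ) ^ 2)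
          (3 * X / ((B ^ (2 ^ i) : ℕ) : ℝ)) ≤
          ε₁ ^ 2 / (800 * C) * Real.log (((B ^ (2 ^ i) : ℕ) : ℝ) ^ 2) := by
        apply hK₀ B hBK
        · have h1 : B ≤ (B ^ (2 ^ i)) ^ 2 := by
            rw [hpow2]
            calc B = B ^ 1 := (pow_one B).symm
              _ ≤ B ^ (2 ^ (i + 1)) := Nat.pow_le_pow_right hB1 Nat.one_le_two_pow
          exact_mod_cast h1
        · rw [le_div_iff₀ hZpos]
          have h2 : (B : ℝ) ^ (1 + 3 * 2 ^ i) ≤ X := hexp i hi' _ (by omega)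
          have h3 : (B : ℝ) * ((B ^ (2 ^ i) : ℕ) : ℝ) ^ 2 * ((B ^ (2 ^ i) : ℕ) : ℝ)
              = (B : ℝ) ^ (1 + 3 * 2 ^ i) := by
            push_cast
            rw [← pow_mul, mul_assoc, ← pow_add, pow_add (B : ℝ) 1, pow_one]
            congr 2
            ring
          rw [h3]
          linarith
      rw [Real.log_pow] at hmass
      push_cast at hmass
      have hcoef : 0 ≤ 3 * C * X / Real.log ((B ^ (2 ^ i) : ℕ) : ℝ) := by positivity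
      calc 3 * C * X / Real.log ((B ^ (2 ^ i) : ℕ) : ℝ) *
            mass (Bad B Set.univ (ε₁ / 8)) (((B ^ (2 ^ i) : ℕ) : ℝ) ^ 2)
              (3 * X / ((B ^ (2 ^ i) : ℕ) : ℝ))
          ≤ 3 * C * X / Real.log ((B ^ (2 ^ i) : ℕ) : ℝ) *
            (ε₁ ^ 2 / (800 * C) * (2 * Real.log ((B ^ (2 ^ i) : ℕ) : ℝ))) := by
            apply mul_le_mul_of_nonneg_left _ hcoef
            push_cast
            exact hmass
        _ = 6 / 800 * ε₁ ^ 2 * X := by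
            field_simp
            ring
    have hmain : (bad.card : ℝ) * (ε₁ / 8 * ((I : ℝ) / 8)) ≤ (I : ℝ) * (6 / 800 * ε₁ ^ 2 * X) := by
      calc (bad.card : ℝ) * (ε₁ / 8 * ((I : ℝ) / 8))
          = ∑ n ∈ bad, (ε₁ / 8 * ((I : ℝ) / 8)) := by rw [Finset.sum_const, nsmul_eq_mul]
        _ ≤ ∑ n ∈ bad, ∑ i ∈ range I,
            ∑ p ∈ (Ioc (B ^ (2 ^ i)) ((B ^ (2 ^ i)) ^ 2)).filter Nat.Prime,
            1 / (p : ℝ) * (1 / ((H / p : ℕ) : ℝ) *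
            (((range (H / p)).filter (fun t => Bad B Set.univ (ε₁ / 8) (n / p + t))).card : ℝ)) :=
            Finset.sum_le_sum hNB
        _ ≤ ∑ n ∈ Ioc ⌊X⌋₊ ⌊2 * X⌋₊, ∑ i ∈ range I,
            ∑ p ∈ (Ioc (B ^ (2 ^ i)) ((B ^ (2 ^ i)) ^ 2)).filter Nat.Prime,
            1 / (p : ℝ) * (1 / ((H / p : ℕ) : ℝ) *
            (((range (H / p)).filter (fun t => Bad B Set.univ (ε₁ / 8) (n / p + t))).card : ℝ)) := by
            apply Finset.sum_le_sum_of_subset_of_nonneg (Finset.filter_subset _ _)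
            intro n _ _
            apply Finset.sum_nonneg
            intro i _
            apply Finset.sum_nonneg
            intro p _
            positivity
        _ = ∑ i ∈ range I, ∑ p ∈ (Ioc (B ^ (2 ^ i)) ((B ^ (2 ^ i)) ^ 2)).filter Nat.Prime,
            1 / (p : ℝ) * (1 / ((H / p : ℕ) : ℝ) * ∑ n ∈ Ioc ⌊X⌋₊ ⌊2 * X⌋₊,
            (((range (H / p)).filter (fun t => Bad B Set.univ (ε₁ / 8) (n / p + t))).card : ℝ)) := by
            rw [Finset.sum_comm]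
            apply Finset.sum_congr rfl
            intro i _
            rw [Finset.sum_comm]
            apply Finset.sum_congr rfl
            intro p _
            rw [Finset.mul_sum, Finset.mul_sum]
        _ ≤ ∑ i ∈ range I, 6 / 800 * ε₁ ^ 2 * X := Finset.sum_le_sum hterm
        _ = (I : ℝ) * (6 / 800 * ε₁ ^ 2 * X) := by
            rw [Finset.sum_const, nsmul_eq_mul, Finset.card_range]
    have h1 : ε₁ * X * (ε₁ / 8 * ((I : ℝ) / 8)) < (bad.card : ℝ) * (ε₁ / 8 * ((I : ℝ) / 8)) :=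
      mul_lt_mul_of_pos_right hcase (by positivity)
    have h2 : ε₁ * X * (ε₁ / 8 * ((I : ℝ) / 8)) = (1 / 64) * (ε₁ ^ 2 * X * I) := by ring
    have h3 : (I : ℝ) * (6 / 800 * ε₁ ^ 2 * X) = (6 / 800) * (ε₁ ^ 2 * X * I) := by ring
    have h4 : 0 < ε₁ ^ 2 * X * I := by positivity
    rw [h2] at h1
    rw [h3] at hmain
    nlinarith

end Pool.Agent.H6.FU
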