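import Pool.Agent.H6.FU.Defs

/-!
# NDA: dyadic decomposition

Statement: under `Natural`, for `H ≥ H₀(ε)` and reals `H ≤ Y ≤ X`:
`∑_{n ∈ [Y,X]} (⨆ α, ‖S H n α‖)/n ≤ 2εH(log(X/Y) + 1) + 1`.

Proof. `f(n) = ⨆ α, ‖S H n α‖ ∈ [0,H]`. If `n = Y` is an integer it contributes `≤ H/Y ≤ 1`; the other `n` satisfy `n > Y`. For `j ≥ 0` the
integers `n ∈ (⌊2^jY⌋, ⌊2^{j+1}Y⌋]` satisfy `n > 2^j Y`, so `∑ f(n)/n ≤ (1/(2^jY)) εH 2^jY = εH` by `Natural` with `X := 2^jY ≥ H`.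
The blocks `j = 0, …, J` cover `(Y, X]` if `2^{J+1}Y ≥ X`; take `J = ⌊log(X/Y)/log 2⌋₊`, so that the number of blocks is
`J + 1 ≤ log(X/Y)/log 2 + 1 ≤ 2(log(X/Y) + 1)` (`log 2 ≥ 1/2`).
-/

namespace Pool.Agent.H6.FU

open Finset

theorem NDA_f_nonneg (H n : ℕ) : 0 ≤ ⨆ α : ℝ, ‖S H n α‖ :=
  Real.iSup_nonneg fun _ => norm_nonneg _

theorem NDA_f_le (H n : ℕ) : (⨆ α : ℝ, ‖S H n α‖) ≤ H :=
  ciSup_le fun α => norm_S_le H n α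

/-- one dyadic block -/
theorem NDA_block {ε : ℝ} {H : ℕ} {Z : ℝ} (hZ : 0 < Z)
    (h : (∑ n ∈ Finset.Ioc ⌊Z⌋₊ ⌊2 * Z⌋₊, (⨆ α : ℝ, ‖S H n α‖)) ≤ ε * (H : ℝ) * Z) :
    (∑ n ∈ Finset.Ioc ⌊Z⌋₊ ⌊2 * Z⌋₊, (⨆ α : ℝ, ‖S H n α‖) / (n : ℝ)) ≤ ε * H := by
  have h1 : (∑ n ∈ Finset.Ioc ⌊Z⌋₊ ⌊2 * Z⌋₊, (⨆ α : ℝ, ‖S H n α‖) / (n : ℝ))
      ≤ ∑ n ∈ Finset.Ioc ⌊Z⌋₊ ⌊2 * Z⌋₊, (⨆ α : ℝ, ‖S H n α‖) / Z := by
    apply sum_le_sum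
    intro n hn
    have hn' : Z < n := Nat.lt_of_floor_lt (mem_Ioc.1 hn).1
    exact div_le_div_of_nonneg_left (NDA_f_nonneg H n) hZ hn'.le
  refine h1.trans ?_
  rw [← sum_div, div_le_iff₀ hZ]
  exact h

theorem NDA_sum {ε : ℝ} {H : ℕ} (hN : ∀ X : ℝ, (H : ℝ) ≤ X →
    (∑ n ∈ Finset.Ioc ⌊X⌋₊ ⌊2 * X⌋₊, (⨆ α : ℝ, ‖S H n α‖)) ≤ ε * (H : ℝ) * X)
    (hH : 1 ≤ H) {Y : ℝ} (hY : (H : ℝ) ≤ Y) (J : ℕ) :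
    (∑ n ∈ Finset.Ioc ⌊Y⌋₊ ⌊2 ^ J * Y⌋₊, (⨆ α : ℝ, ‖S H n α‖) / (n : ℝ)) ≤ J * (ε * H) := by
  have hHr : (1 : ℝ) ≤ H := by exact_mod_cast hH
  have hY0 : 0 < Y := by linarith
  induction J with
  | zero => simp
  | succ J ih =>
    have h1 : (1 : ℝ) ≤ 2 ^ J := one_le_pow₀ (by norm_num)
    have hle : Y ≤ 2 ^ J * Y := by nlinarith
    have h2 : ⌊Y⌋₊ ≤ ⌊2 ^ J * Y⌋₊ := Nat.floor_le_floor hle
    have h3 : ⌊2 ^ J * Y⌋₊ ≤ ⌊2 ^ (J + 1) * Y⌋₊ := by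
      apply Nat.floor_le_floor
      rw [pow_succ]
      nlinarith
    rw [← sum_Ioc_consecutive _ h2 h3]
    have h4 : (∑ n ∈ Finset.Ioc ⌊2 ^ J * Y⌋₊ ⌊2 ^ (J + 1) * Y⌋₊,
        (⨆ α : ℝ, ‖S H n α‖) / (n : ℝ)) ≤ ε * H := by
      have h5 : (2 : ℝ) ^ (J + 1) * Y = 2 * (2 ^ J * Y) := by ring
      rw [h5]
      exact NDA_block (by positivity) (hN _ (hY.trans hle))
    push_cast
    linarith

theorem NDA_main (h : Natural) (ε : ℝ) (hε : 0 < ε) :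
    ∃ H₀ : ℕ, ∀ H : ℕ, H₀ ≤ H → 1 ≤ H → ∀ Y X : ℝ, (H : ℝ) ≤ Y → Y ≤ X →
      (∑ n ∈ Icc ⌈Y⌉₊ ⌊X⌋₊, (⨆ α : ℝ, ‖S H n α‖) / (n : ℝ)) ≤ 2 * ε * H * (Real.log (X / Y) + 1) + 1 := by
  obtain ⟨H₀, hH₀⟩ := h ε hε
  refine ⟨H₀, fun H hH hH1 Y X hHY hYX => ?_⟩
  have hHr : (1 : ℝ) ≤ H := by exact_mod_cast hH1
  have hY0 : 0 < Y := by linarith
  have hX0 : 0 < X := by linarith
  have hq : 1 ≤ X / Y := by rw [le_div_iff₀ hY0]; linarith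
  have hlog : 0 ≤ Real.log (X / Y) := Real.log_nonneg hq
  have hl2 : 0 < Real.log 2 := Real.log_pos (by norm_num)
  have hl2' : 1 / 2 ≤ Real.log 2 := by linarith [Real.log_two_gt_d9]
  set J := ⌊Real.log (X / Y) / Real.log 2⌋₊ with hJ
  have hJ1 : Real.log (X / Y) / Real.log 2 < J + 1 := Nat.lt_floor_add_one _
  have hJ2 : (J : ℝ) ≤ Real.log (X / Y) / Real.log 2 := Nat.floor_le (by positivity)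
  have hXle : X ≤ 2 ^ (J + 1) * Y := by
    rw [div_lt_iff₀ hl2] at hJ1
    have h1 : Real.log (X / Y) ≤ Real.log ((2 : ℝ) ^ (J + 1)) := by
      rw [Real.log_pow]
      push_cast
      linarith
    have h2 := (Real.log_le_log_iff (by positivity) (by positivity)).1 h1
    rwa [div_le_iff₀ hY0] at h2
  have hsub : Icc ⌈Y⌉₊ ⌊X⌋₊ ⊆ insert ⌊Y⌋₊ (Finset.Ioc ⌊Y⌋₊ ⌊2 ^ (J + 1) * Y⌋₊) := by
    intro n hn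
    rw [mem_Icc] at hn
    rw [mem_insert, mem_Ioc]
    have h1 : ⌊Y⌋₊ ≤ n := (Nat.floor_le_ceil Y).trans hn.1
    rcases h1.eq_or_lt with h2 | h2
    · exact Or.inl h2.symm
    · exact Or.inr ⟨h2, hn.2.trans (Nat.floor_le_floor hXle)⟩
  have hnn : ∀ n : ℕ, 0 ≤ (⨆ α : ℝ, ‖S H n α‖) / (n : ℝ) := fun n =>
    div_nonneg (NDA_f_nonneg H n) (Nat.cast_nonneg n)
  have h1 := sum_le_sum_of_subset_of_nonneg hsub (f := fun n : ℕ => (⨆ α : ℝ, ‖S H n α‖) / (n : ℝ))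
    (fun n _ _ => hnn n)
  rw [sum_insert (by simp)] at h1
  have h2 := NDA_sum (ε := ε) (fun X hX => hH₀ H hH hH1 X hX) hH1 hHY (J + 1)
  have hfl : (H : ℝ) ≤ (⌊Y⌋₊ : ℝ) := by exact_mod_cast Nat.le_floor hHY
  have h3 : (⨆ α : ℝ, ‖S H ⌊Y⌋₊ α‖) / ((⌊Y⌋₊ : ℕ) : ℝ) ≤ 1 := by
    rw [div_le_one (by linarith)]
    exact (NDA_f_le H _).trans hfl
  have h4 : (J : ℝ) ≤ 2 * Real.log (X / Y) := by
    refine hJ2.trans ?_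
    rw [div_le_iff₀ hl2]
    nlinarith
  have h5 : ((J + 1 : ℕ) : ℝ) * (ε * H) ≤ 2 * ε * H * (Real.log (X / Y) + 1) := by
    have h6 : ((J + 1 : ℕ) : ℝ) ≤ 2 * (Real.log (X / Y) + 1) := by
      push_cast; linarith
    have h7 : 0 ≤ ε * H := by positivity
    calc ((J + 1 : ℕ) : ℝ) * (ε * H) ≤ 2 * (Real.log (X / Y) + 1) * (ε * H) :=
          mul_le_mul_of_nonneg_right h6 h7
      _ = _ := by ring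
  linarith

end Pool.Agent.H6.FU
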