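import Pool.Agent.H6.FU.DAV
import Pool.Agent.H6.FU.NDA

/-!
# ND: `Natural → Q1`

Proof. 1. (`ND_small`) for `H` large and `n < H`: `⨆ α, ‖S H n α‖ ≤ εH`. Indeed `S H n α = e(-nα)(S (n+H) 0 α - S n 0 α)`, so with
`N₀` from `DAV_main` for `ε/4`: `‖S H n α‖ ≤ (ε/4)(n+H) + max(N₀, (ε/4)n) ≤ (3ε/4)H + N₀ ≤ εH` if `H ≥ 4N₀/ε`, `H ≥ N₀`.
2. Let `ε > 0`, `H` large, `H ≤ ω ≤ X`. The integers `n ∈ [X/ω, X]` with `n ≥ H` lie in `[Y, X]` with `Y = max (X/ω) H`, `X/Y ≤ ω`,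
so by `NDA_main` (with `ε/8`) they contribute at most `(ε/4)H(log ω + 1) + 1 ≤ (ε/2) H log ω`. The `n < H` (and `n ≥ 1`)
contribute at most `(ε/8)H ∑_{1≤n<H} 1/n ≤ (ε/8)H(log H + 1) ≤ (ε/4) H log ω` by 1. with `ε/8`.
-/

namespace Pool.Agent.H6.FU

open Finset

theorem ND_range (H n : ℕ) (α : ℝ) : S H n α = ∑ i ∈ Finset.range H,
    ((-1 : ℂ) ^ (ArithmeticFunction.cardFactors (n + (i + 1)))) *
      Complex.exp (2 * (Real.pi : ℂ) * Complex.I * ((i + 1 : ℕ) : ℂ) * (α : ℂ)) := by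
  unfold S
  rw [Finset.range_eq_Ico, Finset.sum_Ico_add' (fun h : ℕ =>
    ((-1 : ℂ) ^ (ArithmeticFunction.cardFactors (n + h))) *
      Complex.exp (2 * (Real.pi : ℂ) * Complex.I * (h : ℂ) * (α : ℂ))) 0 H 1]
  apply Finset.sum_congr _ (fun _ _ => rfl)
  ext x
  simp only [Finset.mem_Icc, Finset.mem_Ico]
  omega

theorem ND_shift (H n : ℕ) (α : ℝ) : S (n + H) 0 α = S n 0 α +
    Complex.exp (2 * (Real.pi : ℂ) * Complex.I * (n : ℂ) * (α : ℂ)) * S H n α := by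
  rw [ND_range, ND_range, ND_range, Finset.sum_range_add, Finset.mul_sum]
  congr 1
  apply Finset.sum_congr rfl
  intro i _
  have h1 : 0 + (n + i + 1) = n + (i + 1) := by ring
  rw [h1, mul_left_comm, ← Complex.exp_add]
  congr 2
  push_cast
  ring

theorem ND_norm (H n : ℕ) (α : ℝ) : ‖S H n α‖ ≤ ‖S (n + H) 0 α‖ + ‖S n 0 α‖ := by
  have h1 : ‖Complex.exp (2 * (Real.pi : ℂ) * Complex.I * (n : ℂ) * (α : ℂ))‖ = 1 := by
    rw [Complex.norm_exp]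
    simp
  have h2 : Complex.exp (2 * (Real.pi : ℂ) * Complex.I * (n : ℂ) * (α : ℂ)) * S H n α
      = S (n + H) 0 α - S n 0 α := by
    rw [ND_shift]; ring
  calc ‖S H n α‖ = ‖Complex.exp (2 * (Real.pi : ℂ) * Complex.I * (n : ℂ) * (α : ℂ)) * S H n α‖ := by
        rw [norm_mul, h1, one_mul]
    _ = ‖S (n + H) 0 α - S n 0 α‖ := by rw [h2]
    _ ≤ _ := norm_sub_le _ _

theorem ND_small (h : Natural) (ε : ℝ) (hε : 0 < ε) :
    ∃ H₀ : ℕ, ∀ H : ℕ, H₀ ≤ H → ∀ n : ℕ, n < H → (⨆ α : ℝ, ‖S H n α‖) ≤ ε * H := by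
  obtain ⟨N₀, hN₀⟩ := DAV_main h (ε / 4) (by positivity)
  refine ⟨max N₀ ⌈4 * N₀ / ε⌉₊, fun H hH n hn => ciSup_le fun α => ?_⟩
  have hH1 : N₀ ≤ H := (le_max_left _ _).trans hH
  have hH2 : 4 * (N₀ : ℝ) / ε ≤ H := Nat.ceil_le.1 ((le_max_right _ _).trans hH)
  have hH3 : (N₀ : ℝ) ≤ ε / 4 * H := by
    rw [div_le_iff₀ hε] at hH2
    linarith
  have hnH : (n : ℝ) ≤ H := by exact_mod_cast hn.le
  have h1 : ‖S (n + H) 0 α‖ ≤ ε / 4 * ((n + H : ℕ) : ℝ) := hN₀ (n + H) (by omega) α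
  have h2 : ‖S n 0 α‖ ≤ ε / 4 * H := by
    rcases le_or_gt N₀ n with hc | hc
    · exact (hN₀ n hc α).trans (mul_le_mul_of_nonneg_left hnH (by positivity))
    · have h3 : (n : ℝ) ≤ N₀ := by exact_mod_cast hc.le
      exact (norm_S_le n 0 α).trans (h3.trans hH3)
  have h4 := ND_norm H n α
  push_cast at h1
  have h5 : ε / 4 * (n + H) ≤ ε / 4 * (H + H) := mul_le_mul_of_nonneg_left (by linarith) (by positivity)
  have h6 : 0 ≤ ε * H := by positivity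
  linarith

theorem ND_harm (H : ℕ) (hH : 1 ≤ H) : (∑ n ∈ Icc 1 H, 1 / (n : ℝ)) ≤ 1 + Real.log H := by
  have h1 := harmonic_le_one_add_log H
  have h2 : ((harmonic H : ℚ) : ℝ) = ∑ n ∈ Icc 1 H, 1 / (n : ℝ) := by
    rw [harmonic_eq_sum_Icc]
    push_cast
    simp only [one_div]
  rw [← h2]
  exact h1

theorem ND_main (h : Natural) : Q1 := by
  intro ε hε
  obtain ⟨H₁, hH₁⟩ := ND_small h (ε / 8) (by positivity)
  obtain ⟨H₂, hH₂⟩ := NDA_main h (ε / 8) (by positivity)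
  refine ⟨max (max H₁ H₂) (max 3 ⌈4 / ε⌉₊), fun H hH hH1 ω X hHω hωX => ?_⟩
  have hHa : H₁ ≤ H := (le_max_left _ _).trans ((le_max_left _ _).trans hH)
  have hHb : H₂ ≤ H := (le_max_right _ _).trans ((le_max_left _ _).trans hH)
  have hHc : 3 ≤ H := (le_max_left _ _).trans ((le_max_right _ _).trans hH)
  have hHd : 4 / ε ≤ H := Nat.ceil_le.1 ((le_max_right _ _).trans ((le_max_right _ _).trans hH))
  have hHr : (3 : ℝ) ≤ H := by exact_mod_cast hHc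
  have hω0 : 0 < ω := by linarith
  have hX0 : 0 < X := by linarith
  have hXω : 1 ≤ X / ω := by rw [le_div_iff₀ hω0]; linarith
  have hlogH : 1 ≤ Real.log H := by
    rw [Real.le_log_iff_exp_le (by linarith)]
    exact (Real.exp_one_lt_d9.le.trans (by norm_num)).trans hHr
  have hlogω : Real.log H ≤ Real.log ω := Real.log_le_log (by linarith) hHω
  have hlog1 : 1 ≤ Real.log ω := hlogH.trans hlogω
  set Y := max (X / ω) (H : ℝ) with hY
  have hHY : (H : ℝ) ≤ Y := le_max_right _ _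
  have hYX : Y ≤ X := by
    apply max_le
    · exact div_le_self hX0.le (by linarith)
    · linarith
  have hY0 : 0 < Y := by linarith
  have hXY : X / Y ≤ ω := by
    rw [div_le_iff₀ hY0]
    have h1 : X / ω ≤ Y := le_max_left _ _
    rw [div_le_iff₀ hω0] at h1
    linarith
  have hXY1 : 0 < X / Y := by positivity
  have hlogXY : Real.log (X / Y) ≤ Real.log ω := Real.log_le_log hXY1 hXY
  have hbig := hH₂ H hHb hH1 Y X hHY hYX
  have hnn : ∀ n : ℕ, 0 ≤ (⨆ α : ℝ, ‖S H n α‖) / (n : ℝ) := fun n =>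
    div_nonneg (NDA_f_nonneg H n) (Nat.cast_nonneg n)
  have hsub : Icc ⌈X / ω⌉₊ ⌊X⌋₊ ⊆ (Icc 1 H).filter (· < H) ∪ Icc ⌈Y⌉₊ ⌊X⌋₊ := by
    intro n hn
    rw [mem_Icc] at hn
    have hn1 : X / ω ≤ n := Nat.ceil_le.1 hn.1
    rw [mem_union, mem_filter, mem_Icc, mem_Icc]
    rcases lt_or_ge n H with hc | hc
    · left
      refine ⟨⟨?_, hc.le⟩, hc⟩
      have : (1 : ℝ) ≤ n := hXω.trans hn1
      exact_mod_cast this
    · right
      refine ⟨?_, hn.2⟩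
      rw [Nat.ceil_le]
      exact max_le hn1 (by exact_mod_cast hc)
  have h1 := sum_le_sum_of_subset_of_nonneg hsub (f := fun n : ℕ => (⨆ α : ℝ, ‖S H n α‖) / (n : ℝ))
    (fun n _ _ => hnn n)
  have h2 : (∑ n ∈ (Icc 1 H).filter (· < H) ∪ Icc ⌈Y⌉₊ ⌊X⌋₊, (⨆ α : ℝ, ‖S H n α‖) / (n : ℝ)) ≤
      (∑ n ∈ (Icc 1 H).filter (· < H), (⨆ α : ℝ, ‖S H n α‖) / (n : ℝ)) +
      ∑ n ∈ Icc ⌈Y⌉₊ ⌊X⌋₊, (⨆ α : ℝ, ‖S H n α‖) / (n : ℝ) := by
    rw [← sum_union_inter]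
    have := sum_nonneg (s := (Icc 1 H).filter (· < H) ∩ Icc ⌈Y⌉₊ ⌊X⌋₊) (fun n _ => hnn n)
    linarith
  have h3 : (∑ n ∈ (Icc 1 H).filter (· < H), (⨆ α : ℝ, ‖S H n α‖) / (n : ℝ)) ≤
      ε / 8 * H * (1 + Real.log H) := by
    calc (∑ n ∈ (Icc 1 H).filter (· < H), (⨆ α : ℝ, ‖S H n α‖) / (n : ℝ))
        ≤ ∑ n ∈ (Icc 1 H).filter (· < H), ε / 8 * H * (1 / (n : ℝ)) := by
          apply sum_le_sum
          intro n hn
          rw [mem_filter, mem_Icc] at hn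
          rw [mul_one_div]
          have := hH₁ H hHa n hn.2
          gcongr
      _ ≤ ∑ n ∈ Icc 1 H, ε / 8 * H * (1 / (n : ℝ)) := by
          apply sum_le_sum_of_subset_of_nonneg (filter_subset _ _)
          intro n _ _
          positivity
      _ = ε / 8 * H * ∑ n ∈ Icc 1 H, 1 / (n : ℝ) := by rw [mul_sum]
      _ ≤ _ := mul_le_mul_of_nonneg_left (ND_harm H hH1) (by positivity)
  have hεH : 0 < ε * H := by positivity
  have h4 : ε / 8 * H * (1 + Real.log H) ≤ ε * H * Real.log ω / 4 := by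
    have : ε * H * (1 + Real.log H) ≤ ε * H * (2 * Real.log ω) :=
      mul_le_mul_of_nonneg_left (by linarith) hεH.le
    linarith
  have h5 : 2 * (ε / 8) * H * (Real.log (X / Y) + 1) ≤ ε * H * Real.log ω / 2 := by
    have : ε * H * (Real.log (X / Y) + 1) ≤ ε * H * (2 * Real.log ω) :=
      mul_le_mul_of_nonneg_left (by linarith) hεH.le
    linarith
  have h6 : 1 ≤ ε * H * Real.log ω / 4 := by
    have h7 : 4 ≤ ε * H := by
      rw [div_le_iff₀ hε] at hHd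
      linarith
    have h8 : 4 * 1 ≤ ε * H * Real.log ω := mul_le_mul h7 hlog1 (by norm_num) hεH.le
    linarith
  linarith

end Pool.Agent.H6.FU
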