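import Pool.Agent.H6.FU.Defs

/-!
# SUP: from averages of suprema to densities

1. `Q1 → Q1On U`: `⨆ α : U, ‖S‖ ≤ ⨆ α : ℝ, ‖S‖` (`bddAbove_S`; if `U` is empty the left side is `0`).
2. `Q1On U → DensLE U ε 0` for every `ε > 0`: if `Bad H U ε n` then `εH ≤ ⨆ α : U, ‖S H n α‖` (`bddAbove_S_on`), so
`εH mass(Bad) ≤ ∑ (⨆ ..)/n ≤ (εc') H log ω`; `ω ≤ Hω ≤ X` as `H ≥ 1`.
3. `DensLE` is monotone in `U`, antitone in `ε`, monotone in `c` (`log ω ≥ 0`).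
-/

namespace Pool.Agent.H6.FU

open Finset

theorem SUP_on (U : Set ℝ) (h : Q1) : Q1On U := by
  intro ε hε
  obtain ⟨H₀, hH⟩ := h ε hε
  refine ⟨H₀, fun H h1 h2 ω X h3 h4 => le_trans (sum_le_sum fun n _ => ?_) (hH H h1 h2 ω X h3 h4)⟩
  refine div_le_div_of_nonneg_right ?_ (Nat.cast_nonneg n)
  rcases isEmpty_or_nonempty U with he | hne
  · rw [Real.iSup_of_isEmpty]
    exact Real.iSup_nonneg fun α => norm_nonneg _
  · exact ciSup_le fun α => le_ciSup (bddAbove_S H n) (α : ℝ)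

theorem SUP_dens (U : Set ℝ) (h : Q1On U) (ε : ℝ) (hε : 0 < ε) : DensLE U ε 0 := by
  classical
  intro c' hc'
  obtain ⟨H₀, hH⟩ := h (ε * c') (by positivity)
  refine ⟨max H₀ 1, fun H h1 ω X h3 h4 => ?_⟩
  have hH1 : 1 ≤ H := le_trans (le_max_right _ _) h1
  have hH1' : (1 : ℝ) ≤ H := by exact_mod_cast hH1
  have hω : 0 < ω := by linarith
  have hωX : ω ≤ X := by nlinarith
  have key := hH H (le_trans (le_max_left _ _) h1) hH1 ω X h3 hωX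
  have h5 : ε * (H : ℝ) * mass (Bad H U ε) ω X ≤
      ∑ n ∈ Icc ⌈X / ω⌉₊ ⌊X⌋₊, (⨆ α : U, ‖S H n α‖) / (n : ℝ) := by
    unfold mass
    rw [mul_sum]
    calc ∑ n ∈ (Icc ⌈X / ω⌉₊ ⌊X⌋₊).filter (Bad H U ε), ε * (H : ℝ) * (1 / (n : ℝ))
        ≤ ∑ n ∈ (Icc ⌈X / ω⌉₊ ⌊X⌋₊).filter (Bad H U ε), (⨆ α : U, ‖S H n α‖) / (n : ℝ) := by
          refine sum_le_sum fun n hn => ?_
          obtain ⟨α, hα, hb⟩ := (mem_filter.1 hn).2
          rw [mul_one_div]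
          exact div_le_div_of_nonneg_right (hb.trans (le_ciSup (bddAbove_S_on H n U) ⟨α, hα⟩)) (Nat.cast_nonneg n)
      _ ≤ _ := by
          refine sum_le_sum_of_subset_of_nonneg (filter_subset _ _) fun n _ _ => ?_
          exact div_nonneg (Real.iSup_nonneg fun α => norm_nonneg _) (Nat.cast_nonneg n)
  have h6 : ε * (H : ℝ) * mass (Bad H U ε) ω X ≤ ε * (H : ℝ) * (c' * Real.log ω) := by
    refine (h5.trans key).trans (le_of_eq (by ring))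
  exact le_of_mul_le_mul_left h6 (by positivity)

theorem SUP_univ (h : Q1) (ε : ℝ) (hε : 0 < ε) : DensLE Set.univ ε 0 :=
  SUP_dens _ (SUP_on _ h) ε hε

theorem SUP_mono (U V : Set ℝ) (ε ε' c d : ℝ) (hU : U ⊆ V) (hε : ε' ≤ ε) (hc : c ≤ d) (h : DensLE V ε' c) :
    DensLE U ε d := by
  classical
  intro c' hc'
  obtain ⟨H₀, hH⟩ := h c' (lt_of_le_of_lt hc hc')
  refine ⟨H₀, fun H h1 ω X h3 h4 => le_trans ?_ (hH H h1 ω X h3 h4)⟩
  unfold mass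
  refine sum_le_sum_of_subset_of_nonneg ?_ fun n _ _ => by positivity
  intro n hn
  rw [mem_filter] at hn ⊢
  obtain ⟨hn1, α, hα, hb⟩ := hn
  exact ⟨hn1, α, hU hα, le_trans (by gcongr) hb⟩

end Pool.Agent.H6.FU
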