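import Pool.Agent.H6.FU.Defs

/-!
# WEI: trigonometric approximation of a continuous periodic function

Proof. `Ψ` descends to a continuous function on `AddCircle (1:ℝ)` (`Function.Periodic.lift`), and the span of the monomials
`fourier k` is dense in `C(AddCircle 1, ℂ)` (`span_fourier_closure_eq_top`). An element of the span is a finite combination
`∑_{k ∈ s} c_k fourier k`; extend `c` by `0` and choose `K` with `s ⊆ [-K, K]`. `fourier_coe_apply`.
-/

namespace Pool.Agent.H6.FU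

open Finset

theorem WEI_main (Ψ : ℝ → ℝ) (hc : Continuous Ψ) (hper : Function.Periodic Ψ 1) (κ : ℝ) (hκ : 0 < κ) :
    ∃ (K : ℕ) (c : ℤ → ℂ), ∀ x : ℝ,
      ‖(∑ k ∈ Icc (-(K : ℤ)) K, c k * Complex.exp (2 * (Real.pi : ℂ) * Complex.I * (k : ℂ) * (x : ℂ))) - (Ψ x : ℂ)‖ ≤ κ := by
  classical
  haveI : Fact ((0 : ℝ) < 1) := ⟨one_pos⟩
  let g : AddCircle (1 : ℝ) → ℂ := fun y => ((hper.lift y : ℝ) : ℂ)
  have hg : Continuous g := by
    refine Complex.continuous_ofReal.comp ?_
    exact continuous_coinduced_dom.2 hc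
  let G : C(AddCircle (1 : ℝ), ℂ) := ⟨g, hg⟩
  have hG : G ∈ (Submodule.span ℂ (Set.range <| @fourier (1 : ℝ))).topologicalClosure := by
    rw [span_fourier_closure_eq_top]
    trivial
  rw [← SetLike.mem_coe, Submodule.topologicalClosure_coe, Metric.mem_closure_iff] at hG
  obtain ⟨f, hf, hd⟩ := hG κ hκ
  obtain ⟨c, rfl⟩ := Finsupp.mem_span_range_iff_exists_finsupp.mp hf
  obtain ⟨K, hK⟩ : ∃ K : ℕ, c.support ⊆ Icc (-(K : ℤ)) K := by
    refine ⟨c.support.sup Int.natAbs, fun k hk => ?_⟩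
    have : k.natAbs ≤ c.support.sup Int.natAbs := le_sup (f := Int.natAbs) hk
    rw [mem_Icc]
    omega
  refine ⟨K, c, fun x => ?_⟩
  have h1 : ‖(c.sum fun i a => a • (fourier i : C(AddCircle (1 : ℝ), ℂ))) (x : AddCircle (1 : ℝ)) - G (x : AddCircle (1 : ℝ))‖ ≤ κ := by
    rw [← ContinuousMap.sub_apply]
    refine (ContinuousMap.norm_coe_le_norm _ _).trans ?_
    rw [dist_comm, dist_eq_norm] at hd
    exact hd.le
  have h2 : G (x : AddCircle (1 : ℝ)) = (Ψ x : ℂ) := rfl
  rw [h2] at h1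
  convert! h1 using 3
  rw [Finsupp.sum, ContinuousMap.sum_apply]
  symm
  refine sum_subset_zero_on_sdiff hK ?_ ?_
  · intro k hk
    have : c k = 0 := by simpa using (mem_sdiff.1 hk).2
    rw [this, zero_mul]
  · intro k _
    rw [ContinuousMap.smul_apply, fourier_coe_apply, smul_eq_mul]
    congr 2
    push_cast
    ring

end Pool.Agent.H6.FU
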