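import Pool.Agent.H6.FU.DK
import Pool.Agent.H6.FU.WEI
import Pool.Agent.H6.FU.CORR

/-!
# TAO: two-point correlations give absolute continuity

Proof of `TwoPoint → AC`. Given `ε, c > 0` put `η = cε²/16`, `κ = cε²/32`. Let `Ψ` be as in `AC`.
* `DK_main` (with `κ`) gives `J`.
* `WEI_main` for the continuous periodic function `2Ψ + 2κ`, with precision `κ`, gives `K`, `(c_k)`; put
  `P(x) = ∑_{|k|≤K} c_k e(kx)`; then `2Ψ + κ ≤ Re P ≤ 2Ψ + 3κ`, so `Re c_0 = Re ∫₀¹ P ≤ 2η + 3κ`.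
* `CORR_avg` for every `1 ≤ k ≤ K` with `ε₂ = κ/(1 + ∑|c_k|)`.
Let `H` be large, `H ≤ ω`, `Hω ≤ X`. If `n` is bad, i.e. `‖S H n α‖ ≥ εH` with `Ψ α ≥ 1`, then
`ε²H² ≤ (H+J) ∫ ‖S H n β‖² (2Ψ+κ) dβ ≤ (H+J) Re ∫ ‖S H n β‖² P(β) dβ =: (H+J) M(n)`, and `M(n) ≥ 0` for every `n`. By `CORR_main`
`M(n) = Re(c_0) H + ∑_{k≠0} Re(c_k) R_{|k|}(n)`, `R_k(n) = ∑_{h=1}^{H-k} λ(n+h)λ(n+h+k)`. Hence
`ε²H² mass(Bad) ≤ (H+J) ∑_{n∈[X/ω,X]} M(n)/n ≤ (H+J)[(2η+3κ) H (log ω + 1) + ∑_{k≠0}|c_k| ε₂ H log ω]`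
`≤ (H+J) H (2η+4κ)(log ω + 1)` (`GRP_total` for the first term). For `H` so large that `(1+J/H)(1 + 1/log H) ≤ 2`:
`mass(Bad) ≤ 2(2η+4κ)/ε² log ω = (c/2) log ω ≤ c' log ω` (`c' > c`).
-/

namespace Pool.Agent.H6.FU

open Finset

/-- The trigonometric polynomial. -/
private noncomputable def TAO_P (K : ℕ) (co : ℤ → ℂ) (x : ℝ) : ℂ :=
  ∑ k ∈ Icc (-(K : ℤ)) K, co k * Complex.exp (2 * (Real.pi : ℂ) * Complex.I * (k : ℂ) * (x : ℂ))

/-- The two point sum. -/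
private noncomputable def TAO_R (H n k : ℕ) : ℝ :=
  ∑ h ∈ Icc 1 (H - k), (-1 : ℝ) ^ (ArithmeticFunction.cardFactors (n + h)) *
          (-1 : ℝ) ^ (ArithmeticFunction.cardFactors (n + h + k))

private theorem TAO_cont (K : ℕ) (co : ℤ → ℂ) : Continuous (TAO_P K co) := by
  unfold TAO_P
  fun_prop

private theorem TAO_int (H n K : ℕ) (co : ℤ → ℂ) :
    (∫ β in (0 : ℝ)..1, ‖S H n β‖ ^ 2 * (TAO_P K co β).re)
      = ∑ k ∈ Icc (-(K : ℤ)) K, (co k).re * TAO_R H n k.natAbs := by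
  have hS := DK_continuous H n
  have h1 : (∫ β in (0 : ℝ)..1, ((‖S H n β‖ ^ 2 : ℝ) : ℂ) * TAO_P K co β)
      = ∑ k ∈ Icc (-(K : ℤ)) K, co k * ((TAO_R H n k.natAbs : ℝ) : ℂ) := by
    have h2 : ∀ β : ℝ, ((‖S H n β‖ ^ 2 : ℝ) : ℂ) * TAO_P K co β = ∑ k ∈ Icc (-(K : ℤ)) K,
        co k * (((‖S H n β‖ ^ 2 : ℝ) : ℂ) *
          Complex.exp (2 * (Real.pi : ℂ) * Complex.I * (k : ℂ) * (β : ℂ))) := by
      intro β
      unfold TAO_P
      rw [mul_sum]
      refine sum_congr rfl fun k _ => ?_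
      ring
    simp only [h2]
    rw [intervalIntegral.integral_finsetSum]
    · refine sum_congr rfl fun k _ => ?_
      rw [intervalIntegral.integral_const_mul, CORR_main]
      rfl
    · intro k _
      apply Continuous.intervalIntegrable
      fun_prop
  have h3 : IntervalIntegrable (fun β => ((‖S H n β‖ ^ 2 : ℝ) : ℂ) * TAO_P K co β)
      MeasureTheory.volume 0 1 := by
    apply Continuous.intervalIntegrable
    have := TAO_cont K co
    fun_prop
  have h4 := Complex.reCLM.intervalIntegral_comp_comm h3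
  have h5 : ∀ β : ℝ, Complex.reCLM (((‖S H n β‖ ^ 2 : ℝ) : ℂ) * TAO_P K co β)
      = ‖S H n β‖ ^ 2 * (TAO_P K co β).re := by
    intro β
    rw [Complex.reCLM_apply, Complex.re_ofReal_mul]
  simp only [h5] at h4
  rw [h4, h1, Complex.reCLM_apply, Complex.re_sum]
  refine sum_congr rfl fun k _ => ?_
  rw [Complex.re_mul_ofReal]

private theorem TAO_R0 (H n : ℕ) : TAO_R H n 0 = H := by
  unfold TAO_R
  have : ∀ h ∈ Icc 1 (H - 0), (-1 : ℝ) ^ (ArithmeticFunction.cardFactors (n + h)) *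
          (-1 : ℝ) ^ (ArithmeticFunction.cardFactors (n + h + 0)) = 1 := by
    intro h _
    rw [add_zero, ← mul_pow]
    norm_num
  rw [sum_congr rfl this]
  simp

private theorem TAO_norm1 (β : ℝ) : ‖S 1 0 β‖ = 1 := by
  unfold S
  rw [Icc_self, sum_singleton]
  exact norm_term 1 0 1 β

open Classical in
theorem TAO_main (hT : TwoPoint) : AC := by
  intro ε hε c hc
  refine ⟨c * ε ^ 2 / 16, by positivity, ?_⟩
  intro Ψ hΨc hper h0 hint c' hc'
  obtain ⟨κ, hκdef⟩ : ∃ κ, κ = c * ε ^ 2 / 32 := ⟨_, rfl⟩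
  have hκ : 0 < κ := by rw [hκdef]; positivity
  obtain ⟨J, hJ1, hJ⟩ := DK_main Ψ hΨc hper h0 κ hκ
  obtain ⟨K, co, hco⟩ := WEI_main (fun x => 2 * Ψ x + 2 * κ) (by fun_prop)
    (by intro x; simp only [hper x]) κ hκ
  have hPre : ∀ x, 2 * Ψ x + κ ≤ (TAO_P K co x).re ∧ (TAO_P K co x).re ≤ 2 * Ψ x + 3 * κ := by
    intro x
    have h1 := hco x
    have h2 := (Complex.abs_re_le_norm _).trans h1
    rw [Complex.sub_re, Complex.ofReal_re, abs_le] at h2
    unfold TAO_P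
    constructor
    · linarith [h2.1]
    · linarith [h2.2]
  have hPc := TAO_cont K co
  have hPrc : Continuous fun x => (TAO_P K co x).re := Complex.continuous_re.comp hPc
  -- the mean of `P`
  have hc0 : (co 0).re ≤ 2 * (c * ε ^ 2 / 16) + 3 * κ := by
    have h1 := TAO_int 1 0 K co
    have h2 : ∑ k ∈ Icc (-(K : ℤ)) K, (co k).re * TAO_R 1 0 k.natAbs = (co 0).re := by
      rw [sum_eq_single (0 : ℤ)]
      · rw [Int.natAbs_zero, TAO_R0]; simp
      · intro k _ hk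
        have h3 : 1 - k.natAbs = 0 := by
          have := Int.natAbs_pos.2 hk
          omega
        unfold TAO_R
        rw [h3]
        simp
      · intro h
        exact absurd (mem_Icc.2 ⟨by simp, by simp⟩) h
    rw [h2] at h1
    rw [← h1]
    simp only [TAO_norm1, one_pow, one_mul]
    have h3 : (∫ β in (0 : ℝ)..1, (TAO_P K co β).re) ≤ ∫ β in (0 : ℝ)..1, (2 * Ψ β + 3 * κ) := by
      apply intervalIntegral.integral_mono_on (by norm_num)
      · exact hPrc.intervalIntegrable _ _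
      · apply Continuous.intervalIntegrable
        fun_prop
      · intro x _
        exact (hPre x).2
    refine h3.trans ?_
    rw [intervalIntegral.integral_add, intervalIntegral.integral_const_mul]
    · simp only [intervalIntegral.integral_const, sub_zero, smul_eq_mul, one_mul]
      linarith
    · apply Continuous.intervalIntegrable
      fun_prop
    · apply Continuous.intervalIntegrable
      fun_prop
  -- the correlations
  obtain ⟨A, hA⟩ : ∃ A, A = ∑ k ∈ Icc (-(K : ℤ)) K, |(co k).re| := ⟨_, rfl⟩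
  have hA0 : 0 ≤ A := by rw [hA]; exact sum_nonneg fun _ _ => abs_nonneg _
  obtain ⟨ε₂, hε₂⟩ : ∃ ε₂, ε₂ = κ / (1 + A) := ⟨_, rfl⟩
  have hε₂0 : 0 < ε₂ := by rw [hε₂]; positivity
  have hAε : A * ε₂ ≤ κ := by
    rw [hε₂, ← mul_div_assoc, div_le_iff₀ (by positivity)]
    nlinarith
  have hcorr : ∀ k : ℕ, ∃ H₀ : ℕ, 1 ≤ k → ∀ H : ℕ, H₀ ≤ H → ∀ ω X : ℝ, (H : ℝ) ≤ ω → (H : ℝ) * ω ≤ X →
      |∑ n ∈ Icc ⌈X / ω⌉₊ ⌊X⌋₊, TAO_R H n k / (n : ℝ)| ≤ ε₂ * (H : ℝ) * Real.log ω := by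
    intro k
    by_cases hk : 1 ≤ k
    · obtain ⟨H₀, hH₀⟩ := CORR_avg hT k hk ε₂ hε₂0
      exact ⟨H₀, fun _ => hH₀⟩
    · exact ⟨0, fun h => absurd h hk⟩
  choose f hf using hcorr
  refine ⟨(∑ k ∈ range (K + 1), f k) + J + 3, ?_⟩
  intro H hH ω X hHω hX
  have hH3 : 3 ≤ H := by omega
  have hHJ : J ≤ H := by omega
  have hHf : ∀ k ≤ K, f k ≤ H := by
    intro k hk
    have := single_le_sum (f := f) (s := range (K + 1)) (fun _ _ => Nat.zero_le _)
      (mem_range.2 (Nat.lt_succ_of_le hk))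
    omega
  have hHR : (3 : ℝ) ≤ H := by exact_mod_cast hH3
  have hω1 : 1 ≤ ω := by linarith
  have hω0 : 0 < ω := by linarith
  have hXω : 1 ≤ X / ω := by
    rw [le_div_iff₀ hω0]
    nlinarith
  have hlog : 1 ≤ Real.log ω := by
    rw [Real.le_log_iff_exp_le hω0]
    have := Real.exp_one_lt_d9
    linarith
  obtain ⟨Mf, hMf⟩ : ∃ Mf : ℕ → ℝ, ∀ n, Mf n = ∫ β in (0 : ℝ)..1, ‖S H n β‖ ^ 2 * (TAO_P K co β).re :=
    ⟨_, fun _ => rfl⟩
  have hM0 : ∀ n, 0 ≤ Mf n := by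
    intro n
    rw [hMf]
    apply intervalIntegral.integral_nonneg (by norm_num)
    intro β _
    have := (hPre β).1
    have := h0 β
    have : 0 ≤ (TAO_P K co β).re := by linarith
    positivity
  have hMbad : ∀ n, Bad H {α | 1 ≤ Ψ α} ε n → ε ^ 2 * (H : ℝ) ^ 2 ≤ ((H : ℝ) + J) * Mf n := by
    rintro n ⟨α, hα, hα2⟩
    have h1 := hJ H n α hα
    have h2 : ε ^ 2 * (H : ℝ) ^ 2 ≤ ‖S H n α‖ ^ 2 := by
      rw [← mul_pow]
      exact pow_le_pow_left₀ (by positivity) hα2 2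
    refine (h2.trans h1).trans ?_
    apply mul_le_mul_of_nonneg_left _ (by positivity)
    rw [hMf]
    have hSc := DK_continuous H n
    apply intervalIntegral.integral_mono_on (by norm_num)
    · apply Continuous.intervalIntegrable
      fun_prop
    · apply Continuous.intervalIntegrable
      fun_prop
    · intro β _
      exact mul_le_mul_of_nonneg_left (hPre β).1 (by positivity)
  -- the sum of `M(n)/n`
  have hsum : ∑ n ∈ Icc ⌈X / ω⌉₊ ⌊X⌋₊, Mf n / (n : ℝ)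
      ≤ (H : ℝ) * (c * ε ^ 2 / 4) * (Real.log ω + 1) := by
    have h1 : ∑ n ∈ Icc ⌈X / ω⌉₊ ⌊X⌋₊, Mf n / (n : ℝ)
        = ∑ k ∈ Icc (-(K : ℤ)) K, (co k).re * ∑ n ∈ Icc ⌈X / ω⌉₊ ⌊X⌋₊, TAO_R H n k.natAbs / (n : ℝ) := by
      simp only [mul_sum]
      rw [sum_comm]
      refine sum_congr rfl fun n _ => ?_
      rw [hMf, TAO_int, sum_div]
      refine sum_congr rfl fun k _ => ?_
      ring
    have h2 : ∀ k ∈ Icc (-(K : ℤ)) K, k ≠ 0 →
        (co k).re * ∑ n ∈ Icc ⌈X / ω⌉₊ ⌊X⌋₊, TAO_R H n k.natAbs / (n : ℝ)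
          ≤ |(co k).re| * (ε₂ * (H : ℝ) * Real.log ω) := by
      intro k hk hk0
      have h3 : 1 ≤ k.natAbs := Int.natAbs_pos.2 hk0
      have h4 : k.natAbs ≤ K := by
        have := mem_Icc.1 hk
        omega
      have h5 := hf k.natAbs h3 H (hHf _ h4) ω X hHω hX
      refine (le_abs_self _).trans ?_
      rw [abs_mul]
      exact mul_le_mul_of_nonneg_left h5 (abs_nonneg _)
    have hz : (0 : ℤ) ∈ Icc (-(K : ℤ)) K := mem_Icc.2 ⟨by simp, by simp⟩
    rw [h1, ← add_sum_erase _ _ hz]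
    have h6 : (co 0).re * ∑ n ∈ Icc ⌈X / ω⌉₊ ⌊X⌋₊, TAO_R H n (0 : ℤ).natAbs / (n : ℝ)
        ≤ (2 * (c * ε ^ 2 / 16) + 3 * κ) * ((H : ℝ) * (Real.log ω + 1)) := by
      have h7 : ∑ n ∈ Icc ⌈X / ω⌉₊ ⌊X⌋₊, TAO_R H n (0 : ℤ).natAbs / (n : ℝ)
          = (H : ℝ) * mass (fun _ => True) ω X := by
        unfold mass
        rw [mul_sum, filter_true]
        refine sum_congr rfl fun n _ => ?_
        rw [Int.natAbs_zero, TAO_R0]
        ring
      rw [h7]
      have h8 := GRP_total (fun _ => True) ω X hω1 hXω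
      have h9 := mass_nonneg (fun _ => True) ω X
      have h10 : 0 ≤ (H : ℝ) * mass (fun _ => True) ω X := by positivity
      calc (co 0).re * ((H : ℝ) * mass (fun _ => True) ω X)
          ≤ (2 * (c * ε ^ 2 / 16) + 3 * κ) * ((H : ℝ) * mass (fun _ => True) ω X) :=
            mul_le_mul_of_nonneg_right hc0 h10
        _ ≤ (2 * (c * ε ^ 2 / 16) + 3 * κ) * ((H : ℝ) * (Real.log ω + 1)) := by
            apply mul_le_mul_of_nonneg_left _ (by positivity)
            exact mul_le_mul_of_nonneg_left h8 (by positivity)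
    have h11 : ∑ k ∈ (Icc (-(K : ℤ)) K).erase 0,
        (co k).re * ∑ n ∈ Icc ⌈X / ω⌉₊ ⌊X⌋₊, TAO_R H n k.natAbs / (n : ℝ)
          ≤ κ * ((H : ℝ) * (Real.log ω + 1)) := by
      calc _ ≤ ∑ k ∈ (Icc (-(K : ℤ)) K).erase 0, |(co k).re| * (ε₂ * (H : ℝ) * Real.log ω) :=
            sum_le_sum fun k hk => h2 k (mem_of_mem_erase hk) (ne_of_mem_erase hk)
        _ ≤ ∑ k ∈ Icc (-(K : ℤ)) K, |(co k).re| * (ε₂ * (H : ℝ) * Real.log ω) := by
            apply sum_le_sum_of_subset_of_nonneg (erase_subset _ _)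
            intro k _ _
            have : 0 ≤ Real.log ω := by linarith
            positivity
        _ = A * (ε₂ * (H : ℝ) * Real.log ω) := by rw [hA, sum_mul]
        _ = (A * ε₂) * ((H : ℝ) * Real.log ω) := by ring
        _ ≤ κ * ((H : ℝ) * (Real.log ω + 1)) := by
            apply mul_le_mul hAε _ (by positivity) hκ.le
            exact mul_le_mul_of_nonneg_left (by linarith) (by positivity)
    refine (add_le_add h6 h11).trans (le_of_eq ?_)
    rw [hκdef]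
    ring
  -- conclusion
  have hfin : ε ^ 2 * (H : ℝ) ^ 2 * mass (Bad H {α | 1 ≤ Ψ α} ε) ω X
      ≤ ((H : ℝ) + J) * ((H : ℝ) * (c * ε ^ 2 / 4) * (Real.log ω + 1)) := by
    refine le_trans ?_ (mul_le_mul_of_nonneg_left hsum (by positivity))
    unfold mass
    rw [mul_sum, mul_sum]
    refine le_trans (sum_le_sum (g := fun n : ℕ => ((H : ℝ) + J) * (Mf n / (n : ℝ))) ?_) ?_
    · intro n hn
      have h1 := hMbad n (mem_filter.1 hn).2
      have h2 : (0 : ℝ) ≤ 1 / (n : ℝ) := by positivity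
      calc ε ^ 2 * (H : ℝ) ^ 2 * (1 / (n : ℝ)) ≤ (((H : ℝ) + J) * Mf n) * (1 / (n : ℝ)) :=
            mul_le_mul_of_nonneg_right h1 h2
        _ = ((H : ℝ) + J) * (Mf n / (n : ℝ)) := by ring
    · apply sum_le_sum_of_subset_of_nonneg (filter_subset _ _)
      intro n _ _
      have := hM0 n
      positivity
  have hJR : (J : ℝ) ≤ H := by exact_mod_cast hHJ
  have h20 : ((H : ℝ) + J) * ((H : ℝ) * (c * ε ^ 2 / 4) * (Real.log ω + 1))
      ≤ (ε ^ 2 * (H : ℝ) ^ 2) * (c * Real.log ω) := by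
    calc ((H : ℝ) + J) * ((H : ℝ) * (c * ε ^ 2 / 4) * (Real.log ω + 1))
        ≤ ((H : ℝ) + H) * ((H : ℝ) * (c * ε ^ 2 / 4) * (Real.log ω + Real.log ω)) := by
          apply mul_le_mul (by linarith) _ (by positivity) (by positivity)
          exact mul_le_mul_of_nonneg_left (by linarith) (by positivity)
      _ = (ε ^ 2 * (H : ℝ) ^ 2) * (c * Real.log ω) := by ring
  have h21 : 0 < ε ^ 2 * (H : ℝ) ^ 2 := by positivity
  have h22 := le_of_mul_le_mul_left (hfin.trans h20) h21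
  refine h22.trans ?_
  exact mul_le_mul_of_nonneg_right hc'.le (by linarith)

end Pool.Agent.H6.FU
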