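import Pool.Agent.H6.FU.ML
import Pool.Agent.H6.FU.TAO
import Pool.Agent.H6.FU.LDM
import Pool.Agent.H6.FU.NC
import Pool.Agent.H6.FU.ND
import Pool.Agent.H6.FU.SUP

/-!
# Assembly
-/

namespace Pool.Agent.H6.FU

open Finset

theorem Q1_of_dens (h : ∀ ε : ℝ, 0 < ε → DensLE Set.univ ε 0) : Q1 := ND_main (NC_main h)

theorem Q1_iff_natural : Q1 ↔ Natural := ⟨fun h => NC_main (SUP_univ h), ND_main⟩

/-- If the density near one point is `o(δ)`, then `Q1`. -/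
theorem Q1_of_local (θ : ℝ) (hAC : AC)
    (h : ∀ ε : ℝ, 0 < ε → ∀ κ : ℝ, 0 < κ → ∃ δ : ℝ, 0 < δ ∧ δ ≤ 1 / 2 ∧
      DensLE (Set.Ioo (θ - δ) (θ + δ)) ε (κ * (2 * δ))) : Q1 := by
  refine Q1_of_dens fun ε hε => ?_
  intro c' hc'
  obtain ⟨δ, hδ, hδ2, hd⟩ := h (ε / 2) (by linarith) (c' / 2) (by linarith)
  have := ML_main (θ - δ) (θ + δ) (ε / 2) ε (c' / 2 * (2 * δ)) (by linarith) (by linarith) (by linarith)
    (by linarith) (by positivity) hAC hd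
  have he : c' / 2 * (2 * δ) / (θ + δ - (θ - δ)) = c' / 2 := by
    rw [show θ + δ - (θ - δ) = 2 * δ by ring, mul_div_assoc, div_self (by positivity), mul_one]
  rw [he] at this
  exact this c' (by linarith)

theorem AC_of_Q1 (h : Q1) : AC := by
  intro ε hε c hc
  refine ⟨1, one_pos, fun Ψ _ _ _ _ => ?_⟩
  exact SUP_mono _ _ ε ε 0 c (Set.subset_univ _) le_rfl hc.le (SUP_univ h ε hε)

theorem Q1_iff_local (θ : ℝ) : Q1 ↔ AC ∧ ∀ ε : ℝ, 0 < ε → ∀ κ : ℝ, 0 < κ → ∃ δ : ℝ, 0 < δ ∧ δ ≤ 1 / 2 ∧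
      DensLE (Set.Ioo (θ - δ) (θ + δ)) ε (κ * (2 * δ)) := by
  refine ⟨fun h => ⟨AC_of_Q1 h, fun ε hε κ hκ => ⟨1 / 2, by norm_num, le_rfl, ?_⟩⟩,
    fun h => Q1_of_local θ h.1 h.2⟩
  exact SUP_mono _ _ ε ε 0 _ (Set.subset_univ _) le_rfl (by positivity) (SUP_univ h ε hε)

theorem Q1_iff_interval (a b : ℝ) (hab : a < b) : Q1 ↔ AC ∧ Q1On (Set.Ioo a b) := by
  refine ⟨fun h => ⟨AC_of_Q1 h, SUP_on _ h⟩, fun h => ?_⟩
  have hlt : (0 : ℝ) < min ((b - a) / 2) (1 / 2) := lt_min (by linarith) (by norm_num)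
  refine Q1_of_local ((a + b) / 2) h.1 fun ε hε κ hκ => ⟨min ((b - a) / 2) (1 / 2), hlt,
    min_le_right _ _, ?_⟩
  have h1 := min_le_left ((b - a) / 2) (1 / 2)
  refine SUP_mono _ (Set.Ioo a b) ε ε 0 _ ?_ le_rfl (by positivity) (SUP_dens _ h.2 ε hε)
  intro x hx
  exact ⟨by linarith [hx.1], by linarith [hx.2]⟩

theorem Q1_of_plain (θ : ℝ) (hAC : AC) (hP : Plain θ) : Q1 :=
  Q1_of_local θ hAC fun ε hε κ hκ => LDM_main θ hP ε κ hε hκ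

theorem Q1_of_fourth (θ : ℝ) (hAC : AC) (hF : Fourth θ) : Q1 := Q1_of_plain θ hAC (LDM_fourth θ hF)

end Pool.Agent.H6.FU
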