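import Pool.Agent.H6.FU.ML

/-!
# MLS: the main step on one scale

The proof of `ML_main` uses the bound for the windows with a frequency in `(a,b)` only on the scales `(ω, X/p)` and for the
window lengths `⌊H/p⌋`, `p ∈ Q`.
-/

namespace Pool.Agent.H6.FU

open Finset

open Classical in
theorem MLS_main (a b ε' ε τ : ℝ) (hab : a < b) (hb : b ≤ a + 1) (hε' : 0 < ε') (hε : ε' < ε) (hτ0 : 0 < τ)
    (hτ3 : 3 * τ < b - a) (hAC : AC) :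
    ∃ P H₀ : ℕ, ∀ H : ℕ, H₀ ≤ H → ∀ ω X : ℝ, (H : ℝ) ≤ ω → (H : ℝ) * ω ≤ X → ∀ M : ℝ, 0 ≤ M →
      (∀ p : ℕ, 1 ≤ p → p ≤ P → mass (Bad (H / p) (Set.Ioo a b) ε') ω (X / p) ≤ M * Real.log ω) →
      mass (Bad H Set.univ ε) ω X ≤ (2 * τ + (M + 2 * τ) / (b - a - 3 * τ)) * Real.log ω := by
  obtain ⟨η, hη⟩ : ∃ η, η = (ε - ε') / 2 := ⟨_, rfl⟩
  have hη0 : 0 < η := by rw [hη]; linarith
  have hηε : ε - 2 * η = ε' := by rw [hη]; ring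
  obtain ⟨K, χ, hK, hper, hL, h0, h1, hU, hm⟩ := CHI_main a b τ hab hb hτ0
  obtain ⟨m, hm'⟩ : ∃ m, ∫ x in (0 : ℝ)..1, χ x = m := ⟨_, rfl⟩
  rw [hm'] at hm
  obtain ⟨η₁, hη₁, hAC1⟩ := hAC ε (by linarith) τ hτ0
  obtain ⟨P₀, hP₀⟩ : ∃ P₀ : ℝ, P₀ = max 1 ((1 + K) / (η₁ * τ ^ 2)) := ⟨_, rfl⟩
  have hP₀1 : 1 ≤ P₀ := hP₀ ▸ le_max_left _ _
  have hP₀2 : (1 + K) / (η₁ * τ ^ 2) ≤ P₀ := hP₀ ▸ le_max_right _ _
  obtain ⟨Q, hQp, hQP, hQL⟩ := PR_main P₀ (6 / (η ^ 2 * τ) + 1)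
  obtain ⟨L, hLdef⟩ : ∃ L, L = ∑ p ∈ Q, 1 / (p : ℝ) := ⟨_, rfl⟩
  rw [← hLdef] at hQL
  have h60 : 0 < 6 / (η ^ 2 * τ) := by positivity
  have hL1 : 1 ≤ L := by linarith
  have h6 : 6 / η ^ 2 ≤ τ * L := by
    have h7 : 6 / (η ^ 2 * τ) ≤ L := by linarith
    rw [div_le_iff₀ (by positivity)] at h7 ⊢
    linarith
  obtain ⟨Ψ, hΨc, hΨp, hΨ0, hΨi, hΨ⟩ := ML_psi χ K m P₀ τ η₁ L hper hK hL h0 h1 hm' hP₀1 hτ0 hη₁ hP₀2 Q hQp hQP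
    hL1 hLdef
  obtain ⟨P, hPdef⟩ : ∃ P, P = Q.sup id := ⟨_, rfl⟩
  have hP : ∀ p ∈ Q, p ≤ P := fun p hp => hPdef ▸ Finset.le_sup (f := id) hp
  obtain ⟨H₁, hH₁⟩ := hAC1 Ψ hΨc hΨp hΨ0 hΨi (2 * τ) (by linarith)
  refine ⟨P, max H₁ (max (P ^ 2) (max ⌈(P:ℝ) / η⌉₊ (max (2 * P) (max 1 ⌈Real.exp (2 / τ)⌉₊)))), ?_⟩
  intro H hH ω X hω hX c hc hM
  simp only [max_le_iff] at hH
  obtain ⟨hHa, hHc, hHd, hHe, hHf, hHg⟩ := hH
  have hH1 : (1:ℝ) ≤ H := by exact_mod_cast hHf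
  have hω1 : 1 ≤ ω := hH1.trans hω
  have hω0 : 0 < ω := by linarith
  have hlog : 2 / τ ≤ Real.log ω := by
    rw [Real.le_log_iff_exp_le hω0]
    exact (Nat.le_ceil _).trans ((Nat.cast_le.2 hHg).trans hω)
  have hlog2 : 2 ≤ τ * Real.log ω := by
    rw [div_le_iff₀ hτ0] at hlog; linarith
  have hlog0 : 0 ≤ Real.log ω := Real.log_nonneg hω1
  have hPη : (P : ℝ) ≤ η * H := by
    have := (Nat.le_ceil ((P:ℝ) / η)).trans (Nat.cast_le.2 hHd)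
    rw [div_le_iff₀ hη0] at this; linarith
  -- the two kinds of bad windows
  set E : ℕ → Prop := fun n => ∃ α : ℝ, ε * (H : ℝ) ≤ ‖S H n α‖ ∧ Ψ α < 1 with hE
  have hor : ∀ n, Bad H Set.univ ε n → Bad H {α | 1 ≤ Ψ α} ε n ∨ E n := by
    rintro n ⟨α, -, hα⟩
    by_cases h8 : 1 ≤ Ψ α
    · exact Or.inl ⟨α, h8, hα⟩
    · exact Or.inr ⟨α, hα, not_le.1 h8⟩
  have hEn : ∀ n, E n → (m - 2 * τ) * L ≤
      ∑ p ∈ Q.filter (fun p : ℕ => (fun p k => Bad (H / p) (Set.Ioo a b) ε' k) p (n / p)), 1 / (p : ℝ) := by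
    rintro n ⟨α, hα, hα1⟩
    have := PT_main (Set.Ioo a b) χ h1 hU H n P α ε η m τ L hHf hη0 (by linarith) hα Q hQp hP hHc hPη h6 (hΨ α hα1)
    rw [hηε] at this
    convert this using 2
  have hsw := ML_swap E (fun p k => Bad (H / p) (Set.Ioo a b) ε' k) Q ((m - 2 * τ) * L) ω X hEn
  have hterm : ∀ p ∈ Q, 1 / (p : ℝ) * mass (fun n => (fun p k => Bad (H / p) (Set.Ioo a b) ε' k) p (n / p)) ω X ≤
      1 / (p : ℝ) * ((c + 2 * τ) * Real.log ω) := by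
    intro p hp
    have hp1 : 1 ≤ p := (hQp p hp).one_le
    have hpP := hP p hp
    have hp0 : (0:ℝ) < p := by exact_mod_cast hp1
    have hpP' : (p:ℝ) ≤ P := by exact_mod_cast hpP
    apply mul_le_mul_of_nonneg_left _ (by positivity)
    have hHe' : 2 * (P:ℝ) ≤ H := by exact_mod_cast hHe
    have hg := GRP_div (Bad (H / p) (Set.Ioo a b) ε') p hp1 ω X hω1 (by nlinarith)
    have hh := hM p hp1 hpP
    calc mass (fun n => Bad (H / p) (Set.Ioo a b) ε' (n / p)) ω X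
        ≤ mass (Bad (H / p) (Set.Ioo a b) ε') ω (X / p) + 2 := hg
      _ ≤ (c + 2 * τ) * Real.log ω := by nlinarith
  have hsum := hsw.trans (sum_le_sum hterm)
  rw [← Finset.sum_mul, ← hLdef] at hsum
  have hL0 : 0 < L := by linarith
  have hE1 : (m - 2 * τ) * mass E ω X ≤ (c + 2 * τ) * Real.log ω := by
    have : L * ((m - 2 * τ) * mass E ω X) ≤ L * ((c + 2 * τ) * Real.log ω) := by
      linarith
    exact le_of_mul_le_mul_left this hL0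
  have hE0 := mass_nonneg E ω X
  have hd0 : 0 < b - a - 3 * τ := by linarith
  have hE2 : mass E ω X ≤ (c + 2 * τ) / (b - a - 3 * τ) * Real.log ω := by
    rw [div_mul_eq_mul_div, le_div_iff₀ hd0]
    nlinarith
  have hA := hH₁ H hHa ω X hω hX
  have hfin := ML_or (Bad H Set.univ ε) (Bad H {α | 1 ≤ Ψ α} ε) E ω X hor
  calc mass (Bad H Set.univ ε) ω X ≤ 2 * τ * Real.log ω + (c + 2 * τ) / (b - a - 3 * τ) * Real.log ω := by linarith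
    _ = (2 * τ + (c + 2 * τ) / (b - a - 3 * τ)) * Real.log ω := by ring

end Pool.Agent.H6.FU
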