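import Pool.Agent.H6.FU.Defs2
import Pool.Agent.H6.FU.MLS
import Pool.Agent.H6.FU.LDW

/-!
# PLS: large deviations at one frequency per scale

`AC` and `PlainS` imply `DensLE univ ε 0` for every `ε > 0`.

Proof. `ε ≤ 1`, `c' ≤ 1` without loss of generality; `ε' = ε/2`, `κ = c'/4`, `c₁ = κ ε'²/512`. For a length `b` put
`δ = ε'/(64 b)` and let `θ_j = j δ/2` (`j ≤ 2/δ`) be a grid of `[0,1]`. Apply `MLS_main` to the intervals `(θ_j - δ/2, θ_j + δ/2)`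
(length `δ`) with `τ = c' δ/16`. Given a scale `(ω, X)`, let `b`, `θ` be as in `PlainS`; `θ ∈ [0,1)` without loss of generality,
and `|θ - θ_j| ≤ δ/2` for some `j`. For every prime `p ≤ P`: a window `m` of length `⌊H/p⌋` with a bad frequency in the interval has at
least `(ε'/4)⌊H/p⌋` sub-windows of length `b` in `E = {‖S b m θ‖ ≥ (ε'/4) b}` (`LDW_main`), so
`mass (Bad ..) ω (X/p) ≤ (4/ε')(mass E ω (X/p) + 3) ≤ (4/ε')(mass E ω X + log P + 5) ≤ (4/ε')((c₁/b) log ω + log P + 5)`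
`≤ κ δ log ω`. Then `mass (Bad H univ ε) ω X ≤ (2τ + (κδ + 2τ)/(δ - 3τ)) log ω ≤ c' log ω`.
-/

namespace Pool.Agent.H6.FU

open Finset

theorem PLS_sum (E : ℕ → Prop) (H : ℕ) (ω X : ℝ) (hω : 1 ≤ ω) (h1 : 1 ≤ X / ω)
    (hH : (H : ℝ) ≤ X / ω) (B : ℕ → Prop) (a : ℝ)
    (hB : ∀ n, B n → ∃ s : Finset ℕ, s ⊆ range H ∧ (∀ t ∈ s, E (n + t)) ∧ a ≤ (s.card : ℝ)) :
    a * mass B ω X ≤ (H : ℝ) * (mass E ω X + 3) := by
  classical
  have h2 : a * mass B ω X ≤ ∑ t ∈ range H, mass (fun n => E (n + t)) ω X := by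
    unfold mass
    simp only [Finset.sum_filter]
    rw [Finset.mul_sum, Finset.sum_comm]
    refine Finset.sum_le_sum fun n _ => ?_
    have hn : (0 : ℝ) ≤ 1 / (n : ℝ) := by positivity
    have h3 : (0 : ℝ) ≤ ∑ t ∈ range H, if E (n + t) then 1 / (n : ℝ) else 0 :=
      Finset.sum_nonneg fun t _ => by split_ifs <;> simp
    by_cases hb : B n
    · rw [if_pos hb]
      obtain ⟨s, hs1, hs2, hs3⟩ := hB n hb
      calc a * (1 / (n : ℝ)) ≤ (s.card : ℝ) * (1 / (n : ℝ)) :=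
            mul_le_mul_of_nonneg_right hs3 hn
        _ = ∑ t ∈ s, 1 / (n : ℝ) := by rw [Finset.sum_const, nsmul_eq_mul]
        _ = ∑ t ∈ s, if E (n + t) then 1 / (n : ℝ) else 0 :=
            Finset.sum_congr rfl fun t ht => by rw [if_pos (hs2 t ht)]
        _ ≤ ∑ t ∈ range H, if E (n + t) then 1 / (n : ℝ) else 0 :=
            Finset.sum_le_sum_of_subset_of_nonneg hs1 fun t _ _ => by split_ifs <;> simp
    · rw [if_neg hb, mul_zero]
      exact h3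
  refine h2.trans ?_
  calc ∑ t ∈ range H, mass (fun n => E (n + t)) ω X ≤ ∑ _t ∈ range H, (mass E ω X + 3) := by
        refine Finset.sum_le_sum fun t ht => ?_
        apply GRP_shift E t ω X hω h1
        have : (t : ℝ) ≤ H := by exact_mod_cast (Finset.mem_range.mp ht).le
        exact this.trans hH
    _ = (H : ℝ) * (mass E ω X + 3) := by rw [Finset.sum_const, card_range, nsmul_eq_mul]

/-- moving the scale from `X` to `X/p` costs `log p + 1` -/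
theorem PLS_range (E : ℕ → Prop) (p : ℕ) (hp : 1 ≤ p) (ω X : ℝ) (hω : 1 ≤ ω) (h1 : 1 ≤ X / (p : ℝ) / ω) :
    mass E ω (X / p) ≤ mass E ω X + (Real.log p + 1) := by
  classical
  have hp0 : (0 : ℝ) < p := by exact_mod_cast hp
  have hp1 : (1 : ℝ) ≤ p := by exact_mod_cast hp
  have hω0 : 0 < ω := by linarith
  have hX0 : 0 < X := by
    by_contra hcon
    have : X / (p : ℝ) / ω ≤ 0 := div_nonpos_of_nonpos_of_nonneg
      (div_nonpos_of_nonpos_of_nonneg (not_lt.1 hcon) hp0.le) hω0.le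
    linarith
  have hcomm : X / (p : ℝ) / ω = X / ω / p := by
    rw [div_div, div_div, mul_comm]
  have h2 := GRP_total E p (X / ω) hp1 (by rw [← hcomm]; exact h1)
  refine le_trans ?_ (add_le_add le_rfl h2)
  unfold mass
  have hXp : X / (p : ℝ) ≤ X := div_le_self hX0.le hp1
  have h3 : (Icc ⌈X / (p : ℝ) / ω⌉₊ ⌊X / (p : ℝ)⌋₊).filter E ⊆
      ((Icc ⌈X / ω⌉₊ ⌊X⌋₊).filter E) ∪ ((Icc ⌈X / ω / p⌉₊ ⌊X / ω⌋₊).filter E) := by
    intro n hn
    rw [mem_filter, mem_Icc] at hn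
    obtain ⟨⟨hn1, hn2⟩, hn3⟩ := hn
    have hn4 : n ≤ ⌊X⌋₊ := hn2.trans (Nat.floor_le_floor hXp)
    rw [mem_union, mem_filter, mem_filter, mem_Icc, mem_Icc]
    by_cases h5 : X / ω ≤ n
    · exact Or.inl ⟨⟨Nat.ceil_le.2 h5, hn4⟩, hn3⟩
    · refine Or.inr ⟨⟨?_, ?_⟩, hn3⟩
      · rw [← hcomm]; exact hn1
      · exact Nat.le_floor (not_le.1 h5).le
  refine (sum_le_sum_of_subset_of_nonneg h3 fun n _ _ => by positivity).trans ?_
  rw [← sum_union_inter]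
  exact le_add_of_nonneg_right (sum_nonneg fun n _ => by positivity)

/-- one length `b`, all frequencies -/
theorem PLS_b (hAC : AC) (b : ℕ) (hb : 1 ≤ b) (ε c' : ℝ) (hε : 0 < ε) (hε1 : ε ≤ 1) (hc : 0 < c') (hc1 : c' ≤ 1) :
    ∃ H₀ : ℕ, ∀ H : ℕ, H₀ ≤ H → ∀ ω X θ : ℝ, (H : ℝ) ≤ ω → (H : ℝ) * ω ≤ X →
      mass (fun n => ε / 8 * (b : ℝ) ≤ ‖S b n θ‖) ω X ≤ c' * ε ^ 2 / 8192 / (b : ℝ) * Real.log ω →
      mass (Bad H Set.univ ε) ω X ≤ c' * Real.log ω := by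
  classical
  have hb0 : (0 : ℝ) < b := by exact_mod_cast hb
  have hb1 : (1 : ℝ) ≤ b := by exact_mod_cast hb
  obtain ⟨δ, hδ⟩ : ∃ δ : ℝ, δ = ε / (128 * b) := ⟨_, rfl⟩
  have hδ0 : 0 < δ := by rw [hδ]; positivity
  have hδ1 : δ ≤ 1 := by
    rw [hδ, div_le_one (by positivity)]; nlinarith
  have hgrid : ∀ j : ℕ, ∃ P H₀ : ℕ, ∀ H : ℕ, H₀ ≤ H → ∀ ω X : ℝ, (H : ℝ) ≤ ω → (H : ℝ) * ω ≤ X → ∀ M : ℝ, 0 ≤ M →
      (∀ p : ℕ, 1 ≤ p → p ≤ P → mass (Bad (H / p) (Set.Ioo (j * (δ / 2) - δ / 2) (j * (δ / 2) + δ / 2)) (ε / 2))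
        ω (X / p) ≤ M * Real.log ω) →
      mass (Bad H Set.univ ε) ω X ≤ (2 * (c' * δ / 16) + (M + 2 * (c' * δ / 16)) / (δ - 3 * (c' * δ / 16))) *
        Real.log ω := by
    intro j
    have := MLS_main (j * (δ / 2) - δ / 2) (j * (δ / 2) + δ / 2) (ε / 2) ε (c' * δ / 16) (by linarith) (by linarith)
      (by linarith) (by linarith) (by positivity) (by nlinarith) hAC
    have he : (j * (δ / 2) + δ / 2) - (j * (δ / 2) - δ / 2) = δ := by ring
    rw [he] at this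
    exact this
  choose P H₁ hmain using hgrid
  obtain ⟨J, hJ⟩ : ∃ J : ℕ, J = ⌈2 / δ⌉₊ := ⟨_, rfl⟩
  obtain ⟨Pm, hPm⟩ : ∃ Pm : ℕ, ∀ j ≤ J, P j ≤ Pm :=
    ⟨(range (J + 1)).sup P, fun j hj => le_sup (f := P) (mem_range.2 (by omega))⟩
  obtain ⟨Hm, hHm⟩ : ∃ Hm : ℕ, ∀ j ≤ J, H₁ j ≤ Hm :=
    ⟨(range (J + 1)).sup H₁, fun j hj => le_sup (f := H₁) (mem_range.2 (by omega))⟩
  obtain ⟨R, hR⟩ : ∃ R : ℝ, R = 8 / ε * (Real.log (Pm + 1) + 5) / (c' * δ / 8) := ⟨_, rfl⟩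
  refine ⟨max Hm (max ((⌈8 * b / ε⌉₊ + 1) * (Pm + 1)) ⌈Real.exp R⌉₊), fun H hH ω X θ hω hX hmass => ?_⟩
  simp only [max_le_iff] at hH
  obtain ⟨hHa, hHb, hHc⟩ := hH
  have hH1 : 1 ≤ H := le_trans (by nlinarith) hHb
  have hH1' : (1 : ℝ) ≤ H := by exact_mod_cast hH1
  have hω1 : 1 ≤ ω := hH1'.trans hω
  have hω0 : 0 < ω := by linarith
  have hlogR : R ≤ Real.log ω := by
    rw [Real.le_log_iff_exp_le hω0]
    exact (Nat.le_ceil _).trans ((Nat.cast_le.2 hHc).trans hω)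
  have hlog0 : 0 ≤ Real.log ω := Real.log_nonneg hω1
  -- the grid point
  set t := Int.fract θ with ht
  have ht0 : 0 ≤ t := Int.fract_nonneg θ
  have ht1 : t < 1 := Int.fract_lt_one θ
  have hSt : ∀ n, ‖S b n t‖ = ‖S b n θ‖ := by
    intro n
    have h1 := PT_periodic b n t ⌊θ⌋
    have h2 : t + (⌊θ⌋ : ℝ) = θ := Int.fract_add_floor θ
    rw [h2] at h1
    rw [h1]
  obtain ⟨j, hj⟩ : ∃ j : ℕ, j = ⌊t / (δ / 2)⌋₊ := ⟨_, rfl⟩
  have hδ2 : 0 < δ / 2 := by linarith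
  have hj1 : (j : ℝ) * (δ / 2) ≤ t := by
    have := Nat.floor_le (div_nonneg ht0 hδ2.le)
    rw [← hj, le_div_iff₀ hδ2] at this
    exact this
  have hj2 : t < (j : ℝ) * (δ / 2) + δ / 2 := by
    have := Nat.lt_floor_add_one (t / (δ / 2))
    rw [← hj, div_lt_iff₀ hδ2] at this
    linarith
  have hjJ : j ≤ J := by
    have h1 : (j : ℝ) ≤ J := by
      have h2 : (j : ℝ) ≤ 2 / δ := by
        rw [le_div_iff₀ hδ0]
        nlinarith
      rw [hJ]
      exact h2.trans (Nat.le_ceil _)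
    exact_mod_cast h1
  have hfin := hmain j H ((hHm j hjJ).trans hHa) ω X hω hX (c' / 4 * δ) (by positivity) ?_
  · refine hfin.trans (mul_le_mul_of_nonneg_right ?_ hlog0)
    have hd : δ / 2 ≤ δ - 3 * (c' * δ / 16) := by nlinarith
    have h1 : (c' / 4 * δ + 2 * (c' * δ / 16)) / (δ - 3 * (c' * δ / 16)) ≤
        (c' / 4 * δ + 2 * (c' * δ / 16)) / (δ / 2) :=
      div_le_div_of_nonneg_left (by positivity) hδ2 hd
    have h2 : (c' / 4 * δ + 2 * (c' * δ / 16)) / (δ / 2) = 3 * c' / 4 := by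
      field_simp
      ring
    rw [h2] at h1
    nlinarith
  · intro p hp1 hpP
    have hp0 : (0 : ℝ) < p := by exact_mod_cast hp1
    have hpPm : p ≤ Pm := hpP.trans (hPm j hjJ)
    obtain ⟨h, hh⟩ : ∃ h : ℕ, h = H / p := ⟨_, rfl⟩
    rw [← hh]
    have hh1 : ⌈8 * b / ε⌉₊ + 1 ≤ h := by
      rw [hh, Nat.le_div_iff_mul_le hp1]
      exact (Nat.mul_le_mul_left _ (by omega)).trans hHb
    have hh2 : (8 * b / ε : ℝ) + 1 ≤ h := by
      have h1 : ((⌈8 * b / ε⌉₊ + 1 : ℕ) : ℝ) ≤ h := by exact_mod_cast hh1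
      push_cast at h1
      have := Nat.le_ceil (8 * b / ε : ℝ)
      linarith
    have h8 : (0 : ℝ) < 8 * b / ε := by positivity
    have hh3 : (1 : ℝ) ≤ h := by linarith
    have hbh : (b : ℝ) ≤ (ε / 2) / 4 * h := by
      have : (8 * b / ε : ℝ) ≤ h := by linarith
      rw [div_le_iff₀ hε] at this
      linarith
    have hhX : (h : ℝ) ≤ X / p / ω := by
      rw [le_div_iff₀ hω0, le_div_iff₀ hp0]
      have h1 : (h : ℝ) ≤ (H : ℝ) / p := by rw [hh]; exact Nat.cast_div_le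
      rw [le_div_iff₀ hp0] at h1
      nlinarith
    have hs := PLS_sum (fun n => ε / 8 * (b : ℝ) ≤ ‖S b n θ‖) h ω (X / p) hω1 (hh3.trans hhX) hhX
      (Bad h (Set.Ioo (j * (δ / 2) - δ / 2) (j * (δ / 2) + δ / 2)) (ε / 2)) ((ε / 2) / 4 * h) (by
        rintro n ⟨α, hα, hS⟩
        have hα' : |α - t| ≤ δ := by
          rw [abs_le]
          constructor <;> linarith [hα.1, hα.2]
        have hδb : 2 * Real.pi * δ * (b : ℝ) ≤ (ε / 2) / 4 := by
          have e1 : 2 * Real.pi * δ * (b : ℝ) = 2 * Real.pi * ε / 128 := by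
            rw [hδ]
            field_simp
          rw [e1]
          have := Real.pi_lt_four
          nlinarith
        have h2 := LDW_main b h n (ε / 2) δ α t hb (by linarith) hα' hδb hbh hS
        refine ⟨_, Finset.filter_subset _ _, ?_, h2⟩
        intro s hs
        have h3 := (Finset.mem_filter.mp hs).2
        rw [hSt] at h3
        have h4 : ε / 2 / 4 = ε / 8 := by ring
        rw [h4] at h3
        exact h3)
    have hr := PLS_range (fun n => ε / 8 * (b : ℝ) ≤ ‖S b n θ‖) p hp1 ω X hω1 (hh3.trans hhX)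
    have hlogp : Real.log p ≤ Real.log (Pm + 1) := by
      apply Real.log_le_log hp0
      have : (p : ℝ) ≤ Pm := by exact_mod_cast hpPm
      linarith
    have hm2 : ε / 8 * mass (Bad h (Set.Ioo (j * (δ / 2) - δ / 2) (j * (δ / 2) + δ / 2)) (ε / 2)) ω (X / p) ≤
        c' * ε ^ 2 / 8192 / b * Real.log ω + (Real.log (Pm + 1) + 5) := by
      have h1 : (h : ℝ) * (ε / 8 * mass (Bad h (Set.Ioo (j * (δ / 2) - δ / 2) (j * (δ / 2) + δ / 2)) (ε / 2)) ω (X / p)) ≤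
          h * (mass (fun n => ε / 8 * (b : ℝ) ≤ ‖S b n θ‖) ω (X / p) + 3) := by
        refine le_trans (le_of_eq ?_) hs
        ring
      have h2 := le_of_mul_le_mul_left h1 (by linarith)
      linarith
    have hRl : 8 / ε * (Real.log (Pm + 1) + 5) ≤ c' * δ / 8 * Real.log ω := by
      rw [hR, div_le_iff₀ (by positivity)] at hlogR
      linarith
    have hm3 : mass (Bad h (Set.Ioo (j * (δ / 2) - δ / 2) (j * (δ / 2) + δ / 2)) (ε / 2)) ω (X / p) ≤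
        8 / ε * (c' * ε ^ 2 / 8192 / b * Real.log ω) + 8 / ε * (Real.log (Pm + 1) + 5) := by
      calc mass (Bad h (Set.Ioo (j * (δ / 2) - δ / 2) (j * (δ / 2) + δ / 2)) (ε / 2)) ω (X / p)
          = 8 / ε * (ε / 8 * mass (Bad h (Set.Ioo (j * (δ / 2) - δ / 2) (j * (δ / 2) + δ / 2)) (ε / 2)) ω (X / p)) := by
            field_simp
        _ ≤ 8 / ε * (c' * ε ^ 2 / 8192 / b * Real.log ω + (Real.log (Pm + 1) + 5)) :=
            mul_le_mul_of_nonneg_left hm2 (by positivity)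
        _ = _ := by ring
    have hm4 : 8 / ε * (c' * ε ^ 2 / 8192 / b * Real.log ω) = c' * δ / 8 * Real.log ω := by
      rw [hδ]
      field_simp
      ring
    rw [hm4] at hm3
    linarith

theorem PLS_main (hAC : AC) (hP : PlainS) (ε : ℝ) (hε : 0 < ε) : DensLE Set.univ ε 0 := by
  classical
  intro c hc
  set e := min ε 1 with he
  have he0 : 0 < e := lt_min hε one_pos
  set c' := min c 1 with hc'
  have hc0 : 0 < c' := lt_min hc one_pos
  obtain ⟨b₀, ω₀, hb⟩ := hP (e / 8) (by positivity) (c' * e ^ 2 / 8192) (by positivity)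
  have hex : ∀ b : ℕ, ∃ H₀ : ℕ, 1 ≤ b → ∀ H : ℕ, H₀ ≤ H → ∀ ω X θ : ℝ, (H : ℝ) ≤ ω → (H : ℝ) * ω ≤ X →
      mass (fun n => e / 8 * (b : ℝ) ≤ ‖S b n θ‖) ω X ≤ c' * e ^ 2 / 8192 / (b : ℝ) * Real.log ω →
      mass (Bad H Set.univ e) ω X ≤ c' * Real.log ω := by
    intro b
    by_cases h1 : 1 ≤ b
    · obtain ⟨H₀, h2⟩ := PLS_b hAC b h1 e c' he0 (min_le_right _ _) hc0 (min_le_right _ _)
      exact ⟨H₀, fun _ => h2⟩
    · exact ⟨0, fun h => absurd h h1⟩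
  choose H₁ hH₁ using hex
  refine ⟨max ((range (b₀ + 1)).sup H₁) (max 1 ⌈ω₀⌉₊), fun H hH ω X hω hX => ?_⟩
  simp only [max_le_iff] at hH
  obtain ⟨hHa, hHb, hHc⟩ := hH
  have hH1 : (1 : ℝ) ≤ H := by exact_mod_cast hHb
  have hω1 : 1 ≤ ω := hH1.trans hω
  have hωX : ω ≤ X := by nlinarith
  have hω₀ : ω₀ ≤ ω := ((Nat.le_ceil _).trans (Nat.cast_le.2 hHc)).trans hω
  obtain ⟨b, hb1, hb2, θ, hm⟩ := hb ω X hω₀ hωX
  have h1 : H₁ b ≤ H := (le_sup (f := H₁) (mem_range.2 (by omega))).trans hHa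
  have h2 := hH₁ b hb1 H h1 ω X θ hω hX hm
  have h3 : mass (Bad H Set.univ ε) ω X ≤ mass (Bad H Set.univ e) ω X := by
    refine GRP_mono _ _ ω X ?_
    rintro n ⟨α, hα, hS⟩
    exact ⟨α, hα, (mul_le_mul_of_nonneg_right (min_le_left _ _) (by positivity)).trans hS⟩
  refine (h3.trans h2).trans ?_
  exact mul_le_mul_of_nonneg_right (min_le_left _ _) (Real.log_nonneg hω1)

end Pool.Agent.H6.FU
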