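import Pool.Agent.H6.FU.Fin
import Pool.Agent.H6.FU.FS
import Pool.Agent.H6.FU.PLS

namespace Pool.Agent.H6.FU

theorem Q1_tfae_plain : [Q1, AC ∧ PlainS, AC ∧ FourthS].TFAE := by
  tfae_have 1 → 3 := fun h => ⟨AC_of_Q1 h, FS_fourth h⟩
  tfae_have 3 → 2 := fun h => ⟨h.1, FS_plain h.2⟩
  tfae_have 2 → 1 := fun h => Q1_of_dens (PLS_main h.1 h.2)
  tfae_finish

end Pool.Agent.H6.FU
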