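import Pool.Agent.H6.FU.Defs

/-!
# GRD: logarithmic mass under `n ↦ ⌊n/p⌋`

1. (`GRP_div`) `mass (B ∘ (·/p)) ω X ≤ mass B ω (X/p) + 2` for `1 ≤ p`, `1 ≤ ω`, `2 p ω ≤ X`.
Proof. Group the `n ∈ [X/ω, X]` by `m = ⌊n/p⌋`. For given `m ≥ 1` the `n` with `⌊n/p⌋ = m` lie in `[pm, pm+p)`, so their
`∑ 1/n ≤ p · 1/(pm) = 1/m`. Every such `m` satisfies `m ≤ X/p` and `m > n/p - 1 ≥ X/(pω) - 1 ≥ 1`. The `m ≥ X/(pω)` are in
the range `[⌈(X/p)/ω⌉₊, ⌊X/p⌋₊]` of `mass B ω (X/p)`; the others lie in `(X/(pω) - 1, X/(pω))`, at most one integer,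
contributing at most `1/m ≤ 1`.
-/

namespace Pool.Agent.H6.FU

open Finset

theorem GRD_fiber (p m : ℕ) (hp : 1 ≤ p) (hm : 1 ≤ m) (T : Finset ℕ) (hT : ∀ n ∈ T, n / p = m) :
    ∑ n ∈ T, 1 / (n : ℝ) ≤ 1 / (m : ℝ) := by
  have hsub : T ⊆ Finset.Ico (p * m) (p * m + p) := by
    intro n hn
    have h1 := hT n hn
    rw [Finset.mem_Ico]
    have h2 := Nat.div_add_mod n p
    have h3 := Nat.mod_lt n (show 0 < p from hp)
    rw [h1] at h2
    constructor <;> omega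
  have hpm : (0 : ℝ) < (p : ℝ) * m := by
    have h1 : (0 : ℝ) < p := by exact_mod_cast hp
    have h2 : (0 : ℝ) < m := by exact_mod_cast hm
    positivity
  calc ∑ n ∈ T, 1 / (n : ℝ) ≤ ∑ n ∈ Finset.Ico (p * m) (p * m + p), 1 / (n : ℝ) :=
        Finset.sum_le_sum_of_subset_of_nonneg hsub (fun _ _ _ => by positivity)
    _ ≤ ∑ _n ∈ Finset.Ico (p * m) (p * m + p), 1 / ((p : ℝ) * m) := by
        apply Finset.sum_le_sum
        intro n hn
        rw [Finset.mem_Ico] at hn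
        apply one_div_le_one_div_of_le hpm
        exact_mod_cast hn.1
    _ = p * (1 / ((p : ℝ) * m)) := by
        rw [Finset.sum_const, Nat.card_Ico, nsmul_eq_mul]
        congr 1
        simp
    _ = 1 / (m : ℝ) := by
        have h1 : (p : ℝ) ≠ 0 := by
          have : (0 : ℝ) < p := by exact_mod_cast hp
          exact this.ne'
        field_simp

theorem GRP_div (B : ℕ → Prop) (p : ℕ) (hp : 1 ≤ p) (ω X : ℝ) (hω : 1 ≤ ω) (hX : 2 * (p : ℝ) * ω ≤ X) :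
    mass (fun n => B (n / p)) ω X ≤ mass B ω (X / p) + 2 := by
  classical
  have hp0 : (0 : ℝ) < p := by exact_mod_cast hp
  have hω0 : (0 : ℝ) < ω := by linarith
  set N0 := ⌈X / ω⌉₊ with hN0
  set m0 := N0 / p with hm0
  have hN0' : 2 * p ≤ N0 := by
    have h1 : (2 * p : ℝ) ≤ X / ω := by rw [le_div_iff₀ hω0]; exact hX
    have h2 := h1.trans (Nat.le_ceil (X / ω))
    exact_mod_cast h2
  have hm02 : 2 ≤ m0 := by
    rw [hm0, Nat.le_div_iff_mul_le hp]; exact hN0'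
  have hM0 : ⌈X / p / ω⌉₊ ≤ m0 + 1 := by
    apply Nat.ceil_le.mpr
    have h1 : X / ω ≤ N0 := Nat.le_ceil _
    have h2 : N0 < (m0 + 1) * p := by
      have h3 := Nat.div_add_mod N0 p
      have h4 := Nat.mod_lt N0 (show 0 < p from hp)
      rw [← hm0] at h3
      nlinarith
    have h3 : (N0 : ℝ) < ((m0 + 1 : ℕ) : ℝ) * p := by exact_mod_cast h2
    have h4 : X / p / ω = X / ω / p := by rw [div_div, div_div, mul_comm]
    rw [h4, div_le_iff₀ hp0]
    linarith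
  have h1 : mass (fun n => B (n / p)) ω X ≤
      ∑ m ∈ (Finset.Icc m0 ⌊X / p⌋₊).filter B, 1 / (m : ℝ) := by
    unfold mass
    rw [← Finset.sum_fiberwise_of_maps_to (g := fun n => n / p)
      (t := (Finset.Icc m0 ⌊X / p⌋₊).filter B)]
    · apply Finset.sum_le_sum
      intro m hm
      rw [Finset.mem_filter, Finset.mem_Icc] at hm
      apply GRD_fiber p m hp (by omega)
      intro n hn
      rw [Finset.mem_filter] at hn
      exact hn.2
    · intro n hn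
      rw [Finset.mem_filter, Finset.mem_Icc] at hn
      rw [Finset.mem_filter, Finset.mem_Icc, Nat.floor_div_natCast]
      exact ⟨⟨Nat.div_le_div_right hn.1.1, Nat.div_le_div_right hn.1.2⟩, hn.2⟩
  have hsub : (Finset.Icc m0 ⌊X / p⌋₊).filter B ⊆
      insert m0 ((Finset.Icc ⌈X / p / ω⌉₊ ⌊X / p⌋₊).filter B) := by
    intro m hm
    rw [Finset.mem_filter, Finset.mem_Icc] at hm
    rw [Finset.mem_insert, Finset.mem_filter, Finset.mem_Icc]
    by_cases h : m = m0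
    · exact Or.inl h
    · right
      exact ⟨⟨by omega, hm.1.2⟩, hm.2⟩
  have h2 : ∑ m ∈ insert m0 ((Finset.Icc ⌈X / p / ω⌉₊ ⌊X / p⌋₊).filter B), 1 / (m : ℝ) ≤
      1 / (m0 : ℝ) + mass B ω (X / p) := by
    unfold mass
    by_cases h : m0 ∈ (Finset.Icc ⌈X / p / ω⌉₊ ⌊X / p⌋₊).filter B
    · rw [Finset.insert_eq_of_mem h]
      have : (0 : ℝ) ≤ 1 / (m0 : ℝ) := by positivity
      linarith
    · rw [Finset.sum_insert h]
  have h3 : 1 / (m0 : ℝ) ≤ 1 := by
    rw [div_le_one (by exact_mod_cast (by omega : 0 < m0))]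
    exact_mod_cast (by omega : 1 ≤ m0)
  have h4 := Finset.sum_le_sum_of_subset_of_nonneg (f := fun m : ℕ => 1 / (m : ℝ)) hsub
    (fun _ _ _ => by positivity)
  linarith

end Pool.Agent.H6.FU
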