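import Pool.Agent.H6.FU.Defs

/-!
# PR: finite sets of large primes with a large sum of reciprocals

Proof. `∑ 1/p` over the primes diverges (`Nat.Primes.not_summable_one_div`, or `not_summable_one_div_on_primes`), and removing
the finitely many primes below `P₀` does not change this; so the partial sums over the primes `≥ P₀` are unbounded.
-/

namespace Pool.Agent.H6.FU

open Finset

theorem PR_main (P₀ L : ℝ) :
    ∃ Q : Finset ℕ, (∀ p ∈ Q, p.Prime) ∧ (∀ p ∈ Q, P₀ ≤ (p : ℝ)) ∧ L ≤ ∑ p ∈ Q, 1 / (p : ℝ) := by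
  classical
  have hns : ¬ Summable (Set.indicator {p : ℕ | p.Prime} (fun n : ℕ => (1 : ℝ) / n)) :=
    not_summable_one_div_on_primes
  set f : ℕ → ℝ := Set.indicator {p : ℕ | p.Prime} (fun n : ℕ => (1 : ℝ) / n) with hf
  have hf0 : ∀ n, 0 ≤ f n := fun n => Set.indicator_nonneg (fun _ _ => by positivity) n
  set N := ⌈P₀⌉₊ with hN
  have hns2 : ¬ Summable (fun n => f (n + N)) := fun h => hns ((summable_nat_add_iff N).1 h)
  have hun : Filter.Tendsto (fun m => ∑ i ∈ range m, f (i + N)) Filter.atTop Filter.atTop :=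
    (not_summable_iff_tendsto_nat_atTop_of_nonneg (fun n => hf0 _)).1 hns2
  obtain ⟨m, hm⟩ := (hun.eventually_ge_atTop L).exists
  refine ⟨((range m).image (fun i => i + N)).filter Nat.Prime, ?_, ?_, ?_⟩
  · intro p hp; exact (mem_filter.1 hp).2
  · intro p hp
    obtain ⟨i, _, rfl⟩ := mem_image.1 (mem_filter.1 hp).1
    have := Nat.le_ceil P₀
    push_cast
    have h2 : (0 : ℝ) ≤ i := by positivity
    linarith
  · refine hm.trans (le_of_eq ?_)
    rw [sum_filter, sum_image (fun a _ b _ h => by simpa using h)]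
    refine sum_congr rfl fun i _ => ?_
    simp only [hf, Set.indicator_apply, Set.mem_ofPred_eq]

end Pool.Agent.H6.FU
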