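import Pool.Agent.H6.FU.RS

/-!
# VAR: the dilates of a Lipschitz function by primes are almost uncorrelated

`χ` is `1`-periodic, `K`-Lipschitz, `0 ≤ χ ≤ 1`, `m = ∫₀¹ χ`; `Q` a finite set of primes `≥ P₀ > 0`, weights `0 ≤ w p ≤ W`
with `∑ w = 1`. Then `∫₀¹ (∑_p w_p χ(pα) - m)² dα ≤ W + K/P₀`.

Proof. Put `χ' = χ - m`: `1`-periodic, `K`-Lipschitz, `|χ'| ≤ 1` (as `0 ≤ χ, m ≤ 1`), of mean `0`, and
`∑ w_p χ(pα) - m = ∑ w_p χ'(pα)`. Expand the square: `∑_{p,q} w_p w_q ∫₀¹ χ'(pα)χ'(qα)`. The diagonal terms are at most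
`∑ w_p² ≤ W ∑ w_p = W`. For `p ≠ q` (coprime) `RS_main` gives `|∫| ≤ K/q ≤ K/P₀`, total `≤ K/P₀`. (`K ≥ 0` follows from
`hL 0 1`, or from `hL` with `x ≠ y`.)
-/

namespace Pool.Agent.H6.FU

open Finset

theorem VAR_main (χ : ℝ → ℝ) (K m P₀ W : ℝ) (hper : Function.Periodic χ 1)
    (hL : ∀ x y, |χ x - χ y| ≤ K * |x - y|) (h0 : ∀ x, 0 ≤ χ x) (h1 : ∀ x, χ x ≤ 1)
    (hm : ∫ x in (0 : ℝ)..1, χ x = m) (hP₀ : 0 < P₀) (Q : Finset ℕ) (hQ : ∀ p ∈ Q, p.Prime)
    (hQP : ∀ p ∈ Q, P₀ ≤ (p : ℝ)) (w : ℕ → ℝ) (hw : ∀ p, 0 ≤ w p) (hW : ∀ p ∈ Q, w p ≤ W)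
    (hsum : ∑ p ∈ Q, w p = 1) :
    (∫ x in (0 : ℝ)..1, (∑ p ∈ Q, w p * χ ((p : ℝ) * x) - m) ^ 2) ≤ W + K / P₀ := by
  have hK : 0 ≤ K := by
    have := (abs_nonneg _).trans (hL 0 1)
    simpa using this
  have hcont : Continuous χ := by
    have hlip : LipschitzWith (Real.toNNReal K) χ := by
      apply LipschitzWith.of_dist_le_mul
      intro x y
      rw [Real.dist_eq, Real.dist_eq, Real.coe_toNNReal K hK]
      exact hL x y
    exact hlip.continuous
  have hm0 : 0 ≤ m := by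
    rw [← hm]
    exact intervalIntegral.integral_nonneg (by norm_num) (fun x _ => h0 x)
  have hm1 : m ≤ 1 := by
    have h2 : (∫ x in (0 : ℝ)..1, χ x) ≤ ∫ _x in (0 : ℝ)..1, (1 : ℝ) :=
      intervalIntegral.integral_mono_on (by norm_num) (hcont.intervalIntegrable _ _)
        (continuous_const.intervalIntegrable _ _) (fun x _ => h1 x)
    rw [hm] at h2
    simpa using h2
  set χ' : ℝ → ℝ := fun x => χ x - m with hχ'
  have hcont' : Continuous χ' := hcont.sub continuous_const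
  have hper' : Function.Periodic χ' 1 := by
    intro x
    simp only [hχ', hper x]
  have hL' : ∀ x y, |χ' x - χ' y| ≤ K * |x - y| := by
    intro x y
    simp only [hχ', sub_sub_sub_cancel_right]
    exact hL x y
  have h1' : ∀ x, |χ' x| ≤ 1 := by
    intro x
    rw [abs_le]
    simp only [hχ']
    constructor <;> linarith [h0 x, h1 x]
  have h0' : ∫ x in (0 : ℝ)..1, χ' x = 0 := by
    rw [hχ', intervalIntegral.integral_sub (hcont.intervalIntegrable _ _)
      (continuous_const.intervalIntegrable _ _), hm]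
    simp
  have hexp : ∀ x : ℝ, (∑ p ∈ Q, w p * χ ((p : ℝ) * x) - m) ^ 2
      = ∑ p ∈ Q, ∑ q ∈ Q, w p * w q * (χ' ((p : ℝ) * x) * χ' ((q : ℝ) * x)) := by
    intro x
    have h3 : ∑ p ∈ Q, w p * χ ((p : ℝ) * x) - m = ∑ p ∈ Q, w p * χ' ((p : ℝ) * x) := by
      simp only [hχ', mul_sub, Finset.sum_sub_distrib, ← Finset.sum_mul, hsum, one_mul]
    rw [h3, sq, Finset.sum_mul_sum]
    refine Finset.sum_congr rfl fun p _ => Finset.sum_congr rfl fun q _ => ?_
    ring
  have hci : ∀ p q : ℕ, Continuous (fun x : ℝ => χ' ((p : ℝ) * x) * χ' ((q : ℝ) * x)) := by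
    intro p q
    exact (hcont'.comp (continuous_const.mul continuous_id)).mul
      (hcont'.comp (continuous_const.mul continuous_id))
  have hint : (∫ x in (0 : ℝ)..1, (∑ p ∈ Q, w p * χ ((p : ℝ) * x) - m) ^ 2)
      = ∑ p ∈ Q, ∑ q ∈ Q, w p * w q * ∫ x in (0 : ℝ)..1, χ' ((p : ℝ) * x) * χ' ((q : ℝ) * x) := by
    simp_rw [hexp]
    rw [intervalIntegral.integral_finsetSum]
    · refine Finset.sum_congr rfl fun p _ => ?_
      rw [intervalIntegral.integral_finsetSum]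
      · refine Finset.sum_congr rfl fun q _ => ?_
        rw [intervalIntegral.integral_const_mul]
      · intro q _
        exact ((hci p q).const_mul _).intervalIntegrable _ _
    · intro p _
      exact (continuous_finset_sum Q fun q _ => (hci p q).const_mul _).intervalIntegrable _ _
  rw [hint]
  have hdiag : ∀ p : ℕ, (∫ x in (0 : ℝ)..1, χ' ((p : ℝ) * x) * χ' ((p : ℝ) * x)) ≤ 1 := by
    intro p
    have h4 : (∫ x in (0 : ℝ)..1, χ' ((p : ℝ) * x) * χ' ((p : ℝ) * x))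
        ≤ ∫ _x in (0 : ℝ)..1, (1 : ℝ) :=
      intervalIntegral.integral_mono_on (by norm_num) ((hci p p).intervalIntegrable _ _)
        (continuous_const.intervalIntegrable _ _) (fun x _ => by
          have := h1' ((p : ℝ) * x)
          rw [abs_le] at this
          nlinarith [this.1, this.2])
    simpa using h4
  have hterm : ∀ p ∈ Q, ∀ q ∈ Q,
      w p * w q * (∫ x in (0 : ℝ)..1, χ' ((p : ℝ) * x) * χ' ((q : ℝ) * x))
        ≤ w p * ((if q = p then w q else 0) + w q * (K / P₀)) := by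
    intro p hp q hq
    have hww : 0 ≤ w p * w q := mul_nonneg (hw p) (hw q)
    have hKP : 0 ≤ K / P₀ := div_nonneg hK hP₀.le
    by_cases hpq : q = p
    · subst hpq
      rw [if_pos rfl]
      have h5 := mul_le_mul_of_nonneg_left (hdiag q) hww
      have h6 : 0 ≤ w q * (w q * (K / P₀)) := mul_nonneg (hw q) (mul_nonneg (hw q) hKP)
      nlinarith
    · rw [if_neg hpq, zero_add]
      have hcop : Nat.Coprime p q :=
        (Nat.coprime_primes (hQ p hp) (hQ q hq)).2 (fun h => hpq h.symm)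
      have h7 := RS_main χ' K hper' hL' h1' h0' p q hcop (hQ q hq).one_lt.le
      have h8 : K / q ≤ K / P₀ := div_le_div_of_nonneg_left hK hP₀ (hQP q hq)
      have h9 := (le_abs_self _).trans (h7.trans h8)
      have h10 := mul_le_mul_of_nonneg_left h9 hww
      linarith
  calc ∑ p ∈ Q, ∑ q ∈ Q, w p * w q * ∫ x in (0 : ℝ)..1, χ' ((p : ℝ) * x) * χ' ((q : ℝ) * x)
      ≤ ∑ p ∈ Q, ∑ q ∈ Q, w p * ((if q = p then w q else 0) + w q * (K / P₀)) :=
        Finset.sum_le_sum fun p hp => Finset.sum_le_sum fun q hq => hterm p hp q hq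
    _ = ∑ p ∈ Q, w p * (w p + K / P₀) := by
        refine Finset.sum_congr rfl fun p hp => ?_
        rw [← Finset.mul_sum, Finset.sum_add_distrib, ← Finset.sum_mul, hsum,
          Finset.sum_ite_eq' Q p, if_pos hp, one_mul]
    _ ≤ ∑ p ∈ Q, w p * (W + K / P₀) :=
        Finset.sum_le_sum fun p hp =>
          mul_le_mul_of_nonneg_left (by linarith [hW p hp]) (hw p)
    _ = W + K / P₀ := by rw [← Finset.sum_mul, hsum, one_mul]

end Pool.Agent.H6.FU
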