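import Pool.Agent.H6.FU.PT
import Pool.Agent.H6.FU.VAR
import Pool.Agent.H6.FU.CHI
import Pool.Agent.H6.FU.PR
import Pool.Agent.H6.FU.GRP
import Pool.Agent.H6.FU.GRD

/-!
# ML: from an interval of frequencies to all frequencies

Given `AC` and `DensLE (a,b) ε' c` with `ε' < ε`, `a < b ≤ a+1`, `c ≥ 0`, we get `DensLE univ ε (c/(b-a))`.

Proof. Let `c' > c/(b-a)`. Choose `τ ∈ (0,1)` with `3τ < b-a` and `2τ + (c+2τ)/((b-a)-3τ) ≤ c'` (the left side tends to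
`c/(b-a)` as `τ → 0+`). Put `η = (ε-ε')/2`, so `ε - 2η = ε'`.
* `CHI_main a b τ` gives `K`, `χ`; `m = ∫₀¹ χ ≥ (b-a)-τ`.
* `AC` for `ε` and `c := τ` gives `η₁ > 0`.
* Choose `P₀ ≥ 1` with `(1+K)/(P₀ τ²) ≤ η₁` and `L₀ = 6/(η²τ) + 1`; `PR_main P₀ L₀` gives `Q`; `L = ∑_{p∈Q} 1/p ≥ L₀ ≥ 1`,
  `P = Q.sup id`, `w p = 1/(p L)` (so `∑_{p∈Q} w p = 1`, `w p ≤ 1/P₀`), `G(x) = ∑_{p∈Q} w p χ(px)`,
  `Ψ(x) = (G(x) - m)²/τ²`: continuous (`χ` is Lipschitz), `1`-periodic (`χ(p(x+1)) = χ(px + p)`), `≥ 0`, and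
  `∫₀¹ Ψ ≤ (1/P₀ + K/P₀)/τ² ≤ η₁` (`VAR_main`). So `DensLE {1 ≤ Ψ} ε τ`; with `2τ > τ` it gives `H₁`.
* `DensLE (a,b) ε' c` with `c + τ > c` gives `H₂`.
Let `H ≥ H₀` where `H₀ ≥ H₁`, `(H₂+1)P`, `P²`, `P/η`, `2P`, `1` and `log H₀ ≥ 2/τ`; let `H ≤ ω`, `Hω ≤ X`.
If `Bad H univ ε n` with the frequency `α`, then either `Ψ(α) ≥ 1`, so `Bad H {1 ≤ Ψ} ε n`, or `|G(α) - m| < τ`; call `E` the
set of the `n` of the second kind. Then `∑_{p∈Q} χ(pα)/p = L G(α) ≥ (m-τ)L`, and `PT_main` (`6/η² ≤ τL`) gives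
`(m-2τ) L ≤ ∑_{p∈Q, Bad (H/p) (a,b) ε' (n/p)} 1/p`. Multiply by `1/n` and sum over the `n ∈ E`, `n ∈ [X/ω, X]`:
`(m-2τ) L mass E ≤ ∑_{p∈Q} (1/p) mass (fun n => Bad (H/p) (a,b) ε' (n/p)) ω X ≤ ∑_p (1/p)(mass (Bad (H/p) (a,b) ε') ω (X/p) + 2)`
(`GRP_div`, `2pω ≤ 2Pω ≤ Hω ≤ X`). For `p ∈ Q`: `H/p ≥ H₂`, `⌊H/p⌋ ≤ H ≤ ω`, `⌊H/p⌋ω ≤ X/p`, so this is
`≤ L((c+τ)log ω + 2) ≤ L(c+2τ)log ω`. As `m - 2τ ≥ (b-a) - 3τ > 0`:
`mass (Bad H univ ε) ω X ≤ 2τ log ω + (c+2τ)/((b-a)-3τ) log ω ≤ c' log ω`.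
-/

namespace Pool.Agent.H6.FU

open Finset

theorem ML_choose (d c c' : ℝ) (hd : 0 < d) (hc : c / d < c') :
    ∃ τ : ℝ, 0 < τ ∧ τ < 1 ∧ 3 * τ < d ∧ 2 * τ + (c + 2 * τ) / (d - 3 * τ) < c' := by
  have hcont : ContinuousAt (fun τ : ℝ => 2 * τ + (c + 2 * τ) / (d - 3 * τ)) 0 := by
    apply ContinuousAt.add
    · fun_prop
    · apply ContinuousAt.div
      · fun_prop
      · fun_prop
      · simp; exact hd.ne'
  have h1 : ∀ᶠ τ in nhds (0:ℝ), 2 * τ + (c + 2 * τ) / (d - 3 * τ) < c' := by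
    apply hcont.eventually_lt continuousAt_const
    simpa using hc
  have h2 : ∀ᶠ τ in nhds (0:ℝ), τ < 1 := eventually_lt_nhds one_pos
  have h3 : ∀ᶠ τ in nhds (0:ℝ), τ < d / 3 := eventually_lt_nhds (by positivity)
  have h5 : ∀ᶠ τ in nhdsWithin (0:ℝ) (Set.Ioi 0), ((2 * τ + (c + 2 * τ) / (d - 3 * τ) < c' ∧ τ < 1 ∧ τ < d / 3) ∧
      τ ∈ Set.Ioi (0:ℝ)) :=
    ((h1.and (h2.and h3)).filter_mono nhdsWithin_le_nhds).and self_mem_nhdsWithin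
  obtain ⟨τ, ⟨h1, h2, h3⟩, h4⟩ := h5.exists
  exact ⟨τ, h4, h2, by linarith, h1⟩

open Classical in
theorem ML_swap (E : ℕ → Prop) (B : ℕ → ℕ → Prop) (Q : Finset ℕ) (A ω X : ℝ)
    (h : ∀ n, E n → A ≤ ∑ p ∈ Q.filter (fun p => B p (n / p)), 1 / (p : ℝ)) :
    A * mass E ω X ≤ ∑ p ∈ Q, 1 / (p : ℝ) * mass (fun n => B p (n / p)) ω X := by
  unfold mass
  rw [Finset.mul_sum]
  calc ∑ n ∈ (Icc ⌈X / ω⌉₊ ⌊X⌋₊).filter E, A * (1 / (n:ℝ))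
      ≤ ∑ n ∈ (Icc ⌈X / ω⌉₊ ⌊X⌋₊).filter E,
          (∑ p ∈ Q.filter (fun p => B p (n / p)), 1 / (p : ℝ)) * (1 / (n:ℝ)) :=
        sum_le_sum fun n hn => mul_le_mul_of_nonneg_right (h n (mem_filter.1 hn).2) (by positivity)
    _ ≤ ∑ n ∈ (Icc ⌈X / ω⌉₊ ⌊X⌋₊),
          (∑ p ∈ Q.filter (fun p => B p (n / p)), 1 / (p : ℝ)) * (1 / (n:ℝ)) :=
        sum_le_sum_of_subset_of_nonneg (filter_subset _ _) (fun n _ _ =>
          mul_nonneg (sum_nonneg fun _ _ => by positivity) (by positivity))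
    _ = ∑ p ∈ Q, 1 / (p : ℝ) * ∑ n ∈ (Icc ⌈X / ω⌉₊ ⌊X⌋₊).filter (fun n => B p (n / p)), 1 / (n:ℝ) := by
        simp only [Finset.sum_filter, Finset.sum_mul, Finset.mul_sum]
        rw [Finset.sum_comm]
        refine sum_congr rfl fun p _ => sum_congr rfl fun n _ => ?_
        split_ifs <;> simp

open Classical in
theorem ML_or (B B₁ B₂ : ℕ → Prop) (ω X : ℝ) (h : ∀ n, B n → B₁ n ∨ B₂ n) :
    mass B ω X ≤ mass B₁ ω X + mass B₂ ω X := by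
  unfold mass
  simp only [Finset.sum_filter]
  rw [← Finset.sum_add_distrib]
  refine sum_le_sum fun n _ => ?_
  have h0 : (0:ℝ) ≤ 1 / (n:ℝ) := by positivity
  by_cases hB : B n
  · rcases h n hB with h1 | h2
    · simp only [hB, h1, if_true]
      split_ifs <;> linarith
    · simp only [hB, h2, if_true]
      split_ifs <;> linarith
  · simp only [hB, if_false]
    split_ifs <;> linarith

/-- the function `Ψ` and its properties -/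
theorem ML_psi (χ : ℝ → ℝ) (K m P₀ τ η₁ L : ℝ) (hper : Function.Periodic χ 1) (hK : 0 ≤ K)
    (hL : ∀ x y, |χ x - χ y| ≤ K * |x - y|) (h0 : ∀ x, 0 ≤ χ x) (h1 : ∀ x, χ x ≤ 1)
    (hm : ∫ x in (0 : ℝ)..1, χ x = m) (hP₀ : 1 ≤ P₀) (hτ : 0 < τ) (hη₁ : 0 < η₁)
    (hP : (1 + K) / (η₁ * τ ^ 2) ≤ P₀) (Q : Finset ℕ) (hQ : ∀ p ∈ Q, p.Prime)
    (hQP : ∀ p ∈ Q, P₀ ≤ (p : ℝ)) (hL1 : 1 ≤ L) (hLs : L = ∑ p ∈ Q, 1 / (p : ℝ)) :
    ∃ Ψ : ℝ → ℝ, Continuous Ψ ∧ Function.Periodic Ψ 1 ∧ (∀ x, 0 ≤ Ψ x) ∧ (∫ x in (0 : ℝ)..1, Ψ x) ≤ η₁ ∧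
      ∀ α, Ψ α < 1 → (m - τ) * L ≤ ∑ p ∈ Q, 1 / (p : ℝ) * χ ((p : ℝ) * α) := by
  have hL0 : 0 < L := by linarith
  have hcχ : Continuous χ := by
    have : LipschitzWith (Real.toNNReal K) χ := by
      apply LipschitzWith.of_dist_le_mul
      intro x y
      rw [Real.dist_eq, Real.dist_eq, Real.coe_toNNReal K hK]
      exact hL x y
    exact this.continuous
  set w : ℕ → ℝ := fun p => 1 / ((p : ℝ) * L) with hw
  refine ⟨fun x => (∑ p ∈ Q, w p * χ ((p : ℝ) * x) - m) ^ 2 / τ ^ 2, ?_, ?_, ?_, ?_, ?_⟩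
  · apply Continuous.div_const
    apply Continuous.pow
    apply Continuous.sub _ continuous_const
    apply continuous_finsetSum
    intro p _
    exact continuous_const.mul (hcχ.comp (continuous_const.mul continuous_id))
  · intro x
    have : ∀ p : ℕ, χ ((p : ℝ) * (x + 1)) = χ ((p : ℝ) * x) := by
      intro p
      have := hper.nat_mul p ((p:ℝ) * x)
      rw [← this]; congr 1; ring
    simp only [this]
  · intro x; positivity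
  · have hV := VAR_main χ K m P₀ (1 / P₀) hper hL h0 h1 hm (by linarith) Q hQ hQP w
      (fun p => by simp only [hw]; positivity)
      (fun p hp => by
        simp only [hw]
        apply one_div_le_one_div_of_le (by linarith)
        nlinarith [hQP p hp])
      (by
        simp only [hw]
        have : ∀ p ∈ Q, 1 / ((p : ℝ) * L) = 1 / (p : ℝ) * (1 / L) := fun p _ => by
          rw [one_div_mul_one_div]
        rw [sum_congr rfl this, ← Finset.sum_mul, ← hLs]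
        field_simp)
    rw [intervalIntegral.integral_div]
    have h2 : (1 + K) / P₀ ≤ η₁ * τ ^ 2 := by
      rw [div_le_iff₀ (by positivity)] at hP
      rw [div_le_iff₀ (by linarith)]
      linarith
    rw [div_le_iff₀ (by positivity)]
    refine hV.trans ?_
    rw [← add_div]
    exact h2
  · intro α hα
    have hα' : (∑ p ∈ Q, w p * χ ((p : ℝ) * α) - m) ^ 2 < τ ^ 2 := by
      have : (∑ p ∈ Q, w p * χ ((p : ℝ) * α) - m) ^ 2 / τ ^ 2 < 1 := hα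
      rwa [div_lt_one (by positivity)] at this
    have h3 := abs_lt_of_sq_lt_sq hα' hτ.le
    have h4 := (abs_lt.1 h3).1
    have h5 : ∑ p ∈ Q, 1 / (p : ℝ) * χ ((p : ℝ) * α) = L * ∑ p ∈ Q, w p * χ ((p : ℝ) * α) := by
      rw [Finset.mul_sum]
      refine sum_congr rfl fun p hp => ?_
      have hp0 : (0:ℝ) < p := by exact_mod_cast (hQ p hp).pos
      simp only [hw]
      field_simp
    rw [h5]
    nlinarith

open Classical in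
theorem ML_main (a b ε' ε c : ℝ) (hab : a < b) (hb : b ≤ a + 1) (hε' : 0 < ε') (hε : ε' < ε) (hc : 0 ≤ c)
    (hAC : AC) (h : DensLE (Set.Ioo a b) ε' c) : DensLE Set.univ ε (c / (b - a)) := by
  intro c' hc'
  obtain ⟨τ, hτ0, hτ1, hτ3, hτc⟩ := ML_choose (b - a) c c' (by linarith) hc'
  obtain ⟨η, hη⟩ : ∃ η, η = (ε - ε') / 2 := ⟨_, rfl⟩
  have hη0 : 0 < η := by rw [hη]; linarith
  have hηε : ε - 2 * η = ε' := by rw [hη]; ring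
  obtain ⟨K, χ, hK, hper, hL, h0, h1, hU, hm⟩ := CHI_main a b τ hab hb hτ0
  obtain ⟨m, hm'⟩ : ∃ m, ∫ x in (0 : ℝ)..1, χ x = m := ⟨_, rfl⟩
  rw [hm'] at hm
  obtain ⟨η₁, hη₁, hAC1⟩ := hAC ε (by linarith) τ hτ0
  obtain ⟨P₀, hP₀⟩ : ∃ P₀ : ℝ, P₀ = max 1 ((1 + K) / (η₁ * τ ^ 2)) := ⟨_, rfl⟩
  have hP₀1 : 1 ≤ P₀ := hP₀ ▸ le_max_left _ _
  have hP₀2 : (1 + K) / (η₁ * τ ^ 2) ≤ P₀ := hP₀ ▸ le_max_right _ _
  obtain ⟨Q, hQp, hQP, hQL⟩ := PR_main P₀ (6 / (η ^ 2 * τ) + 1)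
  obtain ⟨L, hLdef⟩ : ∃ L, L = ∑ p ∈ Q, 1 / (p : ℝ) := ⟨_, rfl⟩
  rw [← hLdef] at hQL
  have h60 : 0 < 6 / (η ^ 2 * τ) := by positivity
  have hL1 : 1 ≤ L := by linarith
  have h6 : 6 / η ^ 2 ≤ τ * L := by
    have h7 : 6 / (η ^ 2 * τ) ≤ L := by linarith
    rw [div_le_iff₀ (by positivity)] at h7 ⊢
    linarith
  obtain ⟨Ψ, hΨc, hΨp, hΨ0, hΨi, hΨ⟩ := ML_psi χ K m P₀ τ η₁ L hper hK hL h0 h1 hm' hP₀1 hτ0 hη₁ hP₀2 Q hQp hQP
    hL1 hLdef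
  obtain ⟨P, hPdef⟩ : ∃ P, P = Q.sup id := ⟨_, rfl⟩
  have hP : ∀ p ∈ Q, p ≤ P := fun p hp => hPdef ▸ Finset.le_sup (f := id) hp
  obtain ⟨H₁, hH₁⟩ := hAC1 Ψ hΨc hΨp hΨ0 hΨi (2 * τ) (by linarith)
  obtain ⟨H₂, hH₂⟩ := h (c + τ) (by linarith)
  refine ⟨max H₁ (max ((H₂ + 1) * P) (max (P ^ 2) (max ⌈(P:ℝ) / η⌉₊ (max (2 * P) (max 1 ⌈Real.exp (2 / τ)⌉₊))))), ?_⟩
  intro H hH ω X hω hX
  simp only [max_le_iff] at hH
  obtain ⟨hHa, hHb, hHc, hHd, hHe, hHf, hHg⟩ := hH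
  have hH1 : (1:ℝ) ≤ H := by exact_mod_cast hHf
  have hω1 : 1 ≤ ω := hH1.trans hω
  have hω0 : 0 < ω := by linarith
  have hlog : 2 / τ ≤ Real.log ω := by
    rw [Real.le_log_iff_exp_le hω0]
    exact (Nat.le_ceil _).trans ((Nat.cast_le.2 hHg).trans hω)
  have hlog2 : 2 ≤ τ * Real.log ω := by
    rw [div_le_iff₀ hτ0] at hlog; linarith
  have hlog0 : 0 ≤ Real.log ω := Real.log_nonneg hω1
  have hPη : (P : ℝ) ≤ η * H := by
    have := (Nat.le_ceil ((P:ℝ) / η)).trans (Nat.cast_le.2 hHd)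
    rw [div_le_iff₀ hη0] at this; linarith
  -- the two kinds of bad windows
  set E : ℕ → Prop := fun n => ∃ α : ℝ, ε * (H : ℝ) ≤ ‖S H n α‖ ∧ Ψ α < 1 with hE
  have hor : ∀ n, Bad H Set.univ ε n → Bad H {α | 1 ≤ Ψ α} ε n ∨ E n := by
    rintro n ⟨α, -, hα⟩
    by_cases h8 : 1 ≤ Ψ α
    · exact Or.inl ⟨α, h8, hα⟩
    · exact Or.inr ⟨α, hα, not_le.1 h8⟩
  have hEn : ∀ n, E n → (m - 2 * τ) * L ≤
      ∑ p ∈ Q.filter (fun p : ℕ => (fun p k => Bad (H / p) (Set.Ioo a b) ε' k) p (n / p)), 1 / (p : ℝ) := by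
    rintro n ⟨α, hα, hα1⟩
    have := PT_main (Set.Ioo a b) χ h1 hU H n P α ε η m τ L hHf hη0 (by linarith) hα Q hQp hP hHc hPη h6 (hΨ α hα1)
    rw [hηε] at this
    convert this using 2
  have hsw := ML_swap E (fun p k => Bad (H / p) (Set.Ioo a b) ε' k) Q ((m - 2 * τ) * L) ω X hEn
  have hterm : ∀ p ∈ Q, 1 / (p : ℝ) * mass (fun n => (fun p k => Bad (H / p) (Set.Ioo a b) ε' k) p (n / p)) ω X ≤
      1 / (p : ℝ) * ((c + 2 * τ) * Real.log ω) := by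
    intro p hp
    have hp1 : 1 ≤ p := (hQp p hp).one_le
    have hpP := hP p hp
    have hp0 : (0:ℝ) < p := by exact_mod_cast hp1
    have hpP' : (p:ℝ) ≤ P := by exact_mod_cast hpP
    apply mul_le_mul_of_nonneg_left _ (by positivity)
    have hHe' : 2 * (P:ℝ) ≤ H := by exact_mod_cast hHe
    have hg := GRP_div (Bad (H / p) (Set.Ioo a b) ε') p hp1 ω X hω1 (by nlinarith)
    have hdiv : ((H / p : ℕ) : ℝ) ≤ (H:ℝ) / p := Nat.cast_div_le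
    have hHp : H₂ ≤ H / p := by
      rw [Nat.le_div_iff_mul_le hp1]
      calc H₂ * p ≤ (H₂ + 1) * P := Nat.mul_le_mul (Nat.le_succ _) hpP
        _ ≤ H := hHb
    have hd2 : ((H / p : ℕ) : ℝ) ≤ ω := by
      have : ((H / p : ℕ) : ℝ) ≤ (H:ℝ) := Nat.cast_le.2 (Nat.div_le_self _ _)
      linarith
    have hd3 : ((H / p : ℕ) : ℝ) * ω ≤ X / p := by
      calc ((H / p : ℕ) : ℝ) * ω ≤ (H:ℝ) / p * ω := mul_le_mul_of_nonneg_right hdiv hω0.le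
        _ = (H * ω) / p := by ring
        _ ≤ X / p := div_le_div_of_nonneg_right hX hp0.le
    have hh := hH₂ (H / p) hHp ω (X / p) hd2 hd3
    calc mass (fun n => Bad (H / p) (Set.Ioo a b) ε' (n / p)) ω X
        ≤ mass (Bad (H / p) (Set.Ioo a b) ε') ω (X / p) + 2 := hg
      _ ≤ (c + τ) * Real.log ω + τ * Real.log ω := by linarith
      _ = (c + 2 * τ) * Real.log ω := by ring
  have hsum := hsw.trans (sum_le_sum hterm)
  rw [← Finset.sum_mul, ← hLdef] at hsum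
  have hL0 : 0 < L := by linarith
  have hE1 : (m - 2 * τ) * mass E ω X ≤ (c + 2 * τ) * Real.log ω := by
    have : L * ((m - 2 * τ) * mass E ω X) ≤ L * ((c + 2 * τ) * Real.log ω) := by
      linarith
    exact le_of_mul_le_mul_left this hL0
  have hE0 := mass_nonneg E ω X
  have hd0 : 0 < b - a - 3 * τ := by linarith
  have hE2 : mass E ω X ≤ (c + 2 * τ) / (b - a - 3 * τ) * Real.log ω := by
    rw [div_mul_eq_mul_div, le_div_iff₀ hd0]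
    nlinarith
  have hA := hH₁ H hHa ω X hω hX
  have hfin := ML_or (Bad H Set.univ ε) (Bad H {α | 1 ≤ Ψ α} ε) E ω X hor
  calc mass (Bad H Set.univ ε) ω X ≤ 2 * τ * Real.log ω + (c + 2 * τ) / (b - a - 3 * τ) * Real.log ω := by linarith
    _ = (2 * τ + (c + 2 * τ) / (b - a - 3 * τ)) * Real.log ω := by ring
    _ ≤ c' * Real.log ω := mul_le_mul_of_nonneg_right hτc.le hlog0

end Pool.Agent.H6.FU
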