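import Pool.Agent.H6.FU.GRP

/-!
# NA: dilated windows in one class of primes, upper bound

Let `E` be a set of integers, `Z ≥ 4`, `4Z² ≤ X`, `Z² ≤ H ≤ X`. Then
`∑_{Z<p≤Z²} (1/p)(1/⌊H/p⌋) ∑_{X<n≤2X} ∑_{t<⌊H/p⌋} 1[E(⌊n/p⌋+t)] ≤ (3CX/log Z) mass E Z² (3X/Z)`.

Proof. Fix `p` and `t < h := ⌊H/p⌋` (`h ≥ 1`). For `n ∈ (⌊X⌋, ⌊2X⌋]` (so `X < n ≤ 2X`) the integer `m' = ⌊n/p⌋ + t` satisfies
`X/p - 1 < m' ≤ 2X/p + H/p ≤ 3X/p`, and each value of `⌊n/p⌋` is taken by at most `p` integers `n`. So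
`(1/p) ∑_n 1[E(⌊n/p⌋+t)] ≤ #{m' ∈ (X/p-1, 3X/p] : E m'}`, and the average over `t < h` has the same bound. Sum over `p` and
exchange: `LHS ≤ ∑_{m' : E m'} #{p ∈ (Z,Z²] prime : X/p - 1 < m' ≤ 3X/p}`. For a pair `(m',p)` in this count: `m' > X/Z² - 1 ≥ 3`,
`m' ≤ 3X/Z` and `p ≤ y := 3X/m'`, where `y ≥ Z ≥ 4`; so the number of `p` is at most `C y/log y ≤ 3CX/(m' log Z)`.
Finally `m'` is in the range `[X'/ω', X']` of `mass E ω' X'` with `X' = 3X/Z`, `ω' = Z²`, because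
`X'/ω' = 3X/Z³ ≤ X/Z² - 1 < m'` (`X/Z² (1-3/Z) ≥ 4·(1/4) = 1`).
-/

namespace Pool.Agent.H6.FU

open Finset

open Classical in
theorem NA_fibre (X : ℝ) (p t : ℕ) (hp : 0 < p) (E : ℕ → Prop) (J : Finset ℕ)
    (hJ : ∀ n ∈ Ioc ⌊X⌋₊ ⌊2 * X⌋₊, E (n / p + t) → n / p + t ∈ J) :
    ((Ioc ⌊X⌋₊ ⌊2 * X⌋₊).filter (fun n => E (n / p + t))).card ≤ p * J.card := by
  refine Finset.card_le_mul_card_image_of_maps_to (f := fun n => n / p + t) ?_ p ?_
  · intro n hn
    rw [mem_filter] at hn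
    exact hJ n hn.1 hn.2
  · intro b _
    have hsub : ((Ioc ⌊X⌋₊ ⌊2 * X⌋₊).filter (fun n => E (n / p + t))).filter
        (fun n => n / p + t = b) ⊆ Ico (p * (b - t)) (p * (b - t) + p) := by
      intro n hn
      rw [mem_filter] at hn
      have h1 : n / p = b - t := by rw [← hn.2, Nat.add_sub_cancel]
      rw [mem_Ico, ← h1]
      constructor
      · exact Nat.mul_div_le n p
      · have := Nat.lt_mul_div_succ n hp
        rw [mul_add, mul_one] at this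
        exact this
    refine (card_le_card hsub).trans ?_
    simp

open Classical in
theorem NA_main (C : ℝ) (hC : ∀ y : ℝ, 2 ≤ y → (((Icc 1 ⌊y⌋₊).filter Nat.Prime).card : ℝ) ≤ C * y / Real.log y)
    (E : ℕ → Prop) (H Z : ℕ) (X : ℝ) (hZ : 4 ≤ Z) (hX : 4 * (Z : ℝ) ^ 2 ≤ X) (hHX : (H : ℝ) ≤ X) (hH : Z ^ 2 ≤ H) :
    (∑ p ∈ (Ioc Z (Z ^ 2)).filter Nat.Prime, 1 / (p : ℝ) * (1 / ((H / p : ℕ) : ℝ) *
      ∑ n ∈ Ioc ⌊X⌋₊ ⌊2 * X⌋₊, (((range (H / p)).filter (fun t => E (n / p + t))).card : ℝ)))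
      ≤ 3 * C * X / Real.log Z * mass E ((Z : ℝ) ^ 2) (3 * X / Z) := by
  have hZR : (4 : ℝ) ≤ Z := by exact_mod_cast hZ
  have hZpos : (0 : ℝ) < Z := by linarith
  have hXpos : 0 < X := by nlinarith
  have hlogZ : 0 < Real.log Z := Real.log_pos (by linarith)
  have hC0 : 0 ≤ C := by
    have h1 := hC 2 le_rfl
    have h2 : 0 ≤ C * 2 / Real.log 2 := le_trans (Nat.cast_nonneg _) h1
    have h3 : 0 < Real.log 2 := Real.log_pos (by norm_num)
    by_contra! hneg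
    have h4 : C * 2 / Real.log 2 < 0 := div_neg_of_neg_of_pos (by linarith) h3
    linarith
  set J : Finset ℕ := (Icc ⌈3 * X / Z / (Z : ℝ) ^ 2⌉₊ ⌊3 * X / Z⌋₊).filter E with hJ
  have hmass : mass E ((Z : ℝ) ^ 2) (3 * X / Z) = ∑ m ∈ J, 1 / (m : ℝ) := rfl
  -- the number of bad windows for one prime
  have step1 : ∀ p ∈ (Ioc Z (Z ^ 2)).filter Nat.Prime, 1 / (p : ℝ) * (1 / ((H / p : ℕ) : ℝ) *
      ∑ n ∈ Ioc ⌊X⌋₊ ⌊2 * X⌋₊, (((range (H / p)).filter (fun t => E (n / p + t))).card : ℝ)) ≤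
      ((J.filter (fun m : ℕ => (m : ℝ) * p ≤ 3 * X)).card : ℝ) := by
    intro p hp
    rw [mem_filter, mem_Ioc] at hp
    obtain ⟨⟨hpZ, hpZ2⟩, -⟩ := hp
    have hp0 : 0 < p := by omega
    have hpR : (0 : ℝ) < p := by exact_mod_cast hp0
    have hpZR : (Z : ℝ) < p := by exact_mod_cast hpZ
    have hpZ2R : (p : ℝ) ≤ (Z : ℝ) ^ 2 := by exact_mod_cast hpZ2
    have hh0 : 0 < H / p := Nat.div_pos (hpZ2.trans hH) hp0
    have hhR : (0 : ℝ) < ((H / p : ℕ) : ℝ) := by exact_mod_cast hh0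
    have hmem : ∀ t < H / p, ∀ n ∈ Ioc ⌊X⌋₊ ⌊2 * X⌋₊, E (n / p + t) →
        n / p + t ∈ J.filter (fun m : ℕ => (m : ℝ) * p ≤ 3 * X) := by
      intro t ht n hn hE
      rw [mem_Ioc] at hn
      have hnX : X < n := Nat.lt_of_floor_lt hn.1
      have hn2X : (n : ℝ) ≤ 2 * X := (Nat.le_floor_iff (by linarith)).1 hn.2
      -- upper bound
      have hup : ((n / p + t : ℕ) : ℝ) * p ≤ 3 * X := by
        have h1 : (n / p) * p ≤ n := Nat.div_mul_le_self n p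
        have h2 : (H / p) * p ≤ H := Nat.div_mul_le_self H p
        have h3 : t * p ≤ H := (Nat.mul_le_mul_right p ht.le).trans h2
        have h4 : ((n / p + t : ℕ) : ℝ) * p = (((n / p) * p + t * p : ℕ) : ℝ) := by
          push_cast
          ring
        rw [h4]
        have h5 : (((n / p) * p + t * p : ℕ) : ℝ) ≤ ((n + H : ℕ) : ℝ) := by
          exact_mod_cast Nat.add_le_add h1 h3
        push_cast at h5 ⊢
        linarith
      -- lower bound
      have hlow : X / (Z : ℝ) ^ 2 - 1 < ((n / p + t : ℕ) : ℝ) := by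
        have h1 : n < p * (n / p + 1) := Nat.lt_mul_div_succ n hp0
        have h2 : (n : ℝ) < p * (((n / p : ℕ) : ℝ) + 1) := by exact_mod_cast h1
        have h3 : X < p * (((n / p + t : ℕ) : ℝ) + 1) := by
          have : ((n / p : ℕ) : ℝ) ≤ ((n / p + t : ℕ) : ℝ) := by
            exact_mod_cast Nat.le_add_right _ _
          nlinarith
        have h4 : X < (Z : ℝ) ^ 2 * (((n / p + t : ℕ) : ℝ) + 1) := by
          have : (0 : ℝ) ≤ ((n / p + t : ℕ) : ℝ) + 1 := by positivity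
          nlinarith
        rw [sub_lt_iff_lt_add, div_lt_iff₀ (by positivity)]
        linarith
      rw [mem_filter, hJ, mem_filter, mem_Icc]
      refine ⟨⟨⟨?_, ?_⟩, hE⟩, hup⟩
      · rw [Nat.ceil_le]
        refine le_trans ?_ hlow.le
        have hq : 4 ≤ X / (Z : ℝ) ^ 2 := by
          rw [le_div_iff₀ (by positivity)]
          exact hX
        have h5 : 3 * X / Z / (Z : ℝ) ^ 2 = 3 / Z * (X / (Z : ℝ) ^ 2) := by
          field_simp
        rw [h5]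
        have h6 : 3 / (Z : ℝ) ≤ 3 / 4 := by
          rw [div_le_div_iff₀ hZpos (by norm_num)]
          linarith
        nlinarith
      · apply Nat.le_floor
        rw [le_div_iff₀ hZpos]
        have : (0 : ℝ) ≤ ((n / p + t : ℕ) : ℝ) := by positivity
        nlinarith
    have hsum : ∑ n ∈ Ioc ⌊X⌋₊ ⌊2 * X⌋₊,
        (((range (H / p)).filter (fun t => E (n / p + t))).card : ℝ) ≤
        ((H / p : ℕ) : ℝ) * (p * ((J.filter (fun m : ℕ => (m : ℝ) * p ≤ 3 * X)).card : ℝ)) := by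
      have h1 : ∑ n ∈ Ioc ⌊X⌋₊ ⌊2 * X⌋₊, ((range (H / p)).filter (fun t => E (n / p + t))).card =
          ∑ t ∈ range (H / p), ((Ioc ⌊X⌋₊ ⌊2 * X⌋₊).filter (fun n => E (n / p + t))).card := by
        simp_rw [card_filter]
        exact sum_comm
      have h2 : ∑ t ∈ range (H / p), ((Ioc ⌊X⌋₊ ⌊2 * X⌋₊).filter (fun n => E (n / p + t))).card ≤
          ∑ _t ∈ range (H / p), p * (J.filter (fun m : ℕ => (m : ℝ) * p ≤ 3 * X)).card := by
        refine sum_le_sum fun t ht => ?_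
        exact NA_fibre X p t hp0 E _ fun n hn hE => hmem t (mem_range.1 ht) n hn hE
      rw [← h1, sum_const, card_range, smul_eq_mul] at h2
      exact_mod_cast h2
    calc 1 / (p : ℝ) * (1 / ((H / p : ℕ) : ℝ) *
          ∑ n ∈ Ioc ⌊X⌋₊ ⌊2 * X⌋₊, (((range (H / p)).filter (fun t => E (n / p + t))).card : ℝ))
        ≤ 1 / (p : ℝ) * (1 / ((H / p : ℕ) : ℝ) * (((H / p : ℕ) : ℝ) *
          (p * ((J.filter (fun m : ℕ => (m : ℝ) * p ≤ 3 * X)).card : ℝ)))) := by gcongr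
      _ = ((J.filter (fun m : ℕ => (m : ℝ) * p ≤ 3 * X)).card : ℝ) := by
          field_simp
  -- exchange of the summations
  have step2 : ∑ p ∈ (Ioc Z (Z ^ 2)).filter Nat.Prime,
      ((J.filter (fun m : ℕ => (m : ℝ) * p ≤ 3 * X)).card : ℝ) =
      ∑ m ∈ J, ((((Ioc Z (Z ^ 2)).filter Nat.Prime).filter
        (fun p : ℕ => (m : ℝ) * p ≤ 3 * X)).card : ℝ) := by
    have h1 : ∑ p ∈ (Ioc Z (Z ^ 2)).filter Nat.Prime,
        (J.filter (fun m : ℕ => (m : ℝ) * p ≤ 3 * X)).card =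
        ∑ m ∈ J, (((Ioc Z (Z ^ 2)).filter Nat.Prime).filter
          (fun p : ℕ => (m : ℝ) * p ≤ 3 * X)).card := by
      simp_rw [card_filter]
      exact sum_comm
    exact_mod_cast h1
  have step3 : ∀ m ∈ J, ((((Ioc Z (Z ^ 2)).filter Nat.Prime).filter
      (fun p : ℕ => (m : ℝ) * p ≤ 3 * X)).card : ℝ) ≤ 3 * C * X / Real.log Z * (1 / (m : ℝ)) := by
    intro m hm
    rw [hJ, mem_filter, mem_Icc] at hm
    have hm0 : 0 < m := by
      refine Nat.lt_of_lt_of_le ?_ hm.1.1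
      rw [Nat.ceil_pos]
      positivity
    have hmR : (0 : ℝ) < m := by exact_mod_cast hm0
    rcases (((Ioc Z (Z ^ 2)).filter Nat.Prime).filter
      (fun p : ℕ => (m : ℝ) * p ≤ 3 * X)).eq_empty_or_nonempty with he | ⟨p0, hp0⟩
    · rw [he]
      simp only [card_empty, Nat.cast_zero]
      positivity
    · rw [mem_filter, mem_filter, mem_Ioc] at hp0
      obtain ⟨⟨⟨hp1, -⟩, -⟩, hp4⟩ := hp0
      have hp1R : (Z : ℝ) < p0 := by exact_mod_cast hp1
      have hy : (Z : ℝ) ≤ 3 * X / m := by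
        rw [le_div_iff₀ hmR]
        nlinarith
      have hsub : ((Ioc Z (Z ^ 2)).filter Nat.Prime).filter
          (fun p : ℕ => (m : ℝ) * p ≤ 3 * X) ⊆ (Icc 1 ⌊3 * X / m⌋₊).filter Nat.Prime := by
        intro p hp
        rw [mem_filter, mem_filter, mem_Ioc] at hp
        obtain ⟨⟨⟨h1, -⟩, h3⟩, h4⟩ := hp
        rw [mem_filter, mem_Icc]
        refine ⟨⟨by omega, ?_⟩, h3⟩
        apply Nat.le_floor
        rw [le_div_iff₀ hmR]
        linarith
      have hcard : ((((Ioc Z (Z ^ 2)).filter Nat.Prime).filter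
          (fun p : ℕ => (m : ℝ) * p ≤ 3 * X)).card : ℝ) ≤
          (((Icc 1 ⌊3 * X / m⌋₊).filter Nat.Prime).card : ℝ) := by
        exact_mod_cast card_le_card hsub
      refine hcard.trans ((hC _ (by linarith)).trans ?_)
      have hlog : Real.log Z ≤ Real.log (3 * X / m) := Real.log_le_log hZpos hy
      calc C * (3 * X / m) / Real.log (3 * X / m) ≤ C * (3 * X / m) / Real.log Z := by
            gcongr
        _ = 3 * C * X / Real.log Z * (1 / (m : ℝ)) := by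
            field_simp
  calc _ ≤ ∑ p ∈ (Ioc Z (Z ^ 2)).filter Nat.Prime,
        ((J.filter (fun m : ℕ => (m : ℝ) * p ≤ 3 * X)).card : ℝ) := sum_le_sum step1
    _ = _ := step2
    _ ≤ ∑ m ∈ J, 3 * C * X / Real.log Z * (1 / (m : ℝ)) := sum_le_sum step3
    _ = _ := by rw [hmass, mul_sum]

end Pool.Agent.H6.FU
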