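import Pool.Agent.H6.FU.EXC

/-!
# PT: dilating one bad window

Data: `χ ≥ 0`, `χ ≤ 1`, `χ x ≠ 0 → x + k ∈ U` for some integer `k`; a finite set `Q` of primes `≤ P` with
`L = ∑_{p∈Q} 1/p > 0`; a bad window `‖S H n α‖ ≥ εH` with `∑_{p∈Q} (1/p) χ(pα) ≥ (m - τ) L`. With `2η ≤ ε`,
`6/η² ≤ τ L`: the primes `p ∈ Q` for which `⌊n/p⌋` is a bad window for `⌊H/p⌋`, `U` and `ε - 2η` have
`∑ 1/p ≥ (m - 2τ)L`.

Proof. Let `p ∈ Q` be not exceptional in the sense of `EXC_main`, and `χ(pα) ≠ 0`. Then there is `k ∈ ℤ` with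
`pα + k ∈ U` and `‖S (H/p) (n/p) (pα + k)‖ = ‖S (H/p) (n/p) (pα)‖ ≥ (ε-2η)(H/p)` (`S` is `1`-periodic in `α`: `PT_periodic`),
so `Bad (H/p) U (ε-2η) (n/p)`. Therefore
`(m-τ)L ≤ ∑_{p∈Q} χ(pα)/p ≤ ∑_{p ∈ Q, χ(pα) ≠ 0} 1/p ≤ ∑_{p ∈ Q, exceptional} 1/p + ∑_{p∈Q, Bad} 1/p ≤ 6/η² + ∑_{p∈Q, Bad}1/p`.
-/

namespace Pool.Agent.H6.FU

open Finset

/-- `S` is `1`-periodic in the frequency: `e(h(α+k)) = e(hα)`. -/
theorem PT_periodic (H n : ℕ) (α : ℝ) (k : ℤ) : S H n (α + k) = S H n α := by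
  unfold S
  refine Finset.sum_congr rfl fun h _ => ?_
  congr 1
  rw [Complex.exp_eq_exp_iff_exists_int]
  refine ⟨h * k, ?_⟩
  push_cast
  ring

open Classical in
theorem PT_main (U : Set ℝ) (χ : ℝ → ℝ) (h1 : ∀ x, χ x ≤ 1) (hU : ∀ x, χ x ≠ 0 → ∃ k : ℤ, x + k ∈ U)
    (H n P : ℕ) (α ε η m τ L : ℝ) (hH : 1 ≤ H) (hη : 0 < η) (hε : 2 * η ≤ ε)
    (hS : ε * (H : ℝ) ≤ ‖S H n α‖) (Q : Finset ℕ) (hQ : ∀ p ∈ Q, p.Prime)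
    (hP : ∀ p ∈ Q, p ≤ P) (hPH : P ^ 2 ≤ H) (hPη : (P : ℝ) ≤ η * H) (hL : 6 / η ^ 2 ≤ τ * L)
    (hχ : (m - τ) * L ≤ ∑ p ∈ Q, 1 / (p : ℝ) * χ ((p : ℝ) * α)) :
    (m - 2 * τ) * L ≤ ∑ p ∈ Q.filter (fun p : ℕ => Bad (H / p) U (ε - 2 * η) (n / p)), 1 / (p : ℝ) := by
  have hE := EXC_main H n P α ε η hH hη hε hS Q hQ hP hPH hPη
  have h2 : ∑ p ∈ Q, 1 / (p : ℝ) * χ ((p : ℝ) * α) ≤
      (∑ p ∈ Q.filter (fun p : ℕ => ‖S (H / p) (n / p) ((p : ℝ) * α)‖ <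
        (ε - 2 * η) * ((H / p : ℕ) : ℝ)), 1 / (p : ℝ)) +
      ∑ p ∈ Q.filter (fun p : ℕ => Bad (H / p) U (ε - 2 * η) (n / p)), 1 / (p : ℝ) := by
    rw [Finset.sum_filter, Finset.sum_filter, ← Finset.sum_add_distrib]
    refine Finset.sum_le_sum fun p _ => ?_
    have hp0 : (0 : ℝ) ≤ 1 / (p : ℝ) := by positivity
    have h3 : 1 / (p : ℝ) * χ ((p : ℝ) * α) ≤ 1 / (p : ℝ) := by
      have := mul_le_mul_of_nonneg_left (h1 ((p : ℝ) * α)) hp0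
      rwa [mul_one] at this
    by_cases he : ‖S (H / p) (n / p) ((p : ℝ) * α)‖ < (ε - 2 * η) * ((H / p : ℕ) : ℝ)
    · rw [if_pos he]
      split_ifs <;> linarith
    · rw [if_neg he, zero_add]
      by_cases hx : χ ((p : ℝ) * α) = 0
      · rw [hx, mul_zero]
        split_ifs <;> linarith
      · obtain ⟨k, hk⟩ := hU _ hx
        have hB : Bad (H / p) U (ε - 2 * η) (n / p) := by
          refine ⟨_, hk, ?_⟩
          rw [PT_periodic]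
          exact not_lt.1 he
        rw [if_pos hB]
        exact h3
  linarith

end Pool.Agent.H6.FU
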