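import Pool.Agent.H6.FU.Defs

/-!
# RS: correlations of dilates of a Lipschitz function

`χ` is `1`-periodic, `K`-Lipschitz, `|χ| ≤ 1`, of mean `0`; `p`, `q` coprime, `q ≥ 1`. Then
`|∫₀¹ χ(pα) χ(qα) dα| ≤ K/q`.

Proof. Cut `[0,1]` at the points `j/q` and substitute `α = (t+j)/q`, `t ∈ [0,1]`:
`∫₀¹ f = (1/q) ∑_{j<q} ∫₀¹ f((t+j)/q) dt`. With `f(α) = χ(pα)χ(qα)` and `χ(q·(t+j)/q) = χ(t+j) = χ(t)` this is
`∫₀¹ χ(t) R(t) dt`, `R(t) = (1/q) ∑_{j<q} χ(pt/q + pj/q)`. As `gcd(p,q) = 1`, the residues `pj mod q` run through all residues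
mod `q` and `χ` is `1`-periodic, so `R(t) = (1/q) ∑_{i<q} χ(x + i/q)` with `x = pt/q`. Since `∫₀¹ χ = 0 = ∫_x^{x+1} χ`,
`|R(t)| = |∑_{i<q} ∫_{i/q}^{(i+1)/q} (χ(x+i/q) - χ(x+s)) ds| ≤ ∑_i (1/q)(K/q) = K/q`. So `|∫₀¹ f| ≤ K/q`.
-/

namespace Pool.Agent.H6.FU

open Finset

/-- cutting `[0,1]` at the points `j/q` -/
theorem RS_cut (f : ℝ → ℝ) (hf : Continuous f) (q : ℕ) (hq : 1 ≤ q) :
    ∫ x in (0 : ℝ)..1, f x = (1 / (q : ℝ)) * ∑ j ∈ range q, ∫ t in (0 : ℝ)..1, f ((t + j) / q) := by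
  have hq0 : (q : ℝ) ≠ 0 := by
    have : (0 : ℝ) < q := by exact_mod_cast hq
    exact this.ne'
  have h1 : ∫ u in (0 : ℝ)..q, f (u / q) = q * ∫ x in (0 : ℝ)..1, f x := by
    rw [intervalIntegral.integral_comp_div (fun x => f x) hq0, zero_div, div_self hq0, smul_eq_mul]
  have h2 : ∑ j ∈ range q, ∫ u in ((j : ℕ) : ℝ)..((j + 1 : ℕ) : ℝ), f (u / q)
      = ∫ u in ((0 : ℕ) : ℝ)..(q : ℝ), f (u / q) := by
    apply intervalIntegral.sum_integral_adjacent_intervals
    intro k _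
    apply Continuous.intervalIntegrable
    fun_prop
  have h3 : ∀ j : ℕ, ∫ u in ((j : ℕ) : ℝ)..((j + 1 : ℕ) : ℝ), f (u / q)
      = ∫ t in (0 : ℝ)..1, f ((t + j) / q) := by
    intro j
    rw [intervalIntegral.integral_comp_add_right (fun u => f (u / q)) (j : ℝ)]
    congr 1
    · ring
    · push_cast; ring
  rw [Finset.sum_congr rfl fun j _ => (h3 j).symm, h2, Nat.cast_zero, h1]
  field_simp

/-- Riemann sum of a Lipschitz function of mean `0` -/
theorem RS_riem (χ : ℝ → ℝ) (K : ℝ) (hper : Function.Periodic χ 1)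
    (hL : ∀ x y, |χ x - χ y| ≤ K * |x - y|) (hc : Continuous χ)
    (h0 : ∫ x in (0 : ℝ)..1, χ x = 0) (q : ℕ) (hq : 1 ≤ q) (x : ℝ) :
    |∑ i ∈ range q, χ (x + i / q)| ≤ K := by
  have hq0 : (0 : ℝ) < q := by exact_mod_cast hq
  have hK : 0 ≤ K := by
    have := (abs_nonneg _).trans (hL 1 0)
    simpa using this
  have h1 : ∫ s in (0 : ℝ)..1, χ (x + s) = 0 := by
    have h2 := intervalIntegral.integral_comp_add_left (a := 0) (b := 1) χ x
    rw [h2, add_zero, hper.intervalIntegral_add_eq x 0, zero_add, h0]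
  rw [RS_cut (fun s => χ (x + s)) (by fun_prop) q hq] at h1
  have h3 : ∑ i ∈ range q, ∫ t in (0 : ℝ)..1, χ (x + (t + i) / q) = 0 := by
    rcases mul_eq_zero.1 h1 with h | h
    · exact absurd h (by positivity)
    · exact h
  have h4 : ∑ i ∈ range q, χ (x + i / q)
      = ∑ i ∈ range q, ∫ t in (0 : ℝ)..1, (χ (x + i / q) - χ (x + (t + i) / q)) := by
    have h5 : ∀ i : ℕ, ∫ t in (0 : ℝ)..1, (χ (x + i / q) - χ (x + (t + i) / q))
        = χ (x + i / q) - ∫ t in (0 : ℝ)..1, χ (x + (t + i) / q) := by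
      intro i
      rw [intervalIntegral.integral_sub]
      · simp
      · exact Continuous.intervalIntegrable (by fun_prop) _ _
      · exact Continuous.intervalIntegrable (by fun_prop) _ _
    rw [Finset.sum_congr rfl fun i _ => h5 i, Finset.sum_sub_distrib, h3, sub_zero]
  rw [h4]
  have h6 : ∀ i ∈ range q, |∫ t in (0 : ℝ)..1, (χ (x + i / q) - χ (x + (t + i) / q))| ≤ K / q := by
    intro i _
    have h7 := intervalIntegral.norm_integral_le_of_norm_le_const (a := (0 : ℝ)) (b := 1)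
      (C := K / q) (f := fun t => χ (x + i / q) - χ (x + (t + i) / q)) (by
        intro t ht
        rw [Set.uIoc_of_le zero_le_one] at ht
        refine (hL _ _).trans ?_
        have h8 : x + (i : ℝ) / q - (x + (t + i) / q) = -(t / q) := by ring
        rw [h8, abs_neg, abs_of_nonneg (div_nonneg ht.1.le hq0.le), div_eq_mul_inv K,
          div_eq_mul_inv t]
        have h9 : t * (q : ℝ)⁻¹ ≤ 1 * (q : ℝ)⁻¹ :=
          mul_le_mul_of_nonneg_right ht.2 (by positivity)
        rw [one_mul] at h9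
        exact mul_le_mul_of_nonneg_left h9 hK)
    simpa using h7
  refine (Finset.abs_sum_le_sum_abs _ _).trans ((Finset.sum_le_sum h6).trans ?_)
  rw [Finset.sum_const, card_range, nsmul_eq_mul]
  have : (q : ℝ) * (K / q) = K := by field_simp
  exact this.le

/-- permutation of the residues -/
theorem RS_perm (χ : ℝ → ℝ) (hper : Function.Periodic χ 1) (p q : ℕ) (hpq : Nat.Coprime p q)
    (hq : 1 ≤ q) (y : ℝ) :
    ∑ j ∈ range q, χ (y + p * j / q) = ∑ i ∈ range q, χ (y + i / q) := by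
  have hq0 : (q : ℝ) ≠ 0 := by
    have : (0 : ℝ) < q := by exact_mod_cast hq
    exact this.ne'
  have h1 : ∀ j : ℕ, χ (y + p * j / q) = χ (y + (((p * j) % q : ℕ) : ℝ) / q) := by
    intro j
    have h2 : (y + p * j / q : ℝ) = (y + (((p * j) % q : ℕ) : ℝ) / q) + ((p * j / q : ℕ) : ℕ) * 1 := by
      have h3 : ((p * j : ℕ) : ℝ) = (((p * j) % q : ℕ) : ℝ) + q * ((p * j / q : ℕ) : ℝ) := by
        exact_mod_cast (Nat.mod_add_div (p * j) q).symm
      push_cast at h3
      rw [h3]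
      field_simp
      ring
    rw [h2]
    exact hper.nat_mul (p * j / q) _
  rw [Finset.sum_congr rfl fun j _ => h1 j]
  have hinj : Set.InjOn (fun j => (p * j) % q) (range q : Set ℕ) := by
    intro a ha b hb hab
    have ha' : a < q := by simpa using ha
    have hb' : b < q := by simpa using hb
    have h2 : p * a ≡ p * b [MOD q] := hab
    have h3 : a ≡ b [MOD q] := Nat.ModEq.cancel_left_of_coprime (by rwa [Nat.gcd_comm]) h2
    rwa [Nat.ModEq, Nat.mod_eq_of_lt ha', Nat.mod_eq_of_lt hb'] at h3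
  have himg : (range q).image (fun j => (p * j) % q) = range q := by
    apply Finset.eq_of_subset_of_card_le
    · intro i hi
      rw [mem_image] at hi
      obtain ⟨j, _, rfl⟩ := hi
      exact mem_range.2 (Nat.mod_lt _ (by omega))
    · rw [Finset.card_image_of_injOn hinj]
  have h5 := Finset.sum_image (f := fun i : ℕ => χ (y + i / q)) (s := range q)
    (g := fun j => (p * j) % q) hinj
  rw [himg] at h5
  exact h5.symm

theorem RS_main (χ : ℝ → ℝ) (K : ℝ) (hper : Function.Periodic χ 1) (hL : ∀ x y, |χ x - χ y| ≤ K * |x - y|)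
    (h1 : ∀ x, |χ x| ≤ 1) (h0 : ∫ x in (0 : ℝ)..1, χ x = 0) (p q : ℕ) (hpq : Nat.Coprime p q) (hq : 1 ≤ q) :
    |∫ x in (0 : ℝ)..1, χ ((p : ℝ) * x) * χ ((q : ℝ) * x)| ≤ K / q := by
  have hq0 : (0 : ℝ) < q := by exact_mod_cast hq
  have hK : 0 ≤ K := by
    have := (abs_nonneg _).trans (hL 1 0)
    simpa using this
  have hc : Continuous χ := by
    have h2 : LipschitzWith (Real.toNNReal K) χ := by
      apply LipschitzWith.of_dist_le_mul
      intro x y
      rw [Real.dist_eq, Real.dist_eq]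
      exact (hL x y).trans (mul_le_mul_of_nonneg_right (Real.le_coe_toNNReal K) (abs_nonneg _))
    exact h2.continuous
  rw [RS_cut (fun x => χ ((p : ℝ) * x) * χ ((q : ℝ) * x)) (by fun_prop) q hq]
  have h2 : ∀ j ∈ range q, ∫ t in (0 : ℝ)..1, χ ((p : ℝ) * ((t + j) / q)) * χ ((q : ℝ) * ((t + j) / q))
      = ∫ t in (0 : ℝ)..1, χ (p * t / q + p * j / q) * χ t := by
    intro j _
    congr 1
    funext t
    have h3 : (q : ℝ) * ((t + j) / q) = t + (j : ℕ) * 1 := by field_simp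
    have h4 : (p : ℝ) * ((t + j) / q) = p * t / q + p * j / q := by ring
    rw [h3, h4, hper.nat_mul j t]
  rw [Finset.sum_congr rfl h2, ← intervalIntegral.integral_finsetSum (fun j _ =>
    Continuous.intervalIntegrable (by fun_prop) _ _)]
  have h5 : (fun t => ∑ j ∈ range q, χ ((p : ℝ) * t / q + p * j / q) * χ t)
      = fun t => (∑ i ∈ range q, χ ((p : ℝ) * t / q + i / q)) * χ t := by
    funext t
    rw [← Finset.sum_mul, RS_perm χ hper p q hpq hq]
  rw [h5, abs_mul, abs_of_pos (by positivity : (0 : ℝ) < 1 / q)]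
  have h6 := intervalIntegral.norm_integral_le_of_norm_le_const (a := (0 : ℝ)) (b := 1)
      (C := K) (f := fun t => (∑ i ∈ range q, χ ((p : ℝ) * t / q + i / q)) * χ t) (by
        intro t _
        rw [Real.norm_eq_abs, abs_mul]
        have h7 := RS_riem χ K hper hL hc h0 q hq ((p : ℝ) * t / q)
        calc |∑ i ∈ range q, χ ((p : ℝ) * t / q + i / q)| * |χ t| ≤ K * 1 :=
              mul_le_mul h7 (h1 t) (abs_nonneg _) hK
          _ = K := mul_one K)
  rw [sub_zero, abs_one, mul_one, Real.norm_eq_abs] at h6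
  calc 1 / (q : ℝ) * |∫ t in (0 : ℝ)..1, (∑ i ∈ range q, χ ((p : ℝ) * t / q + i / q)) * χ t|
      ≤ 1 / (q : ℝ) * K := mul_le_mul_of_nonneg_left h6 (by positivity)
    _ = K / q := by ring

end Pool.Agent.H6.FU
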