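import Pool.Agent.H6.FU.Defs

/-!
# TK: the dual Turan-Kubilius inequality for one window

Statement: for `‖a h‖ ≤ 1`, a finite set `Q` of primes `≤ P`, `P² ≤ H`:
`∑_{p ∈ Q} (1/p) ‖p A_p - A‖² ≤ 6 H²`, where `A = ∑_{h ≤ H} a h`, `A_p = ∑_{h ≤ H, p ∣ n+h} a h`.

Proof. Put `B_p = p A_p - A = ∑_h a_h (p 1[p ∣ n+h] - 1)`, `c_p = conj(B_p)/p`, `T = ∑_p |B_p|²/p`. Then
`T = ∑_p c_p B_p = ∑_h a_h ∑_p c_p (p 1[p∣n+h] - 1)`, so Cauchy-Schwarz in `h` gives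
`T² ≤ H ∑_h |∑_p c_p g_p(h)|²` with the real `g_p(h) = p 1[p∣n+h] - 1`. Expand the square:
`∑_h |∑_p c_p g_p(h)|² = ∑_{p,q} Re(c_p conj c_q) G(p,q) ≤ ∑_{p,q} |c_p||c_q||G(p,q)|`, `G(p,q) = ∑_{h≤H} g_p(h) g_q(h)`.
Counting: for `d ≥ 1` the number of `h ∈ [1,H]` with `d ∣ n+h` is `H/d + θ` with `|θ| ≤ 1`.
* `p = q`: `G = (p²-2p)#{p∣n+h} + H ≤ (p² - 2p)(H/p + 1) + H = (p-1)H + p² - 2p ≤ 2 p H` (as `p ≤ P ≤ H`), and `G ≥ 0`.
* `p ≠ q`: the cross conditions `p∣n+h` and `q∣n+h` together mean `pq ∣ n+h`, so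
  `G = pq(H/pq + θ) - p(H/p + θ') - q(H/q + θ'') + H`, `|G| ≤ pq + p + q ≤ 2pq` (`p + q ≤ pq` for distinct primes; any
  integers `≥ 2` would do).
Hence `∑_h |..|² ≤ 2H ∑ p|c_p|² + 2 (∑ p|c_p|)²`. Now `∑ p|c_p|² = ∑|B_p|²/p = T` and
`(∑ p|c_p|)² = (∑ |B_p|)² ≤ (∑ |B_p|²/p)(∑_{p∈Q} p) ≤ T P² ≤ T H` (`Q ⊆ [1,P]` has at most `P` elements, each `≤ P`).
So `T² ≤ H (2HT + 2HT) = 4H²T`, i.e. `T ≤ 4H² ≤ 6H²`.
-/

namespace Pool.Agent.H6.FU

open Finset

theorem TK_count (n H d : ℕ) :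
    (∑ h ∈ Icc 1 H, if d ∣ n + h then 1 else 0) + n / d = (n + H) / d := by
  induction H with
  | zero => simp
  | succ k ih =>
    rw [Finset.sum_Icc_succ_top (by omega), ← Nat.add_assoc n k 1, Nat.succ_div, ← ih]
    ring

theorem TK_cnt (n H d : ℕ) (hd : 0 < d) :
    |(∑ h ∈ Icc 1 H, if d ∣ n + h then (1 : ℝ) else 0) - H / d| ≤ 1 := by
  have h1 := TK_count n H d
  have hd' : (0 : ℝ) < d := by exact_mod_cast hd
  have h2 : (∑ h ∈ Icc 1 H, if d ∣ n + h then (1 : ℝ) else 0)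
      = (((n + H) / d : ℕ) : ℝ) - ((n / d : ℕ) : ℝ) := by
    rw [← h1]
    push_cast
    ring
  have h3 : (((n + H) / d : ℕ) : ℝ) ≤ ((n : ℝ) + H) / d := by
    have := Nat.cast_div_le (α := ℝ) (m := n + H) (n := d)
    push_cast at this
    exact this
  have h4 : ((n : ℝ) + H) / d < (((n + H) / d : ℕ) : ℝ) + 1 := by
    rw [div_lt_iff₀ hd']
    have := Nat.lt_mul_div_succ (n + H) hd
    have h5 : ((n + H : ℕ) : ℝ) < ((d * ((n + H) / d + 1) : ℕ) : ℝ) := by exact_mod_cast this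
    push_cast at h5
    linarith
  have h5 : ((n / d : ℕ) : ℝ) ≤ (n : ℝ) / d := Nat.cast_div_le
  have h6 : (n : ℝ) / d < ((n / d : ℕ) : ℝ) + 1 := by
    rw [div_lt_iff₀ hd']
    have := Nat.lt_mul_div_succ n hd
    have h5 : (n : ℝ) < ((d * (n / d + 1) : ℕ) : ℝ) := by exact_mod_cast this
    push_cast at h5
    linarith
  have h7 : ((n : ℝ) + H) / d = (n : ℝ) / d + H / d := add_div _ _ _
  rw [h2, abs_le]
  constructor <;> linarith

/-- the real weight of the window -/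
noncomputable def TK_g (n : ℕ) (p h : ℕ) : ℝ := p * (if p ∣ n + h then 1 else 0) - 1

theorem TK_diag (n H p : ℕ) (hp : 2 ≤ p) (hpH : p ≤ H) :
    |∑ h ∈ Icc 1 H, TK_g n p h * TK_g n p h| ≤ 2 * p * H := by
  have hp' : (2 : ℝ) ≤ p := by exact_mod_cast hp
  have hpH' : (p : ℝ) ≤ H := by exact_mod_cast hpH
  have h0 : 0 ≤ ∑ h ∈ Icc 1 H, TK_g n p h * TK_g n p h :=
    Finset.sum_nonneg fun h _ => mul_self_nonneg _
  rw [abs_of_nonneg h0]
  have h1 : ∀ h, TK_g n p h * TK_g n p h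
      = ((p : ℝ) ^ 2 - 2 * p) * (if p ∣ n + h then 1 else 0) + 1 := by
    intro h
    unfold TK_g
    split_ifs <;> ring
  have h2 := TK_cnt n H p (by omega)
  have h3 : (∑ h ∈ Icc 1 H, if p ∣ n + h then (1 : ℝ) else 0) ≤ H / p + 1 := by
    have := (abs_le.mp h2).2
    linarith
  simp_rw [h1]
  rw [Finset.sum_add_distrib, ← Finset.mul_sum]
  have h4 : ∑ _h ∈ Icc 1 H, (1 : ℝ) = H := by simp
  rw [h4]
  have h5 : 0 ≤ (p : ℝ) ^ 2 - 2 * p := by nlinarith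
  have h6 := mul_le_mul_of_nonneg_left h3 h5
  have h7 : ((p : ℝ) ^ 2 - 2 * p) * (H / p + 1) = (p - 2) * (H + p) := by
    field_simp
  rw [h7] at h6
  nlinarith

theorem TK_off (n H p q : ℕ) (hp : p.Prime) (hq : q.Prime) (hpq : p ≠ q) :
    |∑ h ∈ Icc 1 H, TK_g n p h * TK_g n q h| ≤ 2 * p * q := by
  have hp' : (2 : ℝ) ≤ p := by exact_mod_cast hp.two_le
  have hq' : (2 : ℝ) ≤ q := by exact_mod_cast hq.two_le
  have hco : Nat.Coprime p q := (Nat.coprime_primes hp hq).mpr hpq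
  have h1 : ∀ h, TK_g n p h * TK_g n q h
      = (p : ℝ) * q * (if p * q ∣ n + h then 1 else 0) - p * (if p ∣ n + h then 1 else 0)
        - q * (if q ∣ n + h then 1 else 0) + 1 := by
    intro h
    unfold TK_g
    by_cases a1 : p ∣ n + h <;> by_cases a2 : q ∣ n + h
    · have : p * q ∣ n + h := hco.mul_dvd_of_dvd_of_dvd a1 a2
      simp only [a1, a2, this, if_true]; ring
    · have : ¬ p * q ∣ n + h := fun hh => a2 (dvd_trans (Dvd.intro_left p rfl) hh)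
      simp only [a1, a2, this, if_true, if_false]; ring
    · have : ¬ p * q ∣ n + h := fun hh => a1 (dvd_trans (Dvd.intro q rfl) hh)
      simp only [a1, a2, this, if_true, if_false]; ring
    · have : ¬ p * q ∣ n + h := fun hh => a1 (dvd_trans (Dvd.intro q rfl) hh)
      simp only [a1, a2, this, if_false]; ring
  have c1 := TK_cnt n H (p * q) (Nat.mul_pos hp.pos hq.pos)
  have c2 := TK_cnt n H p hp.pos
  have c3 := TK_cnt n H q hq.pos
  set x := (∑ h ∈ Icc 1 H, if p * q ∣ n + h then (1 : ℝ) else 0) with hx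
  set y := (∑ h ∈ Icc 1 H, if p ∣ n + h then (1 : ℝ) else 0) with hy
  set z := (∑ h ∈ Icc 1 H, if q ∣ n + h then (1 : ℝ) else 0) with hz
  have h2 : ∑ h ∈ Icc 1 H, TK_g n p h * TK_g n q h = p * q * x - p * y - q * z + H := by
    simp_rw [h1]
    rw [Finset.sum_add_distrib, Finset.sum_sub_distrib, Finset.sum_sub_distrib,
      ← Finset.mul_sum, ← Finset.mul_sum, ← Finset.mul_sum]
    have h4 : ∑ _h ∈ Icc 1 H, (1 : ℝ) = H := by simp
    rw [h4]
  have hp0 : (p : ℝ) ≠ 0 := by positivity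
  have hq0 : (q : ℝ) ≠ 0 := by positivity
  have h3 : (p : ℝ) * q * x - p * y - q * z + H
      = p * q * (x - H / ((p * q : ℕ) : ℝ)) - p * (y - H / p) - q * (z - H / q) := by
    push_cast
    field_simp
    ring
  rw [h2, h3]
  obtain ⟨a1, a2⟩ := abs_le.mp c1
  obtain ⟨b1, b2⟩ := abs_le.mp c2
  obtain ⟨d1, d2⟩ := abs_le.mp c3
  have hpq0 : (0 : ℝ) ≤ p * q := by positivity
  have m1 := mul_le_mul_of_nonneg_left a1 hpq0
  have m2 := mul_le_mul_of_nonneg_left a2 hpq0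
  have m3 := mul_le_mul_of_nonneg_left b1 (by linarith : (0 : ℝ) ≤ p)
  have m4 := mul_le_mul_of_nonneg_left b2 (by linarith : (0 : ℝ) ≤ p)
  have m5 := mul_le_mul_of_nonneg_left d1 (by linarith : (0 : ℝ) ≤ q)
  have m6 := mul_le_mul_of_nonneg_left d2 (by linarith : (0 : ℝ) ≤ q)
  have m7 : (p : ℝ) + q ≤ p * q := by nlinarith
  rw [abs_le]
  constructor <;> linarith

theorem TK_main (H n P : ℕ) (a : ℕ → ℂ) (ha : ∀ h, ‖a h‖ ≤ 1) (Q : Finset ℕ) (hQ : ∀ p ∈ Q, p.Prime)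
    (hP : ∀ p ∈ Q, p ≤ P) (hPH : P ^ 2 ≤ H) :
    (∑ p ∈ Q, (1 / (p : ℝ)) *
      ‖(p : ℂ) * (∑ h ∈ (Icc 1 H).filter (fun h => p ∣ n + h), a h) - ∑ h ∈ Icc 1 H, a h‖ ^ 2)
      ≤ 6 * (H : ℝ) ^ 2 := by
  set B : ℕ → ℂ := fun p =>
    (p : ℂ) * (∑ h ∈ (Icc 1 H).filter (fun h => p ∣ n + h), a h) - ∑ h ∈ Icc 1 H, a h with hB
  set c : ℕ → ℂ := fun p => (starRingEnd ℂ) (B p) / p with hc
  set T : ℝ := ∑ p ∈ Q, (1 / (p : ℝ)) * ‖B p‖ ^ 2 with hT
  set G : ℕ → ℕ → ℝ := fun p q => ∑ h ∈ Icc 1 H, TK_g n p h * TK_g n q h with hG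
  set S : ℕ → ℂ := fun h => ∑ p ∈ Q, c p * (TK_g n p h : ℂ) with hS
  have hp0 : ∀ p ∈ Q, (0 : ℝ) < p := fun p hp => by exact_mod_cast (hQ p hp).pos
  have hT0 : 0 ≤ T := Finset.sum_nonneg fun p hp => by
    have := hp0 p hp
    positivity
  have hBg : ∀ p, B p = ∑ h ∈ Icc 1 H, a h * (TK_g n p h : ℂ) := by
    intro p
    rw [hB]
    simp only
    rw [Finset.sum_filter, Finset.mul_sum, ← Finset.sum_sub_distrib]
    apply Finset.sum_congr rfl
    intro h _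
    unfold TK_g
    split_ifs <;> push_cast <;> ring
  -- T as a sum over h
  have hT1 : (T : ℂ) = ∑ h ∈ Icc 1 H, a h * S h := by
    have e1 : (T : ℂ) = ∑ p ∈ Q, c p * B p := by
      rw [hT]
      push_cast
      apply Finset.sum_congr rfl
      intro p _
      rw [hc]
      simp only
      rw [← Complex.conj_mul' (B p)]
      ring
    rw [e1]
    simp_rw [hS, Finset.mul_sum]
    rw [Finset.sum_comm]
    apply Finset.sum_congr rfl
    intro p _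
    rw [hBg p, Finset.mul_sum]
    apply Finset.sum_congr rfl
    intro h _
    ring
  have hT2 : T ≤ ∑ h ∈ Icc 1 H, ‖S h‖ := by
    have e1 : T = ‖(T : ℂ)‖ := by rw [Complex.norm_real, Real.norm_eq_abs, abs_of_nonneg hT0]
    rw [e1, hT1]
    refine (norm_sum_le _ _).trans (Finset.sum_le_sum fun h _ => ?_)
    rw [norm_mul]
    calc ‖a h‖ * ‖S h‖ ≤ 1 * ‖S h‖ := mul_le_mul_of_nonneg_right (ha h) (norm_nonneg _)
      _ = ‖S h‖ := one_mul _
  have hT3 : T ^ 2 ≤ H * ∑ h ∈ Icc 1 H, ‖S h‖ ^ 2 := by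
    have e1 : T ^ 2 ≤ (∑ h ∈ Icc 1 H, ‖S h‖) ^ 2 := pow_le_pow_left₀ hT0 hT2 2
    have e2 := sq_sum_le_card_mul_sum_sq (s := Icc 1 H) (f := fun h => ‖S h‖)
    simp only [Nat.card_Icc, Nat.add_sub_cancel] at e2
    exact e1.trans e2
  -- expansion
  have hexp : ((∑ h ∈ Icc 1 H, ‖S h‖ ^ 2 : ℝ) : ℂ)
      = ∑ p ∈ Q, ∑ q ∈ Q, c p * (starRingEnd ℂ) (c q) * (G p q : ℂ) := by
    have e1 : ∀ h, ((‖S h‖ ^ 2 : ℝ) : ℂ) = ∑ p ∈ Q, ∑ q ∈ Q,
        c p * (starRingEnd ℂ) (c q) * ((TK_g n p h * TK_g n q h : ℝ) : ℂ) := by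
      intro h
      push_cast
      rw [← Complex.mul_conj', hS]
      simp only
      rw [map_sum, Finset.sum_mul_sum]
      apply Finset.sum_congr rfl
      intro p _
      apply Finset.sum_congr rfl
      intro q _
      rw [map_mul, Complex.conj_ofReal]
      ring
    rw [Complex.ofReal_sum]
    simp_rw [e1]
    rw [Finset.sum_comm]
    apply Finset.sum_congr rfl
    intro p _
    rw [Finset.sum_comm]
    apply Finset.sum_congr rfl
    intro q _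
    rw [← Finset.mul_sum, hG]
    simp only
    rw [Complex.ofReal_sum]
  have hPH' : P ≤ H := by nlinarith
  have hGb : ∀ p ∈ Q, ∀ q ∈ Q, |G p q| ≤ 2 * p * q + if p = q then 2 * p * (H : ℝ) else 0 := by
    intro p hp q hq
    have k1 := hp0 p hp
    have k2 := hp0 q hq
    by_cases h : p = q
    · subst h
      rw [if_pos rfl]
      have := TK_diag n H p (hQ p hp).two_le ((hP p hp).trans hPH')
      have h3 : (0 : ℝ) ≤ 2 * p * p := by positivity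
      simp only [hG]
      linarith
    · rw [if_neg h, add_zero]
      exact TK_off n H p q (hQ p hp) (hQ q hq) h
  have hcn : ∀ p ∈ Q, (p : ℝ) * ‖c p‖ = ‖B p‖ := by
    intro p hp
    have k1 := hp0 p hp
    rw [hc]
    simp only
    rw [norm_div, RCLike.norm_conj, Complex.norm_natCast]
    field_simp
  have hsum : ∑ h ∈ Icc 1 H, ‖S h‖ ^ 2 ≤ 2 * (∑ p ∈ Q, ‖B p‖) ^ 2 + 2 * H * T := by
    have e0 : 0 ≤ ∑ h ∈ Icc 1 H, ‖S h‖ ^ 2 := Finset.sum_nonneg fun h _ => sq_nonneg _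
    have e1 : ∑ h ∈ Icc 1 H, ‖S h‖ ^ 2 = ‖((∑ h ∈ Icc 1 H, ‖S h‖ ^ 2 : ℝ) : ℂ)‖ := by
      rw [Complex.norm_real, Real.norm_eq_abs, abs_of_nonneg e0]
    rw [e1, hexp]
    have e2 : ‖∑ p ∈ Q, ∑ q ∈ Q, c p * (starRingEnd ℂ) (c q) * (G p q : ℂ)‖
        ≤ ∑ p ∈ Q, ∑ q ∈ Q, ‖c p‖ * ‖c q‖ * (2 * p * q + if p = q then 2 * p * (H : ℝ) else 0) := by
      refine (norm_sum_le _ _).trans (Finset.sum_le_sum fun p hp => ?_)
      refine (norm_sum_le _ _).trans (Finset.sum_le_sum fun q hq => ?_)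
      rw [norm_mul, norm_mul, RCLike.norm_conj, Complex.norm_real, Real.norm_eq_abs]
      exact mul_le_mul_of_nonneg_left (hGb p hp q hq) (by positivity)
    refine e2.trans (le_of_eq ?_)
    have e3 : ∀ p ∈ Q, ∑ q ∈ Q, ‖c p‖ * ‖c q‖ * (2 * p * q + if p = q then 2 * p * (H : ℝ) else 0)
        = 2 * ‖B p‖ * (∑ q ∈ Q, ‖B q‖) + 2 * H * ((1 / (p : ℝ)) * ‖B p‖ ^ 2) := by
      intro p hp
      have k1 := hp0 p hp
      simp_rw [mul_add]
      rw [Finset.sum_add_distrib]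
      congr 1
      · rw [Finset.mul_sum]
        apply Finset.sum_congr rfl
        intro q hq
        rw [← hcn p hp, ← hcn q hq]
        ring
      · have : ∀ q ∈ Q, ‖c p‖ * ‖c q‖ * (if p = q then 2 * p * (H : ℝ) else 0)
            = if p = q then ‖c p‖ * ‖c p‖ * (2 * p * (H : ℝ)) else 0 := by
          intro q _
          by_cases h : p = q
          · subst h; simp
          · simp [h]
        rw [Finset.sum_congr rfl this, Finset.sum_ite_eq, if_pos hp, ← hcn p hp]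
        field_simp
    rw [Finset.sum_congr rfl e3, Finset.sum_add_distrib, ← Finset.mul_sum]
    congr 1
    rw [← Finset.sum_mul, ← Finset.mul_sum]
    ring
  have hBs : (∑ p ∈ Q, ‖B p‖) ^ 2 ≤ T * H := by
    have e1 : (∑ p ∈ Q, ‖B p‖) ^ 2 ≤ (∑ p ∈ Q, (1 / (p : ℝ)) * ‖B p‖ ^ 2) * ∑ p ∈ Q, (p : ℝ) := by
      apply Finset.sum_sq_le_sum_mul_sum_of_sq_le_mul
      · intro p hp
        have := hp0 p hp
        positivity
      · intro p hp
        exact (hp0 p hp).le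
      · intro p hp
        have := hp0 p hp
        apply le_of_eq
        field_simp
    have e2 : ∑ p ∈ Q, (p : ℝ) ≤ H := by
      have e3 : ∑ p ∈ Q, (p : ℝ) ≤ ∑ p ∈ Q, (P : ℝ) :=
        Finset.sum_le_sum fun p hp => by exact_mod_cast hP p hp
      have e4 : Q ⊆ Icc 1 P := by
        intro p hp
        exact Finset.mem_Icc.mpr ⟨(hQ p hp).pos, hP p hp⟩
      have e5 := Finset.card_le_card e4
      rw [Nat.card_Icc, Nat.add_sub_cancel] at e5
      rw [Finset.sum_const, nsmul_eq_mul] at e3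
      have e6 : (Q.card : ℝ) * P ≤ P * P := by
        have : (Q.card : ℝ) ≤ P := by exact_mod_cast e5
        exact mul_le_mul_of_nonneg_right this (Nat.cast_nonneg _)
      have e7 : (P : ℝ) * P ≤ H := by
        have : ((P ^ 2 : ℕ) : ℝ) ≤ H := by exact_mod_cast hPH
        push_cast at this
        nlinarith
      linarith
    exact e1.trans (mul_le_mul_of_nonneg_left e2 hT0)
  have hH0 : (0 : ℝ) ≤ H := Nat.cast_nonneg _
  have hfin : T ^ 2 ≤ 4 * (H : ℝ) ^ 2 * T := by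
    have e1 : ∑ h ∈ Icc 1 H, ‖S h‖ ^ 2 ≤ 4 * H * T := by nlinarith
    calc T ^ 2 ≤ H * ∑ h ∈ Icc 1 H, ‖S h‖ ^ 2 := hT3
      _ ≤ H * (4 * H * T) := mul_le_mul_of_nonneg_left e1 hH0
      _ = _ := by ring
  rcases eq_or_lt_of_le hT0 with h0 | h0
  · rw [← h0]; positivity
  · have : T ≤ 4 * (H : ℝ) ^ 2 := by
      have : T * T ≤ 4 * (H : ℝ) ^ 2 * T := by rw [← sq]; exact hfin
      exact le_of_mul_le_mul_right this h0
    have h6 : (0 : ℝ) ≤ (H : ℝ) ^ 2 := sq_nonneg _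
    linarith

end Pool.Agent.H6.FU
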