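import Pool.Agent.H6.FU.Defs

/-!
# VDC: local large values through a Dirichlet kernel

`D J x = ∑_{j<J} e(jx)`. Statement: `J² ‖S(α)‖² ≤ (H+J) ∫₀¹ ‖S(β)‖² ‖D_J(β-α)‖² dβ` (`S = S H n`).

Proof. Let `a_h = λ(n+h)` for `1 ≤ h ≤ H`. `J S(α) = ∑_{j<J} ∑_h a_h e(hα) = ∑_{m=1}^{H+J-1} e(mα) u_m`,
`u_m = ∑_{h + j = m} a_h e(-jα)` (group the pairs `(h,j)` by `m = h+j`). Cauchy-Schwarz:
`J²‖S(α)‖² ≤ (H+J-1) ∑_m |u_m|²` (if `H = 0` both sides are `0`). And `S(β) D_J(β-α) = ∑_{h,j} a_h e(-jα) e((h+j)β) = ∑_m u_m e(mβ)`, so by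
Parseval (orthogonality of `e(mβ)` on `[0,1]`, a finite sum) `∑_m |u_m|² = ∫₀¹ ‖S(β)‖²‖D_J(β-α)‖² dβ`.

`VDC_D1`: `‖D J x‖ ≤ J`. `VDC_D2`: if `|x - k| ≥ δ` for all integers `k` then `‖D J x‖ ≤ 1/(2δ)`:
`(e(x)-1) D_J(x) = e(Jx) - 1`, `|e(Jx)-1| ≤ 2` and `|e(x)-1| = 2|sin πx| ≥ 4 dist(x, ℤ) ≥ 4δ`
(reduce to `|x| ≤ 1/2` by `x ↦ x - round x` and use `Real.mul_le_sin`: `2/π t ≤ sin t` on `[0,π/2]`).
-/

namespace Pool.Agent.H6.FU

open Finset

/-- The Dirichlet kernel. -/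
noncomputable def D (J : ℕ) (x : ℝ) : ℂ :=
  ∑ j ∈ range J, Complex.exp (2 * (Real.pi : ℂ) * Complex.I * (j : ℂ) * (x : ℂ))

/-- `e(x)` -/
private noncomputable def VDC_e (x : ℝ) : ℂ := Complex.exp (2 * (Real.pi : ℂ) * Complex.I * (x : ℂ))

private theorem VDC_e_add (x y : ℝ) : VDC_e (x + y) = VDC_e x * VDC_e y := by
  unfold VDC_e
  rw [← Complex.exp_add]
  congr 1
  push_cast
  ring

private theorem VDC_e_norm (x : ℝ) : ‖VDC_e x‖ = 1 := by
  unfold VDC_e
  rw [Complex.norm_exp]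
  simp

private theorem VDC_e_zero : VDC_e 0 = 1 := by simp [VDC_e]

private theorem VDC_e_cont : Continuous VDC_e := by
  unfold VDC_e
  fun_prop

private theorem VDC_D_eq (J : ℕ) (x : ℝ) : D J x = ∑ j ∈ range J, VDC_e (j * x) := by
  unfold D VDC_e
  refine sum_congr rfl fun j _ => ?_
  congr 1
  push_cast
  ring

private theorem VDC_e_pow (x : ℝ) (j : ℕ) : VDC_e (j * x) = VDC_e x ^ j := by
  unfold VDC_e
  rw [← Complex.exp_nat_mul]
  congr 1
  push_cast
  ring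

theorem VDC_D1 (J : ℕ) (x : ℝ) : ‖D J x‖ ≤ J := by
  rw [VDC_D_eq]
  refine (norm_sum_le _ _).trans ?_
  rw [sum_congr rfl fun j _ => VDC_e_norm _]
  simp

theorem VDC_D2 (J : ℕ) (x δ : ℝ) (hδ : 0 < δ) (hx : ∀ k : ℤ, δ ≤ |x - k|) : ‖D J x‖ ≤ 1 / (2 * δ) := by
  have h1 : 4 * δ ≤ ‖VDC_e x - 1‖ := by
    have e1 : VDC_e x = Complex.exp (Complex.I * ((2 * Real.pi * x : ℝ) : ℂ)) := by
      unfold VDC_e
      congr 1
      push_cast
      ring
    rw [e1, Complex.norm_exp_I_mul_ofReal_sub_one]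
    have e2 : 2 * Real.pi * x / 2 = Real.pi * (x - round x) + (round x : ℝ) * Real.pi := by ring
    rw [e2, norm_mul, Real.norm_eq_abs, Real.norm_eq_abs, abs_of_pos (by norm_num : (0 : ℝ) < 2)]
    have e3 : |Real.sin (Real.pi * (x - round x) + (round x : ℝ) * Real.pi)| =
        |Real.sin (Real.pi * (x - round x))| := by
      rw [Real.sin_add_int_mul_pi, abs_mul, abs_zpow, abs_neg, abs_one, one_zpow, one_mul]
    rw [e3]
    have e4 : |Real.pi * (x - round x)| ≤ Real.pi / 2 := by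
      rw [abs_mul, abs_of_pos Real.pi_pos]
      have := abs_sub_round x
      nlinarith [Real.pi_pos]
    have e5 := Real.mul_abs_le_abs_sin e4
    rw [abs_mul, abs_of_pos Real.pi_pos] at e5
    have e6 : 2 / Real.pi * (Real.pi * |x - round x|) = 2 * |x - round x| := by
      have := Real.pi_pos.ne'
      field_simp
    rw [e6] at e5
    have := hx (round x)
    linarith
  have h2 : VDC_e x ≠ 1 := by
    intro h
    rw [h, sub_self, norm_zero] at h1
    linarith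
  rw [VDC_D_eq, sum_congr rfl fun j _ => VDC_e_pow x j, geom_sum_eq h2, norm_div]
  have h3 : ‖VDC_e x ^ J - 1‖ ≤ 2 := by
    refine (norm_sub_le _ _).trans ?_
    rw [norm_pow, VDC_e_norm, one_pow, norm_one]
    norm_num
  have h4 : 0 < ‖VDC_e x - 1‖ := by linarith
  calc ‖VDC_e x ^ J - 1‖ / ‖VDC_e x - 1‖ ≤ 2 / (4 * δ) := by
        apply div_le_div₀ (by norm_num) h3 (by positivity) h1
    _ = 1 / (2 * δ) := by field_simp; norm_num

private theorem VDC_int (k : ℤ) : ∫ β in (0 : ℝ)..1, VDC_e (k * β) = if k = 0 then 1 else 0 := by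
  split_ifs with h
  · subst h
    simp [VDC_e_zero]
  · have hc : (2 * (Real.pi : ℂ) * Complex.I * (k : ℂ)) ≠ 0 := by
      have : (k : ℂ) ≠ 0 := by exact_mod_cast h
      have := Complex.two_pi_I_ne_zero
      simp_all
    have h1 : ∀ β : ℝ, VDC_e (k * β) = Complex.exp ((2 * (Real.pi : ℂ) * Complex.I * (k : ℂ)) * β) := by
      intro β
      unfold VDC_e
      congr 1
      push_cast
      ring
    simp only [h1]
    rw [integral_exp_mul_complex hc]
    have h2 : Complex.exp (2 * (Real.pi : ℂ) * Complex.I * (k : ℂ) * ((1 : ℝ) : ℂ)) = 1 := by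
      have := Complex.exp_int_mul_two_pi_mul_I k
      rw [← this]
      congr 1
      push_cast
      ring
    rw [h2]
    simp

private theorem VDC_conj (x : ℝ) : (starRingEnd ℂ) (VDC_e x) = VDC_e (-x) := by
  unfold VDC_e
  rw [← Complex.exp_conj]
  congr 1
  simp only [map_mul, map_ofNat, Complex.conj_ofReal, Complex.conj_I, Complex.ofReal_neg]
  ring

private theorem VDC_int' (m m' : ℕ) :
    ∫ β in (0 : ℝ)..1, VDC_e (((m : ℝ) - m') * β) = if m = m' then 1 else 0 := by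
  have h := VDC_int ((m : ℤ) - m')
  push_cast at h
  rw [h]
  refine if_congr ?_ rfl rfl
  omega

private theorem VDC_parseval (M : ℕ) (u : ℕ → ℂ) :
    ∫ β in (0 : ℝ)..1, ‖∑ m ∈ range M, u m * VDC_e (m * β)‖ ^ 2 = ∑ m ∈ range M, ‖u m‖ ^ 2 := by
  have hcont : ∀ (c : ℂ) (k : ℝ), Continuous fun β : ℝ => c * VDC_e (k * β) := fun c k =>
    continuous_const.mul (VDC_e_cont.comp (by fun_prop))
  have h1 : ∀ β : ℝ, ((‖∑ m ∈ range M, u m * VDC_e (m * β)‖ ^ 2 : ℝ) : ℂ) =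
      ∑ m ∈ range M, ∑ m' ∈ range M, u m * (starRingEnd ℂ) (u m') * VDC_e (((m : ℝ) - m') * β) := by
    intro β
    push_cast
    rw [← Complex.mul_conj', map_sum, Finset.sum_mul_sum]
    refine sum_congr rfl fun m _ => sum_congr rfl fun m' _ => ?_
    rw [map_mul, VDC_conj]
    have : VDC_e (((m : ℝ) - m') * β) = VDC_e (m * β) * VDC_e (-(m' * β)) := by
      rw [← VDC_e_add]
      congr 1
      ring
    rw [this]
    ring
  have h2 : ((∫ β in (0 : ℝ)..1, ‖∑ m ∈ range M, u m * VDC_e (m * β)‖ ^ 2 : ℝ) : ℂ) =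
      ((∑ m ∈ range M, ‖u m‖ ^ 2 : ℝ) : ℂ) := by
    rw [← intervalIntegral.integral_ofReal]
    simp only [h1]
    rw [intervalIntegral.integral_finsetSum]
    · push_cast
      refine sum_congr rfl fun m hm => ?_
      rw [intervalIntegral.integral_finsetSum]
      · rw [Finset.sum_eq_single m]
        · rw [intervalIntegral.integral_const_mul, VDC_int', if_pos rfl, mul_one,
            Complex.mul_conj']
        · intro m' _ hm'
          rw [intervalIntegral.integral_const_mul, VDC_int', if_neg (Ne.symm hm'), mul_zero]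
        · intro h
          exact absurd hm h
      · intro m' _
        exact (hcont _ _).intervalIntegrable _ _
    · intro m _
      exact (continuous_finsetSum _ fun m' _ => hcont _ _).intervalIntegrable _ _
  exact_mod_cast h2

theorem VDC_main (H n J : ℕ) (hJ : 1 ≤ J) (α : ℝ) :
    (J : ℝ) ^ 2 * ‖S H n α‖ ^ 2 ≤ ((H : ℝ) + J) * ∫ β in (0 : ℝ)..1, ‖S H n β‖ ^ 2 * ‖D J (β - α)‖ ^ 2 := by
  set a : ℕ → ℂ := fun h => (-1 : ℂ) ^ (ArithmeticFunction.cardFactors (n + h)) with ha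
  have hS : ∀ β, S H n β = ∑ h ∈ Icc 1 H, a h * VDC_e (h * β) := by
    intro β
    unfold S
    refine sum_congr rfl fun h _ => ?_
    rw [ha]
    congr 1
    unfold VDC_e
    congr 1
    push_cast
    ring
  set u : ℕ → ℂ := fun m => ∑ p ∈ (Icc 1 H ×ˢ range J) with p.1 + p.2 = m, a p.1 * VDC_e (-(p.2 * α)) with hu
  have hT : ∀ β, S H n β * D J (β - α) = ∑ m ∈ range (H + J), u m * VDC_e (m * β) := by
    intro β
    have h1 : ∀ m ∈ range (H + J), u m * VDC_e (m * β) =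
        ∑ p ∈ (Icc 1 H ×ˢ range J) with p.1 + p.2 = m,
          a p.1 * VDC_e (-(p.2 * α)) * VDC_e ((p.1 + p.2 : ℕ) * β) := by
      intro m _
      rw [hu]
      simp only [Finset.sum_mul]
      refine sum_congr rfl fun p hp => ?_
      rw [(mem_filter.1 hp).2]
    rw [sum_congr rfl h1, Finset.sum_fiberwise_of_maps_to (g := fun p : ℕ × ℕ => p.1 + p.2)
      (f := fun p => a p.1 * VDC_e (-(p.2 * α)) * VDC_e ((p.1 + p.2 : ℕ) * β))]
    · rw [hS, VDC_D_eq, Finset.sum_mul_sum, ← Finset.sum_product']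
      refine sum_congr rfl fun p _ => ?_
      have h2 : VDC_e (p.2 * (β - α)) * VDC_e (p.1 * β) =
          VDC_e (-(p.2 * α)) * VDC_e ((p.1 + p.2 : ℕ) * β) := by
        rw [← VDC_e_add, ← VDC_e_add]
        congr 1
        push_cast
        ring
      rw [mul_assoc (a p.1), mul_assoc (a p.1), ← h2]
      ring
    · intro p hp
      rw [mem_product, mem_Icc, mem_range] at hp
      rw [mem_range]
      omega
  have hJS : (J : ℂ) * S H n α = ∑ m ∈ range (H + J), u m * VDC_e (m * α) := by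
    rw [← hT α, sub_self, mul_comm]
    congr 1
    rw [VDC_D_eq]
    simp [VDC_e_zero]
  have hCS : (J : ℝ) ^ 2 * ‖S H n α‖ ^ 2 ≤ ((H : ℝ) + J) * ∑ m ∈ range (H + J), ‖u m‖ ^ 2 := by
    have h1 : (J : ℝ) ^ 2 * ‖S H n α‖ ^ 2 = ‖(J : ℂ) * S H n α‖ ^ 2 := by
      rw [norm_mul, Complex.norm_natCast, mul_pow]
    rw [h1, hJS]
    have h2 : ‖∑ m ∈ range (H + J), u m * VDC_e (m * α)‖ ≤ ∑ m ∈ range (H + J), ‖u m‖ := by
      refine (norm_sum_le _ _).trans (le_of_eq ?_)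
      refine sum_congr rfl fun m _ => ?_
      rw [norm_mul, VDC_e_norm, mul_one]
    calc ‖∑ m ∈ range (H + J), u m * VDC_e (m * α)‖ ^ 2 ≤ (∑ m ∈ range (H + J), ‖u m‖) ^ 2 :=
          pow_le_pow_left₀ (norm_nonneg _) h2 2
      _ ≤ (#(range (H + J)) : ℝ) * ∑ m ∈ range (H + J), ‖u m‖ ^ 2 := sq_sum_le_card_mul_sum_sq
      _ = _ := by rw [card_range]; push_cast; ring
  have hP := VDC_parseval (H + J) u
  have h3 : ∀ β, ‖S H n β‖ ^ 2 * ‖D J (β - α)‖ ^ 2 = ‖∑ m ∈ range (H + J), u m * VDC_e (m * β)‖ ^ 2 := by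
    intro β
    rw [← hT, norm_mul, mul_pow]
  simp only [h3]
  rw [hP]
  exact hCS

end Pool.Agent.H6.FU
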